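import Pool.Agent.H19M.Stm

/-!
# H19M, piece BASE (helper70)
-/

set_option autoImplicit false

open Filter Topology Pool.Agent.N709.UM

universe u

namespace Pool.Agent.H19M

namespace BASEP

variable {H : Type u} [Group H]

/-- Almost preserving `ρ`, almost commuting with finitely many elements. -/
def DD (ρ : H → ℝ) (q : ℕ → H) (s : ℝ) (n : ℕ) : Set H :=
  {x | (∀ c, ρ (x * c * x⁻¹) ≤ ρ c + s ∧ ρ (x⁻¹ * c * x) ≤ ρ c + s) ∧
    ∀ j ≤ n, ρ (x * q j * x⁻¹ * (q j)⁻¹) < s ∧ ρ (x⁻¹ * q j * x * (q j)⁻¹) < s}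

lemma DD_mono (ρ : H → ℝ) (q : ℕ → H) {s s' : ℝ} {n n' : ℕ} (hs : s ≤ s') (hn : n' ≤ n) :
    DD ρ q s n ⊆ DD ρ q s' n' := by
  rintro x ⟨h1, h2⟩
  refine ⟨fun c => ⟨(h1 c).1.trans (by linarith), (h1 c).2.trans (by linarith)⟩,
    fun j hj => ⟨(h2 j (hj.trans hn)).1.trans_le hs, (h2 j (hj.trans hn)).2.trans_le hs⟩⟩

lemma one_mem (ρ : H → ℝ) (hρ : PN ρ) (q : ℕ → H) {s : ℝ} (hs : 0 < s) (n : ℕ) :
    (1 : H) ∈ DD ρ q s n := by
  refine ⟨fun c => ?_, fun j _ => ?_⟩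
  · rw [inv_one, one_mul, mul_one]
    constructor <;> linarith
  · rw [inv_one, one_mul, mul_one, mul_inv_cancel, hρ.one]
    exact ⟨hs, hs⟩

lemma inv_mem (ρ : H → ℝ) (q : ℕ → H) {s : ℝ} {n : ℕ} {x : H} (hx : x ∈ DD ρ q s n) :
    x⁻¹ ∈ DD ρ q s n := by
  obtain ⟨h1, h2⟩ := hx
  refine ⟨fun c => ?_, fun j hj => ?_⟩
  · rw [inv_inv]
    exact ⟨(h1 c).2, (h1 c).1⟩
  · rw [inv_inv]
    exact ⟨(h2 j hj).2, (h2 j hj).1⟩

lemma mul_mem (ρ : H → ℝ) (hρ : PN ρ) (q : ℕ → H) {s : ℝ} (hs : 0 < s) {n : ℕ} {x y : H}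
    (hx : x ∈ DD ρ q s n) (hy : y ∈ DD ρ q s n) : x * y ∈ DD ρ q (4 * s) n := by
  obtain ⟨h1, h2⟩ := hx
  obtain ⟨k1, k2⟩ := hy
  refine ⟨fun c => ⟨?_, ?_⟩, fun j hj => ⟨?_, ?_⟩⟩
  · have e : x * y * c * (x * y)⁻¹ = x * (y * c * y⁻¹) * x⁻¹ := by group
    rw [e]
    have := (h1 (y * c * y⁻¹)).1
    have := (k1 c).1
    linarith
  · have e : (x * y)⁻¹ * c * (x * y) = y⁻¹ * (x⁻¹ * c * x) * y := by group
    rw [e]
    have := (k1 (x⁻¹ * c * x)).2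
    have := (h1 c).2
    linarith
  · have e : x * y * q j * (x * y)⁻¹ * (q j)⁻¹ =
        (x * (y * q j * y⁻¹ * (q j)⁻¹) * x⁻¹) * (x * q j * x⁻¹ * (q j)⁻¹) := by group
    rw [e]
    have a1 := hρ.mul (x * (y * q j * y⁻¹ * (q j)⁻¹) * x⁻¹) (x * q j * x⁻¹ * (q j)⁻¹)
    have a2 := (h1 (y * q j * y⁻¹ * (q j)⁻¹)).1
    have a3 := (k2 j hj).1
    have a4 := (h2 j hj).1
    linarith
  · have e : (x * y)⁻¹ * q j * (x * y) * (q j)⁻¹ =
        (y⁻¹ * (x⁻¹ * q j * x * (q j)⁻¹) * y) * (y⁻¹ * q j * y * (q j)⁻¹) := by group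
    rw [e]
    have a1 := hρ.mul (y⁻¹ * (x⁻¹ * q j * x * (q j)⁻¹) * y) (y⁻¹ * q j * y * (q j)⁻¹)
    have a2 := (k1 (x⁻¹ * q j * x * (q j)⁻¹)).2
    have a3 := (k2 j hj).2
    have a4 := (h2 j hj).2
    linarith

end BASEP

open BASEP in
theorem t_BASE : S_BASE.{u} := by
  intro H _ _ _ _ ρ hG
  classical
  have : TopologicalSpace.SeparableSpace H := inferInstance
  have : Nonempty H := ⟨1⟩
  set q : ℕ → H := TopologicalSpace.denseSeq H with hq
  have hqd : DenseRange q := TopologicalSpace.denseRange_denseSeq H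
  set B : ℕ → Set H := fun n => DD ρ q (1 / ((n : ℝ) + 1)) n with hB
  have hBpos : ∀ n : ℕ, (0 : ℝ) < 1 / ((n : ℝ) + 1) := fun n => by positivity
  have hanti : Antitone B := by
    intro n m hnm
    refine DD_mono ρ q ?_ hnm
    have : (n : ℝ) ≤ m := by exact_mod_cast hnm
    exact one_div_le_one_div_of_le (by positivity) (by linarith)
  set F : Filter H := ⨅ n, 𝓟 (B n) with hF
  have hmem : ∀ A : Set H, A ∈ F ↔ ∃ n, B n ⊆ A := by
    intro A
    have hdir : Directed (· ≥ ·) (fun n => 𝓟 (B n)) := by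
      intro n m
      refine ⟨max n m, ?_, ?_⟩
      · exact principal_mono.2 (hanti (le_max_left _ _))
      · exact principal_mono.2 (hanti (le_max_right _ _))
    rw [hF, mem_iInf_of_directed hdir]
    simp only [mem_principal]
  have hBF : ∀ n, B n ∈ F := fun n => (hmem _).2 ⟨n, le_rfl⟩
  have hsmall : ∀ t : ℝ, 0 < t → ∀ j : ℕ, ∃ n : ℕ, j ≤ n ∧ 1 / ((n : ℝ) + 1) < t := by
    intro t ht j
    obtain ⟨n, hn⟩ := exists_nat_one_div_lt ht
    refine ⟨max n j, le_max_right _ _, lt_of_le_of_lt ?_ hn⟩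
    have : (n : ℝ) ≤ ((max n j : ℕ) : ℝ) := by exact_mod_cast le_max_left _ _
    exact one_div_le_one_div_of_le (by positivity) (by linarith)
  have hmul : ∀ n, ∃ m, ∀ x ∈ B m, ∀ y ∈ B m, x * y ∈ B n := by
    intro n
    obtain ⟨m, hm, hm1⟩ := hsmall ((1 / ((n : ℝ) + 1)) / 4) (by have := hBpos n; positivity) n
    refine ⟨m, fun x hx y hy => ?_⟩
    refine DD_mono ρ q ?_ hm (mul_mem ρ hG.pn q (hBpos m) hx hy)
    linarith
  refine ⟨F, ⟨?_, ?_, ?_, ?_, ?_⟩, ?_, ?_⟩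
  · intro A hA
    obtain ⟨n, hn⟩ := (hmem A).1 hA
    exact hn (one_mem ρ hG.pn q (hBpos n) n)
  · intro t ht
    obtain ⟨n, -, hn⟩ := hsmall t ht 0
    filter_upwards [hBF n] with x hx c
    exact ⟨(hx.1 c).1.trans (by linarith), (hx.1 c).2.trans (by linarith)⟩
  · intro t ht c
    -- approximate `c`
    have hopen : IsOpen {g : H | ρ (c * g⁻¹) < t / 4} :=
      isOpen_lt (hG.cont.comp (continuous_const.mul continuous_inv)) continuous_const
    obtain ⟨j, hj⟩ := hqd.exists_mem_open hopen ⟨c, by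
      show ρ (c * c⁻¹) < t / 4
      rw [mul_inv_cancel, hG.pn.one]
      positivity⟩
    have hj' : ρ (c * (q j)⁻¹) < t / 4 := hj
    obtain ⟨n, hjn, hn⟩ := hsmall (t / 4) (by positivity) j
    filter_upwards [hBF n] with x hx
    have w1 : ρ ((c * (q j)⁻¹)⁻¹) < t / 4 := by rw [hG.pn.inv]; exact hj'
    constructor
    · have e : x * c * x⁻¹ * c⁻¹ = (x * (c * (q j)⁻¹) * x⁻¹) *
          ((x * q j * x⁻¹ * (q j)⁻¹) * (c * (q j)⁻¹)⁻¹) := by group
      rw [e]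
      have a1 := hG.pn.mul (x * (c * (q j)⁻¹) * x⁻¹)
        ((x * q j * x⁻¹ * (q j)⁻¹) * (c * (q j)⁻¹)⁻¹)
      have a2 := hG.pn.mul (x * q j * x⁻¹ * (q j)⁻¹) ((c * (q j)⁻¹)⁻¹)
      have a3 := (hx.1 (c * (q j)⁻¹)).1
      have a4 := (hx.2 j hjn).1
      linarith
    · have e : x⁻¹ * c * x * c⁻¹ = (x⁻¹ * (c * (q j)⁻¹) * x) *
          ((x⁻¹ * q j * x * (q j)⁻¹) * (c * (q j)⁻¹)⁻¹) := by group
      rw [e]
      have a1 := hG.pn.mul (x⁻¹ * (c * (q j)⁻¹) * x)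
        ((x⁻¹ * q j * x * (q j)⁻¹) * (c * (q j)⁻¹)⁻¹)
      have a2 := hG.pn.mul (x⁻¹ * q j * x * (q j)⁻¹) ((c * (q j)⁻¹)⁻¹)
      have a3 := (hx.1 (c * (q j)⁻¹)).2
      have a4 := (hx.2 j hjn).2
      linarith
  · intro A hA
    obtain ⟨n, hn⟩ := (hmem A).1 hA
    obtain ⟨m, hm⟩ := hmul n
    filter_upwards [hBF m] with x hx
    filter_upwards [hBF m] with y hy
    exact hn (hm x hx y hy)
  · have hpow : ∀ k : ℕ, ∀ A ∈ F, ∀ᶠ x in F, x ^ k ∈ A := by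
      intro k
      induction k with
      | zero =>
        intro A hA
        obtain ⟨n, hn⟩ := (hmem A).1 hA
        refine Eventually.of_forall fun x => ?_
        rw [pow_zero]
        exact hn (one_mem ρ hG.pn q (hBpos n) n)
      | succ k ih =>
        intro A hA
        obtain ⟨n, hn⟩ := (hmem A).1 hA
        obtain ⟨m, hm⟩ := hmul n
        filter_upwards [ih (B m) (hBF m), hBF m] with x hx hx'
        rw [pow_succ]
        exact hn (hm _ hx _ hx')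
    intro c A hA
    obtain ⟨n, hn⟩ := (hmem A).1 hA
    obtain ⟨k, rfl | rfl⟩ := c.eq_nat_or_neg
    · filter_upwards [hpow k A hA] with x hx
      rw [zpow_natCast]
      exact hx
    · filter_upwards [hpow k (B n) (hBF n)] with x hx
      rw [zpow_neg, zpow_natCast]
      exact hn (inv_mem ρ q hx)
  · rw [hF]
    infer_instance
  · intro p hp
    rw [hF, le_iInf_iff]
    intro n
    rw [le_principal_iff]
    have h1 := hp.inv _ (hBpos n)
    have h2 : ∀ᶠ x in (p : Filter H), ∀ j ∈ Finset.range (n + 1),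
        ρ (x * q j * x⁻¹ * (q j)⁻¹) < 1 / ((n : ℝ) + 1) ∧
          ρ (x⁻¹ * q j * x * (q j)⁻¹) < 1 / ((n : ℝ) + 1) := by
      rw [Filter.eventually_all_finset]
      intro j _
      exact hp.com _ (hBpos n) (q j)
    filter_upwards [h1, h2] with x hx hx2
    exact ⟨hx, fun j hj => hx2 j (Finset.mem_range.2 (by omega))⟩

end Pool.Agent.H19M
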