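import Pool.Agent.H19M.Stm2
import Pool.Agent.Helper472.Lat_PW

/-!
# Project H19M, piece CHI: characters separate the points of a compact abelian group
-/

set_option autoImplicit false

open Filter Topology Matrix

namespace Pool.Agent.H19M

namespace CHI

/-- a power of a number of absolute value one is far from one -/
theorem exists_pow {μ : ℂ} (h1 : ‖μ‖ = 1) (h2 : μ ≠ 1) : ∃ n : ℕ, 1 ≤ ‖μ ^ n - 1‖ := by
  by_contra hcon
  push Not at hcon
  have key : ∀ w : ℂ, ‖w‖ = 1 → ‖w - 1‖ < 1 → 3 * ‖w - 1‖ ^ 2 ≤ ‖w ^ 2 - 1‖ ^ 2 := by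
    intro w hw hlt
    have e1 : w ^ 2 - 1 = (w - 1) * (w + 1) := by ring
    rw [e1, norm_mul, mul_pow]
    have e2 : ‖w + 1‖ ^ 2 + ‖w - 1‖ ^ 2 = 4 := by
      have e3 : ‖w‖ ^ 2 = 1 := by rw [hw, one_pow]
      rw [← Complex.normSq_eq_norm_sq] at e3 ⊢
      rw [← Complex.normSq_eq_norm_sq]
      rw [Complex.normSq_apply] at e3 ⊢
      rw [Complex.normSq_apply]
      simp only [Complex.add_re, Complex.sub_re, Complex.one_re, Complex.add_im, Complex.sub_im, Complex.one_im]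
      nlinarith
    have e4 : ‖w - 1‖ ^ 2 < 1 := by
      have := norm_nonneg (w - 1)
      nlinarith
    have e5 : (3 : ℝ) ≤ ‖w + 1‖ ^ 2 := by linarith
    nlinarith [sq_nonneg ‖w - 1‖]
  have ind : ∀ k : ℕ, 3 ^ k * ‖μ - 1‖ ^ 2 ≤ ‖μ ^ (2 ^ k) - 1‖ ^ 2 := by
    intro k
    induction k with
    | zero => simp
    | succ k ih =>
      have e1 := key (μ ^ (2 ^ k)) (by rw [norm_pow, h1, one_pow]) (hcon _)
      have e2 : μ ^ (2 ^ (k + 1)) = (μ ^ (2 ^ k)) ^ 2 := by rw [← pow_mul, ← pow_succ]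
      rw [e2, pow_succ]
      linarith
  have h3 : 0 < ‖μ - 1‖ ^ 2 := by
    have : 0 < ‖μ - 1‖ := norm_pos_iff.2 (sub_ne_zero.2 h2)
    positivity
  obtain ⟨k, hk⟩ := pow_unbounded_of_one_lt (1 / ‖μ - 1‖ ^ 2) (show (1 : ℝ) < 3 by norm_num)
  rw [div_lt_iff₀ h3] at hk
  have h4 := hcon (2 ^ k)
  have h5 := ind k
  have h6 : ‖μ ^ (2 ^ k) - 1‖ ^ 2 < 1 := by
    have := norm_nonneg (μ ^ (2 ^ k) - 1)
    nlinarith
  linarith

variable {ι : Type} [Fintype ι] [DecidableEq ι]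

open scoped ComplexOrder in
theorem dot_zero {v : ι → ℂ} (h : star v ⬝ᵥ v = 0) : v = 0 := dotProduct_star_self_eq_zero.1 h

/-- a vector fixed by a unitary matrix and in the range of `U - 1` is zero -/
theorem fixed_zero {U : Matrix ι ι ℂ} (hU : star U * U = 1) {u w : ι → ℂ} (hw : w = U *ᵥ u - u) (hf : U *ᵥ w = w) :
    w = 0 := by
  have h1 : (star U) *ᵥ w = w := by
    conv_lhs => rw [← hf]
    rw [Matrix.mulVec_mulVec, hU, Matrix.one_mulVec]
  have h2 : star w ⬝ᵥ w = 0 := by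
    have e : star w = star (U *ᵥ u) - star u := by rw [← star_sub, ← hw]
    rw [e, sub_dotProduct, Matrix.star_mulVec, ← Matrix.dotProduct_mulVec, ← Matrix.star_eq_conjTranspose, h1,
      sub_self]
  exact dot_zero h2

end CHI

open CHI in
theorem t_CHI : S_CHI := by
  intro N _ _ _ _ _ z hz
  obtain ⟨ι, _, _, ρ, hρ, hρz⟩ := Pool.LatH472.PW N z hz
  -- the operators
  obtain ⟨T, hT⟩ : ∃ T : N → Module.End ℂ (ι → ℂ), T = fun x => Matrix.toLin' (ρ x : Matrix ι ι ℂ) := ⟨_, rfl⟩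
  have hTa : ∀ x v, T x v = (ρ x : Matrix ι ι ℂ) *ᵥ v := fun x v => by
    rw [hT]
    exact Matrix.toLin'_apply _ _
  have hTm : ∀ x y v, T (x * y) v = T x (T y v) := by
    intro x y v
    rw [hTa, hTa, hTa, Matrix.mulVec_mulVec, map_mul]
    rfl
  have hTc : ∀ x y v, T x (T y v) = T y (T x v) := by
    intro x y v
    rw [← hTm, ← hTm, mul_comm]
  have hU : ∀ x, star (ρ x : Matrix ι ι ℂ) * (ρ x : Matrix ι ι ℂ) = 1 := fun x =>
    Matrix.mem_unitaryGroup_iff'.1 (ρ x).2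
  -- invariant subspaces
  obtain ⟨Inv, hInv⟩ : ∃ Inv : Submodule ℂ (ι → ℂ) → Prop,
      Inv = fun W => W ≠ ⊥ ∧ (∀ x, ∀ v ∈ W, T x v ∈ W) ∧ ∀ v ∈ W, ∃ u, v = T z u - u := ⟨_, rfl⟩
  have hex : ∃ n : ℕ, ∃ W : Submodule ℂ (ι → ℂ), Inv W ∧ Module.finrank ℂ W = n := by
    refine ⟨_, LinearMap.range (T z - 1), ?_, rfl⟩
    rw [hInv]
    refine ⟨?_, ?_, ?_⟩
    · intro h
      apply hρz
      rw [LinearMap.range_eq_bot, sub_eq_zero] at h
      apply Subtype.ext
      have h1 : Matrix.toLin' (ρ z : Matrix ι ι ℂ) = Matrix.toLin' (1 : Matrix ι ι ℂ) := by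
        rw [Matrix.toLin'_one]
        rw [hT] at h
        exact h
      exact Matrix.toLin'.injective h1
    · rintro x _ ⟨u, rfl⟩
      refine ⟨T x u, ?_⟩
      rw [LinearMap.sub_apply, LinearMap.sub_apply, map_sub, hTc]
      rfl
    · rintro _ ⟨u, rfl⟩
      exact ⟨u, rfl⟩
  classical
  obtain ⟨W, hW, hWn⟩ := Nat.find_spec hex
  have hmin : ∀ W' : Submodule ℂ (ι → ℂ), Inv W' → W' ≤ W → W' = W := by
    intro W' hW' hle
    apply Submodule.eq_of_le_of_finrank_le hle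
    rw [hWn]
    exact Nat.find_min' hex ⟨W', hW', rfl⟩
  rw [hInv] at hW
  obtain ⟨hW0, hWi, hWr⟩ := hW
  -- all operators are scalar on `W`
  have hsc : ∀ x, ∃ c : ℂ, ∀ v ∈ W, T x v = c • v := by
    intro x
    have : Nontrivial W := Submodule.nontrivial_iff_ne_bot.2 hW0
    obtain ⟨c, hc⟩ := Module.End.exists_eigenvalue ((T x).restrict (hWi x))
    obtain ⟨w, hw⟩ := hc.exists_hasEigenvector
    refine ⟨c, ?_⟩
    have h1 : (W ⊓ Module.End.eigenspace (T x) c) = W := by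
      apply hmin _ _ inf_le_left
      rw [hInv]
      refine ⟨?_, ?_, ?_⟩
      · intro h
        have h2 : (w : ι → ℂ) ∈ W ⊓ Module.End.eigenspace (T x) c := by
          refine ⟨w.2, Module.End.mem_eigenspace_iff.2 ?_⟩
          have h3 := hw.apply_eq_smul
          exact congrArg Subtype.val h3
        rw [h, Submodule.mem_bot] at h2
        exact hw.2 (Subtype.ext h2)
      · rintro y v ⟨hv1, hv2⟩
        refine ⟨hWi y v hv1, ?_⟩
        have hv3 : T x v = c • v := Module.End.mem_eigenspace_iff.1 hv2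
        apply Module.End.mem_eigenspace_iff.2
        rw [hTc, hv3, map_smul]
      · rintro v ⟨hv1, _⟩
        exact hWr v hv1
    intro v hv
    rw [← h1] at hv
    exact Module.End.mem_eigenspace_iff.1 hv.2
  choose c hc using hsc
  obtain ⟨v, hvW, hv0⟩ := Submodule.exists_mem_ne_zero_of_ne_bot hW0
  obtain ⟨i, hi⟩ : ∃ i, v i ≠ 0 := Function.ne_iff.1 hv0
  have hcv : ∀ x, T x v = c x • v := fun x => hc x v hvW
  have hinj : ∀ a b : ℂ, a • v = b • v → a = b := fun a b h => by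
    have h1 := congrFun h i
    rw [Pi.smul_apply, Pi.smul_apply, smul_eq_mul, smul_eq_mul] at h1
    exact mul_right_cancel₀ hi h1
  have hT1 : ∀ w, T 1 w = w := fun w => by
    rw [hTa, map_one]
    exact Matrix.one_mulVec w
  let χ : N →* ℂ :=
    { toFun := c
      map_one' := hinj _ _ (by rw [← hcv, hT1, one_smul])
      map_mul' := fun x y => hinj _ _ (by rw [← hcv, hTm, hcv, map_smul, hcv, smul_smul, mul_comm (c y)]) }
  have hχc : Continuous χ := by
    have h1 : ∀ x, χ x = ((ρ x : Matrix ι ι ℂ) *ᵥ v) i / v i := by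
      intro x
      have h2 := congrFun (hcv x) i
      rw [hTa, Pi.smul_apply, smul_eq_mul] at h2
      rw [h2, mul_div_cancel_right₀ _ hi]
      rfl
    have h3 : (χ : N → ℂ) = fun x => ((ρ x : Matrix ι ι ℂ) *ᵥ v) i / v i := funext h1
    rw [h3]
    have h4 : Continuous fun x => (ρ x : Matrix ι ι ℂ) := continuous_subtype_val.comp hρ
    have h5 : Continuous fun x => ((ρ x : Matrix ι ι ℂ) *ᵥ v) i := by
      have h6 := h4.matrix_mulVec (continuous_const (y := v))
      exact (continuous_apply i).comp h6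
    exact h5.div_const _
  have hχn : ∀ x, ‖χ x‖ = 1 := by
    intro x
    have h1 : star ((ρ x : Matrix ι ι ℂ) *ᵥ v) ⬝ᵥ ((ρ x : Matrix ι ι ℂ) *ᵥ v) = star v ⬝ᵥ v := by
      rw [Matrix.star_mulVec, ← Matrix.dotProduct_mulVec, Matrix.mulVec_mulVec, ← Matrix.star_eq_conjTranspose, hU,
        Matrix.one_mulVec]
    have h2 := hcv x
    rw [hTa] at h2
    rw [h2, star_smul, smul_dotProduct, dotProduct_smul, smul_smul] at h1
    have h3 : star v ⬝ᵥ v ≠ 0 := by
      intro h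
      exact hv0 (dot_zero h)
    have h4 : star (c x) * c x = 1 := by
      rw [smul_eq_mul] at h1
      exact mul_right_cancel₀ h3 (by rw [h1, one_mul])
    have h5 : ‖c x‖ * ‖c x‖ = 1 := by
      have h6 := congrArg norm h4
      rwa [norm_mul, norm_star, norm_one] at h6
    have h6 : ‖c x‖ = 1 := by
      have := norm_nonneg (c x)
      nlinarith
    exact h6
  have hχz : χ z ≠ 1 := by
    intro h
    have h1 : T z v = v := by
      have h2 : c z = 1 := h
      rw [hcv, h2, one_smul]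
    obtain ⟨u, hu⟩ := hWr v hvW
    rw [hTa] at hu h1
    exact hv0 (fixed_zero (hU z) hu h1)
  obtain ⟨n, hn⟩ := exists_pow (hχn z) hχz
  refine ⟨χ ^ n, ?_, ?_, ?_⟩
  · have h1 : ((χ ^ n : N →* ℂ) : N → ℂ) = fun x => χ x ^ n := by
      funext x
      rfl
    rw [h1]
    exact hχc.pow n
  · intro x
    show ‖χ x ^ n‖ = 1
    rw [norm_pow, hχn, one_pow]
  · exact hn

end Pool.Agent.H19M
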