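import Pool.Agent.H19M.Stm2

/-!
# Project H19M, piece CPT: compactness (helper81)

For every finite set `S` of exponents of `C` there is an ultrafilter `p S ≤ F` seeing all exponents of
`S`.  The limit of the `p S` along an ultrafilter finer than `atTop` on the finite sets sees all the
exponents of `C`.
-/

set_option autoImplicit false

open Filter Topology Pool.Agent.N709.UM

universe u

namespace Pool.Agent.H19M

theorem t_CPT : S_CPT.{u} := by
  intro H _ ρ F hF κ l C hC
  classical
  have h1 : ∀ S : Finset ℤ, ∃ p : Ultrafilter H, (p : Filter H) ≤ F ∧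
      ∀ c ∈ S.filter (· ∈ C), Vc ρ F p κ c l := fun S =>
    hC (S.filter (· ∈ C)) (fun c hc => (Finset.mem_filter.mp hc).2)
  choose p hp1 hp2 using h1
  have hU : ((Ultrafilter.of (atTop : Filter (Finset ℤ)) : Ultrafilter (Finset ℤ)) :
      Filter (Finset ℤ)) ≤ atTop := Ultrafilter.of_le _
  have key : ∀ A : Set H, (∀ᶠ S in (atTop : Filter (Finset ℤ)), A ∈ (p S : Filter H)) →
      A ∈ (((Ultrafilter.of (atTop : Filter (Finset ℤ))).bind p : Ultrafilter H) : Filter H) := by
    intro A hA
    exact hU hA
  refine ⟨(Ultrafilter.of (atTop : Filter (Finset ℤ))).bind p, ?_, ?_⟩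
  · intro A hA
    exact key A (Eventually.of_forall fun S => hp1 S hA)
  · intro c hc h
    refine key _ ?_
    filter_upwards [eventually_ge_atTop ({c} : Finset ℤ)] with S hS
    exact hp2 S c (Finset.mem_filter.mpr ⟨Finset.singleton_subset_iff.mp hS, hc⟩) h

end Pool.Agent.H19M
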