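import Pool.Agent.H19M.Stm2

set_option autoImplicit false

/-!
Project H19M (helper19): characters in all universes.
-/

open Filter Topology

universe u v

namespace Pool.Agent.H19M

theorem small_of_sc (X : Type u) [TopologicalSpace X] [T0Space X] [SecondCountableTopology X] :
    Small.{0} X := by
  classical
  obtain ⟨b, hbc, _, hb⟩ := TopologicalSpace.exists_countable_basis X
  haveI : Countable b := hbc.to_subtype
  obtain ⟨f, hf⟩ := exists_injective_nat b
  let g : X → Set ℕ := fun x => {n | ∃ s : b, f s = n ∧ x ∈ (s : Set X)}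
  have hg : Function.Injective g := by
    intro x y hxy
    apply Inseparable.eq
    rw [hb.inseparable_iff]
    intro s hs
    have h1 : ∀ z w : X, g z = g w → z ∈ s → w ∈ s := by
      intro z w hzw hz
      have h2 : f ⟨s, hs⟩ ∈ g z := ⟨⟨s, hs⟩, rfl, hz⟩
      rw [hzw] at h2
      obtain ⟨s', hs', hw⟩ := h2
      have h3 := hf hs'
      rw [h3] at hw
      exact hw
    exact ⟨h1 x y hxy, h1 y x hxy.symm⟩
  exact small_of_injective hg

/-- characters in all universes -/
def S_CHU : Prop := ∀ (N : Type u) [CommGroup N] [TopologicalSpace N] [IsTopologicalGroup N]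
  [CompactSpace N] [T2Space N] [SecondCountableTopology N] (z : N), z ≠ 1 →
  ∃ χ : N →* ℂ, Continuous χ ∧ (∀ x, ‖χ x‖ = 1) ∧ 1 ≤ ‖χ z - 1‖

theorem chu (h : S_CHI) : S_CHU.{u} := by
  intro N _ _ _ _ _ _ z hz
  haveI : Small.{0} N := small_of_sc N
  let e : Shrink.{0} N ≃* N := Shrink.mulEquiv
  letI tS : TopologicalSpace (Shrink.{0} N) := TopologicalSpace.induced e inferInstance
  have he : Topology.IsInducing e := ⟨rfl⟩
  let eh : Shrink.{0} N ≃ₜ N := e.toEquiv.toHomeomorphOfIsInducing he
  haveI : IsTopologicalGroup (Shrink.{0} N) := topologicalGroup_induced e.toMonoidHom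
  haveI : CompactSpace (Shrink.{0} N) := eh.symm.compactSpace
  haveI : T2Space (Shrink.{0} N) := eh.symm.t2Space
  obtain ⟨χ, h1, h2, h3⟩ := h (Shrink.{0} N) (e.symm z) (by
    intro hcon
    apply hz
    have := congrArg e hcon
    simpa using this)
  refine ⟨χ.comp e.symm.toMonoidHom, ?_, fun x => h2 _, h3⟩
  exact h1.comp eh.symm.continuous

end Pool.Agent.H19M
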