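import Pool.Agent.H19M.Stm2

/-!
# Project H19M, piece DIV (helper74)
-/

set_option autoImplicit false

open Filter Topology Pool.Agent.N709.UM

universe u

namespace Pool.Agent.H19M

theorem t_DIV : S_DIV.{u} := by
  classical
  intro H _ ρ F hF κ s c l h
  obtain ⟨E, hE⟩ := h
  refine ⟨E.image fun e => (e.1, s * e.2), ?_⟩
  filter_upwards [hE] with x hx
  obtain ⟨e, he, hb⟩ := hx
  refine ⟨(e.1, s * e.2), Finset.mem_image_of_mem _ he, ?_⟩
  intro hcon
  apply hb
  filter_upwards [hF.pow s _ hcon] with b hb1 hb2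
  apply hb1
  show ρ (e.1 * x ^ (c + κ * (s * e.2)) * (b ^ s) ^ κ) < l
  rw [← zpow_mul, mul_comm s κ, ← mul_assoc κ s]
  exact hb2

end Pool.Agent.H19M
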