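import Pool.Agent.H19M.Stm2

set_option autoImplicit false

/-!
Piece ERR of project H19M (helper45).
-/

open Filter Topology Pool.Agent.N709.UM

universe u v

namespace Pool.Agent.H19M

theorem err_conj {H : Type u} [Group H] (ρ : H → ℝ) (x : H) (t : ℝ)
    (h : ∀ c, ρ (x * c * x⁻¹) ≤ ρ c + t ∧ ρ (x⁻¹ * c * x) ≤ ρ c + t) :
    ∀ (k : ℕ) (c : H), ρ (x ^ k * c * (x ^ k)⁻¹) ≤ ρ c + k * t ∧ ρ ((x ^ k)⁻¹ * c * x ^ k) ≤ ρ c + k * t := by
  intro k
  induction k with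
  | zero =>
    intro c
    simp
  | succ k ih =>
    intro c
    have e1 : x ^ (k + 1) * c * (x ^ (k + 1))⁻¹ = x * (x ^ k * c * (x ^ k)⁻¹) * x⁻¹ := by
      rw [pow_succ']
      group
    have e2 : (x ^ (k + 1))⁻¹ * c * x ^ (k + 1) = (x ^ k)⁻¹ * (x⁻¹ * c * x) * x ^ k := by
      rw [pow_succ']
      group
    rw [e1, e2]
    have a1 := (h (x ^ k * c * (x ^ k)⁻¹)).1
    have a2 := (ih c).1
    have a3 := (ih (x⁻¹ * c * x)).2
    have a4 := (h c).2
    push_cast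
    constructor <;> linarith

theorem err_zconj {H : Type u} [Group H] (ρ : H → ℝ) (x : H) (t : ℝ) (ht : 0 ≤ t)
    (h : ∀ c, ρ (x * c * x⁻¹) ≤ ρ c + t ∧ ρ (x⁻¹ * c * x) ≤ ρ c + t) (n : ℕ) (e : ℤ) (he : e.natAbs ≤ n) (c : H) :
    ρ (x ^ e * c * (x ^ e)⁻¹) ≤ ρ c + n * t := by
  have hk : ((e.natAbs : ℕ) : ℝ) * t ≤ n * t := mul_le_mul_of_nonneg_right (by exact_mod_cast he) ht
  rcases Int.natAbs_eq e with h1 | h1
  · have h2 : x ^ e = x ^ e.natAbs := by
      conv_lhs => rw [h1]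
      exact zpow_natCast _ _
    rw [h2]
    have := (err_conj ρ x t h e.natAbs c).1
    linarith
  · have h2 : x ^ e = (x ^ e.natAbs)⁻¹ := by
      conv_lhs => rw [h1]
      rw [zpow_neg, zpow_natCast]
    rw [h2, inv_inv]
    have := (err_conj ρ x t h e.natAbs c).2
    linarith

theorem err_tp {H : Type u} [Group H] (v : ℕ → H) (n l : ℕ) (c : ℕ → ℤ) :
    tp v n (l + 1) c = v n ^ c n * tp v (n + 1) l c := by
  unfold tp
  rw [List.range_succ_eq_map, List.map_cons, List.prod_cons, List.map_map]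
  have e : ((fun i => v (n + i) ^ c (n + i)) ∘ Nat.succ) = fun i => v (n + 1 + i) ^ c (n + 1 + i) := by
    funext i
    simp only [Function.comp_apply, Nat.succ_eq_add_one]
    rw [show n + (i + 1) = n + 1 + i by omega]
  rw [e, add_zero]

theorem t_ERR : S_ERR.{u} := by
  intro H _ ρ hρ F κ l q t v hS ht0 ht m n j d hmn hd hdκ
  induction j generalizing n with
  | zero =>
    have e : tp v n 0 d ^ κ m * (tp v n 0 (fun i => d i * κ m))⁻¹ = 1 := by
      unfold tp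
      simp
    rw [e, hρ.one]
    positivity
  | succ j ih =>
    rw [err_tp, err_tp]
    set T := tp v (n + 1) j d with hT
    set T' := tp v (n + 1) j (fun i => d i * κ m) with hT'
    have e : (v n ^ d n * T) ^ κ m * (v n ^ (d n * κ m) * T')⁻¹ =
        ((v n ^ d n * T) ^ κ m * (v n ^ (d n * κ m) * T ^ κ m)⁻¹) *
          (v n ^ (d n * κ m) * (T ^ κ m * T'⁻¹) * (v n ^ (d n * κ m))⁻¹) := by
      generalize (v n ^ d n * T) ^ κ m = A
      generalize v n ^ (d n * κ m) = B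
      generalize T ^ κ m = C
      group
    rw [e]
    have h1 := hS.pwr n m (d n) j d hmn (hd n) hd
    have h2 := err_zconj ρ (v n) (t n) (ht0 n) (hS.inv n) n (d n * κ m) (hdκ n) (T ^ κ m * T'⁻¹)
    have h3 := ih (n + 1) (by omega)
    have h4 := hρ.mul ((v n ^ d n * T) ^ κ m * (v n ^ (d n * κ m) * T ^ κ m)⁻¹)
      (v n ^ (d n * κ m) * (T ^ κ m * T'⁻¹) * (v n ^ (d n * κ m))⁻¹)
    have h5 := ht n
    rw [pow_succ] at h3
    have h6 : (0 : ℝ) ≤ (1 / 4 : ℝ) ^ n := by positivity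
    nlinarith

end Pool.Agent.H19M
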