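import Pool.Agent.H19M.Stm2

set_option autoImplicit false

/-!
Project H19M (helper19), piece NC2 (helper4): compactness of the group of limits of powers.
-/

open Filter Topology Pool.Agent.N709.UM

universe u

namespace Pool.Agent.H19M

theorem t_NC2 : S_NC2.{u} := by
  intro H _ _ _ _ hRC ρ hG F _ κ hI N hN hcl hcen
  rw [isCompact_iff_ultrafilter_le_nhds]
  intro p hp
  have hNp : (N : Set H) ∈ p := le_principal_iff.1 hp
  have hlim : ∃ z : H, (p : Filter H) ≤ 𝓝 z := by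
    refine hRC p inferInstance ?_
    intro U hU
    obtain ⟨r, hr, hrU⟩ := hG.gen U hU
    obtain ⟨m, E, hE⟩ := hI (r / 4) (by linarith)
    have hcov : ∀ z ∈ N, ∃ e ∈ E, ρ (e.1 * z) < r / 2 := by
      intro z hz
      have hz' : z ∈ Ns ρ F κ := by
        rw [← hN]
        exact hz
      obtain ⟨b, hb1, e, he, hb2⟩ := ((hz' m (r / 4) (by linarith)).and_eventually hE).exists
      obtain ⟨b', hb3⟩ := hb2.exists
      rw [zero_mul, add_zero, zpow_zero, mul_one] at hb3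
      refine ⟨e, he, ?_⟩
      have h1 : e.1 * z = (e.1 * b ^ κ m) * (z⁻¹ * b ^ κ m)⁻¹ := by group
      rw [h1]
      have h2 := hG.pn.mul (e.1 * b ^ κ m) (z⁻¹ * b ^ κ m)⁻¹
      rw [hG.pn.inv] at h2
      linarith
    have hU1 : (⋃ e ∈ (E : Set (H × ℤ)), {z : H | ρ (e.1 * z) < r / 2}) ∈ p := by
      refine Filter.mem_of_superset hNp ?_
      intro z hz
      obtain ⟨e, he, h1⟩ := hcov z hz
      exact Set.mem_biUnion (by exact_mod_cast he) h1
    obtain ⟨e, _, he⟩ := (Ultrafilter.finite_biUnion_mem_iff E.finite_toSet).1 hU1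
    refine ⟨{z : H | ρ (e.1 * z) < r / 2} ∩ N, inter_mem he hNp, ?_⟩
    rintro x ⟨hx, hxN⟩ y ⟨hy, hyN⟩
    have h1 : ρ (x⁻¹ * y) < r := by
      have h2 : x⁻¹ * y = (e.1 * x)⁻¹ * (e.1 * y) := by group
      rw [h2]
      have h3 := hG.pn.mul (e.1 * x)⁻¹ (e.1 * y)
      rw [hG.pn.inv] at h3
      have hx' : ρ (e.1 * x) < r / 2 := hx
      have hy' : ρ (e.1 * y) < r / 2 := hy
      linarith
    have h4 : y * x⁻¹ = x⁻¹ * y := (hcen x⁻¹ (N.inv_mem hxN) y).symm
    rw [h4]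
    exact ⟨hrU _ h1, hrU _ h1⟩
  obtain ⟨z, hz⟩ := hlim
  exact ⟨z, isClosed_iff_ultrafilter.1 hcl z p hz hNp, hz⟩

end Pool.Agent.H19M
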