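import Pool.Agent.H19M.Main
import Pool.Agent.H19M.NC2
import Pool.Agent.N709.UM.Prod2

set_option autoImplicit false

/-!
Project H19M (helper19): the class of the good factors is closed under products and under minimal
extensions of compact normal subgroups.
-/

open Filter Topology Pool.Agent.N709.UM Pool.Agent.N225.UM2PRA

universe u v w

namespace Pool.Agent.H19M.Ext

/-- convergence of the components in `K` of the ultrafilters which converge to `1` in a coarser
topology -/
def Cv (K : Type u) [Group K] [TopologicalSpace K] : Prop :=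
  ∀ (P' P : Type w) [Group P'] [TopologicalSpace P'] [IsTopologicalGroup P']
    [Group P] [TopologicalSpace P] [IsTopologicalGroup P] [T2Space P]
    (π : P' →* P) (φ : K →* P) (θ : P' →* K), Continuous π → Function.Surjective π →
    Continuous φ → Function.Injective φ →
    (∀ x c, φ (θ x * c * (θ x)⁻¹) = π x * φ c * (π x)⁻¹) →
    ∀ W : Ultrafilter P', (W : Filter P') ≤ 𝓝 1 → ∃ z : K, (W.map θ : Filter K) ≤ 𝓝 z

/-- an injective continuous homomorphism of a minimal group is an embedding -/
theorem emb {K : Type u} [Group K] [TopologicalSpace K] (hM : Pool.Agent.N709.UM.Min K)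
    {P : Type w} [Group P] [TopologicalSpace P] [IsTopologicalGroup P] [T2Space P]
    (φ : K →* P) (hφ : Continuous φ) (hi : Function.Injective φ) (U : Set K)
    (hU : U ∈ 𝓝 (1 : K)) : ∃ V ∈ 𝓝 (1 : P), ∀ g : K, φ g ∈ V → g ∈ U := by
  have hg : @IsTopologicalGroup K (TopologicalSpace.induced φ inferInstance) _ :=
    topologicalGroup_induced φ
  have ht : @T2Space K (TopologicalSpace.induced φ inferInstance) := by
    let _ : TopologicalSpace K := TopologicalSpace.induced φ inferInstance
    exact T2Space.of_injective_continuous hi continuous_induced_dom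
  have heq := hM (TopologicalSpace.induced φ inferInstance) hg ht
    (continuous_iff_le_induced.1 hφ)
  have h1 : 𝓝 (1 : K) = comap φ (𝓝 (1 : P)) := by
    rw [← heq, nhds_induced, map_one]
  rw [h1] at hU
  obtain ⟨V, hV, hVU⟩ := hU
  exact ⟨V, hV, fun g hg => hVU hg⟩

/-- Polish type factors -/
theorem cv_star {K : Type u} [Group K] [TopologicalSpace K] [IsTopologicalGroup K]
    (hM : Pool.Agent.N709.UM.Min K) (hS : Star' K) : Cv.{u, w} K := by
  intro P' P _ _ _ _ _ _ _ π φ θ hπ hπs hφ hi hrel W hW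
  obtain ⟨hfc, hS⟩ := hS
  obtain ⟨U, hU⟩ := (𝓝 (1 : K)).exists_antitone_basis
  have h1 : ∀ n, ∃ V ∈ 𝓝 (1 : P), ∀ g : K, φ g ∈ V → g ∈ U n := fun n =>
    emb hM φ hφ hi (U n) (hU.1.mem_of_mem trivial)
  choose V hV hVU using h1
  have h2 : ∀ n, ∃ N : P → ℝ, PN N ∧ Continuous N ∧ (∀ g, N g ≤ 1) ∧ ∀ g, N g < 1 → g ∈ V n :=
    fun n => Pool.Agent.N136.UM2.bkp P (V n) (hV n)
  choose N hN hNc hN1 hNV using h2
  have hT : PN (tot N) := tot_pn hN hN1
  have hTc : Continuous (tot N) := tot_cont hN hN1 hNc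
  have key : ∀ (x : P') (c : K), φ (θ x * c * (θ x)⁻¹) = π x * φ c * (π x)⁻¹ := hrel
  have key' : ∀ (x : P') (c : K), φ ((θ x)⁻¹ * c * θ x) = (π x)⁻¹ * φ c * π x := by
    intro x c
    have := key x⁻¹ c
    rwa [map_inv, map_inv, inv_inv, inv_inv] at this
  apply hS (fun g => tot N (φ g)) ⟨PN.comp hT φ, hTc.comp hφ, fun W hW => ?_⟩ (W.map θ)
    ⟨fun t ht => ?_, fun t ht c => ?_⟩
  · obtain ⟨n, -, hn⟩ := hU.1.mem_iff.1 hW
    exact ⟨(1 / 2 : ℝ) ^ (n + 1), by positivity, fun g hg =>
      hn (hVU n g (hNV n _ (tot_lt hN hN1 hg)))⟩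
  · rw [Ultrafilter.mem_map]
    have h3 : ∀ᶠ x in 𝓝 (1 : P'), tot N (π x) < t / 2 :=
      ((hTc.comp hπ).tendsto 1).eventually_lt_const (by
        simp only [Function.comp, map_one]; rw [hT.one]; linarith)
    filter_upwards [hW h3] with x hx c
    have hx' : tot N (π x) < t / 2 := hx
    rw [key, key']
    have h4 := hT.mul (π x * φ c) (π x)⁻¹
    have h5 := hT.mul (π x) (φ c)
    have h6 := hT.mul ((π x)⁻¹ * φ c) (π x)
    have h7 := hT.mul (π x)⁻¹ (φ c)
    have h8 := hT.inv (π x)
    exact ⟨by linarith, by linarith⟩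
  · rw [Ultrafilter.mem_map]
    have h3 : ∀ᶠ x in 𝓝 (1 : P'), tot N (π x * φ c * (π x)⁻¹ * (φ c)⁻¹) < t := by
      have hc : Continuous fun x : P' => tot N (π x * φ c * (π x)⁻¹ * (φ c)⁻¹) :=
        hTc.comp (((hπ.mul continuous_const).mul hπ.inv).mul continuous_const)
      refine (hc.tendsto 1).eventually_lt_const ?_
      rw [map_one, one_mul, inv_one, mul_one, mul_inv_cancel, hT.one]
      exact ht
    have h4 : ∀ᶠ x in 𝓝 (1 : P'), tot N ((π x)⁻¹ * φ c * π x * (φ c)⁻¹) < t := by
      have hc : Continuous fun x : P' => tot N ((π x)⁻¹ * φ c * π x * (φ c)⁻¹) :=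
        hTc.comp (((hπ.inv.mul continuous_const).mul hπ).mul continuous_const)
      refine (hc.tendsto 1).eventually_lt_const ?_
      rw [map_one, inv_one, one_mul, mul_one, mul_inv_cancel, hT.one]
      exact ht
    filter_upwards [hW h3, hW h4] with x hx hx'
    have e1 : φ (θ x * c * (θ x)⁻¹ * c⁻¹) = π x * φ c * (π x)⁻¹ * (φ c)⁻¹ := by
      rw [map_mul, key, map_inv]
    have e2 : φ ((θ x)⁻¹ * c * θ x * c⁻¹) = (π x)⁻¹ * φ c * π x * (φ c)⁻¹ := by
      rw [map_mul, key', map_inv]
    exact ⟨by rw [e1]; exact hx, by rw [e2]; exact hx'⟩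

/-- extensions of compact normal subgroups -/
theorem cv_ext {K : Type u} [Group K] [TopologicalSpace K] [IsTopologicalGroup K]
    (C : Subgroup K) [C.Normal] (hC : IsCompact (C : Set K)) (hQ : Cv.{u, w} (K ⧸ C)) :
    Cv.{u, w} K := by
  intro P' P _ _ _ _ _ _ _ π φ θ hπ hπs hφ hi hrel W hW
  let D : Subgroup P := C.map φ
  have hDn : D.Normal := by
    refine ⟨?_⟩
    rintro _ ⟨c, hc, rfl⟩ g
    obtain ⟨x, rfl⟩ := hπs g
    exact ⟨θ x * c * (θ x)⁻¹, Subgroup.Normal.conj_mem inferInstance c hc (θ x), hrel x c⟩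
  have hDc : IsClosed (D : Set P) := by
    have : (D : Set P) = φ '' (C : Set K) := Subgroup.coe_map φ C
    rw [this]
    exact (hC.image hφ).isClosed
  have hT : T2Space (P ⧸ D) := inferInstance
  let φ₂ : K ⧸ C →* P ⧸ D := QuotientGroup.map C D φ (fun c hc => ⟨c, hc, rfl⟩)
  have hφ₂ : Continuous φ₂ := by
    rw [(QuotientGroup.isQuotientMap_mk C).continuous_iff]
    have h2 : (⇑φ₂ ∘ (QuotientGroup.mk : K → K ⧸ C)) = fun g : K => ((φ g : P) : P ⧸ D) := rfl
    rw [h2]
    exact continuous_quotient_mk'.comp hφ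
  have hi₂ : Function.Injective φ₂ := by
    rw [injective_iff_map_eq_one]
    intro a ha
    obtain ⟨k, rfl⟩ := QuotientGroup.mk_surjective a
    have h3 : ((φ k : P) : P ⧸ D) = 1 := ha
    rw [QuotientGroup.eq_one_iff] at h3
    obtain ⟨c, hc, hck⟩ := h3
    rw [QuotientGroup.eq_one_iff, ← hi hck]
    exact hc
  obtain ⟨z, hz⟩ := hQ P' (P ⧸ D) ((QuotientGroup.mk' D).comp π) φ₂
    ((QuotientGroup.mk' C).comp θ) (continuous_quotient_mk'.comp hπ)
    ((QuotientGroup.mk'_surjective D).comp hπs) hφ₂ hi₂ (by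
      intro x a
      obtain ⟨k, rfl⟩ := QuotientGroup.mk_surjective a
      exact congrArg (QuotientGroup.mk' D) (hrel x k)) W hW
  refine conv_of_quot C hC (W.map θ) z ?_
  exact hz

/-- factors with compact centre and minimal central quotient -/
theorem cv_centre {K : Type u} [Group K] [TopologicalSpace K] [IsTopologicalGroup K]
    (hC : IsCompact (Subgroup.center K : Set K))
    (hq : Pool.Agent.N709.UM.Min (K ⧸ Subgroup.center K)) : Cv.{u, w} K := by
  intro P' P _ _ _ _ _ _ _ π φ θ hπ hπs hφ hi hrel W hW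
  let Z := Subgroup.center K
  let q : P' →* K ⧸ Z := (QuotientGroup.mk' Z).comp θ
  have hqx : ∀ x, q x = ((θ x : K) : K ⧸ Z) := fun x => rfl
  have hmem : ∀ x, (∀ c, π x * φ c = φ c * π x) → θ x ∈ Z := by
    intro x hx
    rw [Subgroup.mem_center_iff]
    intro c
    apply hi
    have h1 := hrel x c
    rw [hx c, mul_assoc (φ c), mul_inv_cancel, mul_one] at h1
    have h2 := hi h1
    rw [← mul_inv_eq_iff_eq_mul.1 h2]
  have hker : π.ker ≤ q.ker := by
    intro x hx
    rw [MonoidHom.mem_ker] at hx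
    rw [MonoidHom.mem_ker, hqx, QuotientGroup.eq_one_iff]
    apply hmem
    intro c
    rw [hx, one_mul, mul_one]
  let q' : P →* K ⧸ Z := (π.liftOfSurjective hπs) ⟨q, hker⟩
  have hq' : ∀ x, q' (π x) = q x := fun x =>
    MonoidHom.liftOfRightInverse_comp_apply π _ (Function.rightInverse_surjInv hπs) ⟨q, hker⟩ x
  have hq'φ : ∀ k, q' (φ k) = (k : K ⧸ Z) := by
    intro k
    obtain ⟨x, hx⟩ := hπs (φ k)
    rw [← hx, hq', hqx, eq_comm, QuotientGroup.eq, Subgroup.mem_center_iff]
    intro c
    apply hi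
    have h1 := hrel x c
    rw [hx] at h1
    have h2 : θ x * c * (θ x)⁻¹ = k * c * k⁻¹ := by
      apply hi
      rw [h1, map_mul, map_mul, map_inv]
    have h3 : k⁻¹ * θ x * c = c * (k⁻¹ * θ x) := by
      have h4 : θ x * c = k * c * k⁻¹ * θ x := by
        rw [← h2]
        group
      rw [mul_assoc, h4]
      group
    rw [h3]
  have hqs : Function.Surjective q' := by
    intro y
    obtain ⟨a, rfl⟩ := QuotientGroup.mk_surjective y
    exact ⟨φ a, hq'φ a⟩
  have hkerc : (q'.ker : Set P) = ⋂ g : K, {x : P | φ g * x = x * φ g} := by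
    ext y
    obtain ⟨x, rfl⟩ := hπs y
    simp only [SetLike.mem_coe, MonoidHom.mem_ker, Set.mem_iInter, Set.mem_ofPred_eq]
    rw [hq', hqx, QuotientGroup.eq_one_iff]
    constructor
    · intro h g
      have h1 := hrel x g
      rw [Subgroup.mem_center_iff] at h
      rw [← h g, mul_assoc, mul_inv_cancel, mul_one] at h1
      nth_rewrite 1 [h1]
      group
    · intro h
      exact hmem x fun c => (h c).symm
  have hclosed : IsClosed (q'.ker : Set P) := by
    rw [hkerc]
    exact isClosed_iInter fun g => isClosed_eq (continuous_const.mul continuous_id)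
      (continuous_id.mul continuous_const)
  let E : (P ⧸ q'.ker) ≃* (K ⧸ Z) := QuotientGroup.quotientKerEquivOfSurjective q' hqs
  have hE : ∀ x : P, E (x : P ⧸ q'.ker) = q' x := fun x => rfl
  have hE' : ∀ x : P, E.symm (q' x) = (x : P ⧸ q'.ker) := fun x => by
    rw [← hE, MulEquiv.symm_apply_apply]
  have hT : @T2Space (P ⧸ q'.ker) _ := by
    have : IsClosed (q'.ker : Set P) := hclosed
    infer_instance
  have hg : @IsTopologicalGroup (K ⧸ Z) (TopologicalSpace.induced E.symm inferInstance) _ :=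
    topologicalGroup_induced E.symm
  have ht : @T2Space (K ⧸ Z) (TopologicalSpace.induced E.symm inferInstance) := by
    let _ : TopologicalSpace (K ⧸ Z) := TopologicalSpace.induced E.symm inferInstance
    exact T2Space.of_injective_continuous E.symm.injective continuous_induced_dom
  have hcE : Continuous (E.symm : K ⧸ Z → P ⧸ q'.ker) := by
    rw [(QuotientGroup.isQuotientMap_mk Z).continuous_iff]
    have h2 : (⇑E.symm ∘ (QuotientGroup.mk : K → K ⧸ Z)) =
        fun g : K => ((φ g : P) : P ⧸ q'.ker) := by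
      funext g
      rw [← hE', hq'φ]
      rfl
    rw [h2]
    exact continuous_quotient_mk'.comp hφ
  have heq := hq (TopologicalSpace.induced E.symm inferInstance) hg ht
    (continuous_iff_le_induced.1 hcE)
  have h3 : @Continuous P (K ⧸ Z) _ (TopologicalSpace.induced E.symm inferInstance) q' := by
    rw [continuous_induced_rng]
    have h4 : (⇑E.symm ∘ q') = fun x : P => (x : P ⧸ q'.ker) := funext hE'
    rw [h4]
    exact continuous_quotient_mk'
  rw [heq] at h3
  have h5 : Continuous fun x : P' => ((θ x : K) : K ⧸ Z) := by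
    have h6 : (fun x : P' => ((θ x : K) : K ⧸ Z)) = ⇑q' ∘ π := by
      funext x
      exact (hq' x).symm
    rw [h6]
    exact h3.comp hπ
  refine conv_of_quot Z hC (W.map θ) _ ((h5.tendsto 1).mono_left hW)

open Classical in
/-- products -/
theorem cv_prod {I : Type v} (K : I → Type u) [∀ i, Group (K i)] [∀ i, TopologicalSpace (K i)]
    (h : ∀ i, Cv.{u, w} (K i)) : Cv.{max u v, w} (∀ i, K i) := by
  intro P' P _ _ _ _ _ _ _ π φ θ hπ hπs hφ hi hrel W hW
  have h1 : ∀ j, ∃ z : K j, ((W.map ((Pi.evalMonoidHom K j).comp θ) : Ultrafilter (K j)) :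
      Filter (K j)) ≤ 𝓝 z := by
    intro j
    refine h j P' P π (φ.comp (MonoidHom.mulSingle K j)) ((Pi.evalMonoidHom K j).comp θ) hπ hπs
      (hφ.comp (continuous_mulSingle j)) (hi.comp (Pi.mulSingle_injective j)) ?_ W hW
    intro x c
    have h2 := Pool.Agent.N225.UM2PRA.conj_single j (θ x) c
    have h3 := hrel x (Pi.mulSingle j c)
    rw [← h2] at h3
    exact h3
  choose z hz using h1
  refine ⟨z, ?_⟩
  have h2 : Tendsto (fun x => θ x) (W : Filter P') (𝓝 z) := by
    rw [tendsto_pi_nhds]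
    intro j
    exact hz j
  exact h2

/-- the inverse is continuous -/
theorem core {I : Type v} (G : I → Type u) [∀ i, Group (G i)]
    [∀ i, TopologicalSpace (G i)] [∀ i, IsTopologicalGroup (G i)]
    (hS : ∀ i, Cv.{u, w} (G i)) (P' : Type w) [Group P'] [TopologicalSpace P']
    [IsTopologicalGroup P'] [T2Space P'] (e : (∀ i, G i) ≃* P') (he : Continuous e) :
    Continuous e.symm := by
  have hcont : Continuous e.symm.toMonoidHom := by
    apply continuous_of_continuousAt_one
    rw [ContinuousAt, map_one, Filter.tendsto_iff_ultrafilter]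
    intro W hW
    obtain ⟨z, hz⟩ := cv_prod.{u, v, w} G hS P' P' (MonoidHom.id P') e.toMonoidHom
      e.symm.toMonoidHom continuous_id Function.surjective_id he e.injective (by
        intro x c
        simp) W hW
    have h3 : Tendsto (fun x => e (e.symm x)) (W : Filter P') (𝓝 (e z)) :=
      (he.tendsto z).comp hz
    simp only [MulEquiv.apply_symm_apply] at h3
    have h4 : e z = 1 := tendsto_nhds_unique h3 hW
    have h5 : z = 1 := by
      apply e.injective
      rw [h4, map_one]
    rw [h5] at hz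
    exact hz
  exact hcont

/-- products of groups with `Cv` are minimal -/
theorem min_prod {I : Type v} (G : I → Type u) [∀ i, Group (G i)]
    [∀ i, TopologicalSpace (G i)] [∀ i, IsTopologicalGroup (G i)]
    (hS : ∀ i, Cv.{u, max u v} (G i)) : Pool.Agent.N709.UM.Min (∀ i, G i) := by
  intro s hs ht hle
  apply le_antisymm _ hle
  have h := @core I G _ _ _ hS (∀ i, G i) _ s hs ht (MulEquiv.refl _)
    (continuous_id_iff_le.2 hle)
  exact continuous_id_iff_le.1 h

end Pool.Agent.H19M.Ext
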