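import Pool.Agent.H19M.Stm

set_option autoImplicit false
set_option linter.unusedSectionVars false

/-!
# Project H19M, piece PWZ: integer powers of `a b` for deep `b` (helper69)
-/

open Filter Topology Pool.Agent.N709.UM

universe u

namespace Pool.Agent.H19M.PWZ

variable {H : Type u} [Group H] [TopologicalSpace H] [IsTopologicalGroup H] {ρ : H → ℝ}
  {F : Filter H}

theorem tendsto_one_iff {ι : Type*} {l : Filter ι} (hρ : Gen ρ) (f : ι → H) :
    Tendsto f l (𝓝 1) ↔ ∀ t : ℝ, 0 < t → ∀ᶠ x in l, ρ (f x) < t := by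
  constructor
  · intro h t ht
    have h1 : Tendsto (fun x => ρ (f x)) l (𝓝 (ρ 1)) := (hρ.cont.tendsto 1).comp h
    rw [hρ.pn.one] at h1
    exact h1.eventually_lt_const ht
  · intro h U hU
    obtain ⟨r, hr, hrU⟩ := hρ.gen U hU
    exact (h r hr).mono fun x hx => hrU _ hx

/-- powers of deep elements commute asymptotically with fixed elements -/
theorem com_pow (hρ : Gen ρ) (hF : Deep ρ F) (k : ℤ) (c : H) :
    Tendsto (fun x => x ^ k * c * (x ^ k)⁻¹ * c⁻¹) F (𝓝 1) := by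
  rw [tendsto_one_iff hρ]
  intro t ht
  exact hF.pow k _ ((hF.com t ht c).mono fun x hx => hx.1)

/-- conjugation of small elements by powers of deep elements -/
theorem conj_pow (hρ : Gen ρ) (hF : Deep ρ F) (k : ℤ) {f : H → H} (hf : Tendsto f F (𝓝 1)) :
    Tendsto (fun x => x ^ k * f x * (x ^ k)⁻¹) F (𝓝 1) := by
  rw [tendsto_one_iff hρ] at hf ⊢
  intro t ht
  have h1 : ∀ᶠ x in F, ∀ c, ρ (x ^ k * c * (x ^ k)⁻¹) ≤ ρ c + t / 2 :=
    hF.pow k {y | ∀ c, ρ (y * c * y⁻¹) ≤ ρ c + t / 2}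
      ((hF.inv (t / 2) (half_pos ht)).mono fun x hx c => (hx c).1)
  filter_upwards [h1, hf (t / 2) (half_pos ht)] with x hx hx2
  have := hx (f x)
  linarith

/-- conjugation by a fixed element -/
theorem conj_fix {f : H → H} (a : H) (hf : Tendsto f F (𝓝 1)) :
    Tendsto (fun x => a * f x * a⁻¹) F (𝓝 1) := by
  have : Tendsto (fun x => a * f x * a⁻¹) F (𝓝 (a * 1 * a⁻¹)) :=
    (hf.const_mul a).mul_const a⁻¹
  simpa using this

theorem pow_nat (hρ : Gen ρ) (hF : Deep ρ F) (a : H) (k : ℕ) :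
    Tendsto (fun b => (a * b) ^ (k : ℤ) * (a ^ (k : ℤ) * b ^ (k : ℤ))⁻¹) F (𝓝 1) := by
  induction k with
  | zero =>
    refine tendsto_const_nhds.congr fun b => ?_
    simp
  | succ k ih =>
    have h1 := conj_fix (a ^ (k : ℤ)) (com_pow hρ hF (k : ℤ) a)
    have h2 := ih.mul h1
    rw [mul_one] at h2
    refine h2.congr fun b => ?_
    push_cast
    simp only [zpow_add_one]
    group

theorem pow_int (hρ : Gen ρ) (hF : Deep ρ F) (a : H) (k : ℤ) :
    Tendsto (fun b => (a * b) ^ k * (a ^ k * b ^ k)⁻¹) F (𝓝 1) := by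
  obtain ⟨n, rfl | rfl⟩ := k.eq_nat_or_neg
  · exact pow_nat hρ hF a n
  · have h1 := (pow_nat hρ hF a n).inv
    rw [inv_one] at h1
    have h2 := conj_fix (a ^ (-(n : ℤ))) (conj_pow hρ hF (-(n : ℤ)) h1)
    have h3 := com_pow hρ hF (-(n : ℤ)) (a ^ (-(n : ℤ)))
    have h4 := h3.mul h2
    rw [mul_one] at h4
    refine h4.congr fun b => ?_
    simp only [zpow_neg]
    group

end Pool.Agent.H19M.PWZ

namespace Pool.Agent.H19M

open Pool.Agent.H19M.PWZ

theorem t_PWZ : S_PWZ.{u} := by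
  intro H _ _ _ ρ hρ F hF a k t ht
  have h1 := pow_int hρ hF a k
  have h2 : Tendsto (fun b => (b * a) ^ k * (a ^ k * b ^ k)⁻¹) F (𝓝 1) := by
    have h3 := conj_pow hρ hF 1 h1
    have h4 := com_pow hρ hF 1 (a ^ k)
    have h5 := h3.mul h4
    rw [mul_one] at h5
    refine h5.congr fun b => ?_
    have e : b * a = b * (a * b) * b⁻¹ := by group
    rw [e, conj_zpow, zpow_one]
    group
  exact ((tendsto_one_iff hρ _).1 h1 t ht).and ((tendsto_one_iff hρ _).1 h2 t ht)

end Pool.Agent.H19M
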