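import Pool.Agent.H19M.Stm2
import Pool.Agent.H19M.PWZ

set_option autoImplicit false
set_option linter.unusedSectionVars false

/-!
# Project H19M, piece FG2 (helper98)
-/

open Filter Topology Pool.Agent.N709.UM

universe u v

namespace Pool.Agent.H19M.FG2

open Pool.Agent.H19M.PWZ

/-- the ultrafilter of the quotients `x⁻¹ * y` -/
noncomputable def quo {H : Type u} [Group H] (p : Ultrafilter H) : Ultrafilter H :=
  Ultrafilter.bind p (fun x => Ultrafilter.map (fun y => x⁻¹ * y) p)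

theorem mem_quo {H : Type u} [Group H] (p : Ultrafilter H) (A : Set H) :
    A ∈ (quo p : Filter H) ↔ ∀ᶠ x in (p : Filter H), ∀ᶠ y in (p : Filter H), x⁻¹ * y ∈ A := by
  rfl

variable {H : Type u} [Group H] [TopologicalSpace H] [IsTopologicalGroup H] {ρ : H → ℝ}
  {F : Filter H}

theorem quo_mem (hF : Deep ρ F) {A : Set H} (hA : A ∈ F) :
    ∀ᶠ x in F, ∀ᶠ y in F, x⁻¹ * y ∈ A := by
  have h1 := hF.pow (-1) _ (hF.mul A hA)
  refine h1.mono fun x hx => ?_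
  have hx' : ∀ᶠ y in F, x ^ (-1 : ℤ) * y ∈ A := hx
  rw [zpow_neg_one] at hx'
  exact hx'

theorem quo_le (hF : Deep ρ F) {p : Ultrafilter H} (hp : (p : Filter H) ≤ F) :
    (quo p : Filter H) ≤ F := by
  intro A hA
  rw [mem_quo]
  exact ((quo_mem hF hA).filter_mono hp).mono fun x hx => hx.filter_mono hp

theorem apx_pow (hF : Deep ρ F) {N : Subgroup H} {κ : ℤ} {s : ℝ}
    (h : ∀ᶠ b in F, ∃ w : N, ρ ((w : H)⁻¹ * b ^ κ) < s) (c : ℤ) :
    {x : H | ∃ w : N, ρ ((w : H)⁻¹ * x ^ (c * κ)) < s} ∈ F := by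
  refine (hF.pow c _ h).mono fun x hx => ?_
  obtain ⟨w, hw⟩ := hx
  refine ⟨w, ?_⟩
  rw [zpow_mul]
  exact hw

theorem wc_mem (hρ : Gen ρ) (hF : Deep ρ F) {N : Subgroup H} (hN : ∀ z ∈ N, ∀ g, z * g = g * z)
    {χ : N →* ℂ} {κ : ℤ} {s : ℝ} (hC : Ch ρ F N χ κ s) {p : Ultrafilter H}
    (hp : (p : Filter H) ≤ F) (c : ℤ) : Wc ρ N χ κ s c ∈ (quo p : Filter H) := by
  classical
  have hpn := hρ.pn
  set m : ℤ := c * κ with hm
  set E : Set H := {x : H | ∃ w : N, ρ ((w : H)⁻¹ * x ^ m) < s} with hE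
  have hEF : E ∈ F := apx_pow hF hC.apx c
  let wf : H → N := fun x => if h : ∃ w : N, ρ ((w : H)⁻¹ * x ^ m) < s then h.choose else 1
  have hwf : ∀ x ∈ E, ρ ((wf x : H)⁻¹ * x ^ m) < s := by
    intro x hx
    have hx' : ∃ w : N, ρ ((w : H)⁻¹ * x ^ m) < s := hx
    simp only [wf, dif_pos hx']
    exact hx'.choose_spec
  obtain ⟨μ, _, hμ⟩ := (isCompact_closedBall (0 : ℂ) 1).ultrafilter_le_nhds
    (Ultrafilter.map (fun x => χ (wf x)) p) (by
      rw [le_principal_iff]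
      refine Filter.Eventually.of_forall (f := (p : Filter H)) fun x => ?_
      simp only [mem_closedBall_zero_iff]
      exact (hC.nrm (wf x)).le)
  have hμ' : ∀ᶠ x in (p : Filter H), ‖χ (wf x) - μ‖ < 1 / 40 := by
    have h1 : Metric.ball μ (1 / 40) ∈ (Ultrafilter.map (fun x => χ (wf x)) p : Filter ℂ) :=
      hμ (Metric.ball_mem_nhds μ (by norm_num))
    refine Filter.Eventually.mono (f := (p : Filter H)) h1 fun x hx => ?_
    rw [← dist_eq_norm]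
    exact hx
  rw [mem_quo]
  have hquo := ((quo_mem hF hEF).filter_mono hp).mono fun x hx => hx.filter_mono hp
  filter_upwards [hμ', hp hEF, hquo] with x hxμ hxE hxq
  have hpw : ∀ᶠ y in (p : Filter H), ρ ((x⁻¹ * y) ^ m * ((x⁻¹) ^ m * y ^ m)⁻¹) < s :=
    ((tendsto_one_iff hρ _).1 (pow_int hρ hF x⁻¹ m) s hC.pos).filter_mono hp
  filter_upwards [hμ', hp hEF, hxq, hpw] with y hyμ hyE hyq hyp
  obtain ⟨w, hw⟩ := hyq
  refine ⟨w, hw, ?_⟩
  have hx1 := hwf x hxE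
  have hy1 := hwf y hyE
  have hcx : ∀ g, (wf x : H) * g = g * wf x := hN _ (wf x).2
  have hcy : ∀ g, (wf y : H)⁻¹ * g = g * (wf y : H)⁻¹ := hN _ (N.inv_mem (wf y).2)
  have hcxi : ∀ g, (wf x : H)⁻¹ * g = g * (wf x : H)⁻¹ := hN _ (N.inv_mem (wf x).2)
  -- the distance
  have b1 : ρ ((wf x : H) * (x⁻¹) ^ m) < s := by
    rw [← hpn.inv]
    have : ((wf x : H) * (x⁻¹) ^ m)⁻¹ = (wf x : H)⁻¹ * x ^ m := by
      rw [mul_inv_rev, inv_zpow, inv_inv, hcxi]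
    rw [this]
    exact hx1
  have b2 : ρ ((wf x : H) * (wf y : H)⁻¹ * (x⁻¹ * y) ^ m) < 3 * s := by
    have e : (wf x : H) * (wf y : H)⁻¹ * (x⁻¹ * y) ^ m =
        ((x⁻¹ * y) ^ m * ((x⁻¹) ^ m * y ^ m)⁻¹) * (((wf x : H) * (x⁻¹) ^ m) *
          ((wf y : H)⁻¹ * y ^ m)) := by
      have e1 : (wf x : H) * (wf y : H)⁻¹ * (x⁻¹ * y) ^ m =
          (x⁻¹ * y) ^ m * ((wf x : H) * (wf y : H)⁻¹) := by
        rw [mul_assoc, hcy, ← mul_assoc, hcx, mul_assoc]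
      have e2 : ((wf x : H) * (x⁻¹) ^ m) * ((wf y : H)⁻¹ * y ^ m) =
          ((x⁻¹) ^ m * y ^ m) * ((wf x : H) * (wf y : H)⁻¹) := by
        rw [hcx, hcy]
        rw [mul_assoc, ← mul_assoc (wf x : H), hcx (y ^ m)]
        simp only [mul_assoc]
      rw [e1, e2]
      group
    rw [e]
    refine lt_of_le_of_lt (hpn.mul _ _) ?_
    have := hpn.mul ((wf x : H) * (x⁻¹) ^ m) ((wf y : H)⁻¹ * y ^ m)
    linarith
  have b3 : ρ (((wf x * (wf y)⁻¹ * w : N) : H)) < 4 * s := by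
    have e : ((wf x * (wf y)⁻¹ * w : N) : H) =
        ((wf x : H) * (wf y : H)⁻¹ * (x⁻¹ * y) ^ m) * ((w : H)⁻¹ * (x⁻¹ * y) ^ m)⁻¹ := by
      push_cast
      group
    rw [e]
    refine lt_of_le_of_lt (hpn.mul _ _) ?_
    rw [hpn.inv]
    have hw' : ρ ((w : H)⁻¹ * (x⁻¹ * y) ^ m) < s := hw
    linarith
  have b4 := hC.sml _ b3
  have n1 : χ (wf x * (wf y)⁻¹ * w) * χ (wf y) = χ (wf x) * χ w := by
    have hcomm : wf x * (wf y)⁻¹ * w * wf y = wf x * w := by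
      apply Subtype.ext
      push_cast
      rw [mul_assoc (wf x : H), hcy]
      group
    rw [← map_mul, hcomm, map_mul]
  have n2 : ‖χ (wf x)‖ = 1 := hC.nrm _
  have n3 : ‖χ (wf y)‖ = 1 := hC.nrm _
  have n4 : χ (wf x) * (χ w - 1) = (χ (wf x * (wf y)⁻¹ * w) - 1) * χ (wf y) +
      ((χ (wf y) - μ) - (χ (wf x) - μ)) := by
    rw [sub_mul, n1]
    ring
  have n5 : ‖χ w - 1‖ = ‖χ (wf x) * (χ w - 1)‖ := by
    rw [norm_mul, n2, one_mul]
  rw [n5, n4]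
  refine (norm_add_le _ _).trans ?_
  rw [norm_mul, n3, mul_one]
  have := norm_sub_le (χ (wf y) - μ) (χ (wf x) - μ)
  linarith

theorem fg2 : S_FG2.{u} := by
  intro H _ _ _ ρ hρ F hF N hN ι χ κ s hC p hp
  have hpn := hρ.pn
  refine ⟨quo p, ?_, ?_⟩
  · refine le_inf (quo_le hF hp) (le_iInf fun i => le_iInf fun c => ?_)
    rw [le_principal_iff]
    exact wc_mem hρ hF hN (hC i) hp c
  · intro κ' c l ε hε hV h
    have hle : FG ρ F N χ κ s ≤ F := inf_le_left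
    suffices hs : {z : H | ∀ᶠ b in F, l - ε ≤ ρ (h * z ^ c * b ^ κ')} ∈ (quo p : Filter H) by
      exact Filter.Eventually.mono (f := (quo p : Filter H)) hs fun z hz => hz.filter_mono hle
    rw [mem_quo]
    refine Filter.Eventually.of_forall fun x => ?_
    have h1 := hV (h * (x⁻¹) ^ c)
    have h2 : ∀ᶠ y in (p : Filter H),
        ρ (h * ((x⁻¹ * y) ^ c * ((x⁻¹) ^ c * y ^ c)⁻¹) * h⁻¹) < ε :=
      ((tendsto_one_iff hρ _).1 (conj_fix h (pow_int hρ hF x⁻¹ c)) ε hε).filter_mono hp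
    filter_upwards [h1, h2] with y hy1 hy2
    show ∀ᶠ b in F, l - ε ≤ ρ (h * (x⁻¹ * y) ^ c * b ^ κ')
    filter_upwards [hy1] with b hb
    have e : h * (x⁻¹) ^ c * y ^ c * b ^ κ' =
        (h * ((x⁻¹ * y) ^ c * ((x⁻¹) ^ c * y ^ c)⁻¹) * h⁻¹)⁻¹ *
          (h * (x⁻¹ * y) ^ c * b ^ κ') := by
      group
    rw [e] at hb
    have h3 := hpn.mul (h * ((x⁻¹ * y) ^ c * ((x⁻¹) ^ c * y ^ c)⁻¹) * h⁻¹)⁻¹
      (h * (x⁻¹ * y) ^ c * b ^ κ')
    rw [hpn.inv] at h3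
    linarith

end Pool.Agent.H19M.FG2
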