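import Pool.Agent.H19M.Stm2

set_option autoImplicit false

/-!
Project H19M (helper19), leaf FG3 (by helper39).
-/

open Filter Topology Pool.Agent.N709.UM

universe u v

namespace Pool.Agent.H19M

theorem t_FG3 : S_FG3.{u} := by
  intro H _ ρ hρ F N ι χ κ s hch i z hz
  have hW : Wc ρ N (χ i) (κ i) (s i) 1 ∈ FG ρ F N χ κ s := by
    have h1 : (⨅ i, ⨅ c : ℤ, 𝓟 (Wc ρ N (χ i) (κ i) (s i) c)) ≤
        𝓟 (Wc ρ N (χ i) (κ i) (s i) 1) :=
      (iInf_le _ i).trans (iInf_le _ (1 : ℤ))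
    have h2 : FG ρ F N χ κ s ≤ 𝓟 (Wc ρ N (χ i) (κ i) (s i) 1) := inf_le_right.trans h1
    exact le_principal_iff.mp h2
  filter_upwards [hW] with b hb
  obtain ⟨w, hw1, hw2⟩ := hb
  rw [one_mul] at hw1
  by_contra hlt
  rw [not_le] at hlt
  have e1 : (((z⁻¹ * w : N)) : H) = ((z : H)⁻¹ * b ^ κ i) * ((w : H)⁻¹ * b ^ κ i)⁻¹ := by
    push_cast
    group
  have h4 : ρ (((z⁻¹ * w : N)) : H) < 4 * s i := by
    rw [e1]
    have a1 := hρ.mul ((z : H)⁻¹ * b ^ κ i) (((w : H)⁻¹ * b ^ κ i)⁻¹)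
    rw [hρ.inv] at a1
    have a2 := (hch i).pos
    linarith
  have h5 := (hch i).sml (z⁻¹ * w) h4
  have h6 : χ i w - χ i z = χ i z * (χ i (z⁻¹ * w) - 1) := by
    have a3 : χ i w = χ i z * χ i (z⁻¹ * w) := by
      rw [← map_mul, mul_inv_cancel_left]
    rw [mul_sub, mul_one, ← a3]
  have h7 : ‖χ i w - χ i z‖ ≤ 1 / 20 := by
    rw [h6, norm_mul, (hch i).nrm z, one_mul]
    exact h5
  have h8 : χ i z - 1 = (χ i w - 1) - (χ i w - χ i z) := by ring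
  have h9 : ‖χ i z - 1‖ ≤ ‖χ i w - 1‖ + ‖χ i w - χ i z‖ := by
    rw [h8]
    exact norm_sub_le _ _
  linarith

end Pool.Agent.H19M
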