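import Pool.Agent.H19M.Chu
import Pool.Agent.N709.UM.Prod2

set_option autoImplicit false

/-!
Project H19M (helper19): assembly.
-/

open Filter Topology Pool.Agent.N709.UM

universe u v

namespace Pool.Agent.H19M

theorem tsq_of (hA : S_SQA.{u}) (hB : S_SQB.{u}) : S_TSQ.{u} := by
  intro H _ _ _ _ _ hmin ρ hρ F hF κ l hl hvis hfin hnon
  let q : ℕ → H := TopologicalSpace.denseSeq H
  have hq : DenseRange q := TopologicalSpace.denseRange_denseSeq H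
  let t : ℕ → ℝ := fun k => (1 / 4 : ℝ) ^ k / ((2 * (k : ℝ) + 1) * ((k : ℝ) + 1))
  have htp : ∀ k, 0 < t k := fun k => by positivity
  have htm : ∀ k : ℕ, ((2 * (k : ℝ) + 1) * ((k : ℝ) + 1)) * t k = (1 / 4 : ℝ) ^ k := by
    intro k
    have : ((2 * (k : ℝ) + 1) * ((k : ℝ) + 1)) ≠ 0 := by positivity
    simp only [t]
    rw [mul_div_cancel₀ _ this]
  obtain ⟨v, hv⟩ := hA H ρ hρ F hF κ l hl hvis q t htp
  exact hB H hmin ρ hρ F κ l q t v hv hl hq htp htm hfin hnon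

theorem not_ivs {H : Type u} [Group H] {ρ : H → ℝ} (hρ : PN ρ) {F : Filter H}
    {p : Ultrafilter H} (hp : AI ρ p) (hpF : (p : Filter H) ≤ F) {e : ℝ} (he : 0 < e)
    (hs : {a : H | {b : H | e ≤ ρ (a * b⁻¹)} ∈ p} ∈ p) : ¬ Ivs ρ F 0 1 (e / 4) := by
  rintro ⟨E, hE⟩
  have h1 : ∀ᶠ x in (p : Filter H), ∃ a ∈ E, ρ (a.1 * x) < e / 4 := by
    filter_upwards [hpF hE] with x hx
    obtain ⟨a, ha, hax⟩ := hx
    refine ⟨a, ha, ?_⟩
    obtain ⟨b, hb⟩ := hax.exists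
    simpa using hb
  have h2 : ∃ a ∈ E, ∀ᶠ x in (p : Filter H), ρ (a.1 * x) < e / 4 := by
    have h3 := (Ultrafilter.finite_biUnion_mem_iff (f := p) (is := (E : Set (H × ℤ)))
      E.finite_toSet (s := fun a => {x | ρ (a.1 * x) < e / 4})).mp (by
        filter_upwards [h1] with x hx
        obtain ⟨a, ha, hax⟩ := hx
        exact Set.mem_biUnion ha hax)
    obtain ⟨a, ha, hax⟩ := h3
    exact ⟨a, ha, hax⟩
  obtain ⟨a, _, ha⟩ := h2
  obtain ⟨x, hx1, hx2⟩ := (ha.and (show ∀ᶠ x in (p : Filter H), {b : H | e ≤ ρ (x * b⁻¹)} ∈ p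
    from hs)).exists
  obtain ⟨y, hy1, hy2, hy3⟩ := (ha.and ((show ∀ᶠ b in (p : Filter H), e ≤ ρ (x * b⁻¹) from
    hx2).and (show ∀ᶠ b in (p : Filter H), ∀ c, ρ (b * c * b⁻¹) ≤ ρ c + e / 4 ∧
      ρ (b⁻¹ * c * b) ≤ ρ c + e / 4 from hp.inv (e / 4) (by linarith)))).exists
  have h4 := (hy3 (y⁻¹ * x)).1
  have h5 : y * (y⁻¹ * x) * y⁻¹ = x * y⁻¹ := by group
  rw [h5] at h4
  have h6 := hρ.mul (a.1 * y)⁻¹ (a.1 * x)
  have h7 : (a.1 * y)⁻¹ * (a.1 * x) = y⁻¹ * x := by group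
  rw [h7, hρ.inv] at h6
  linarith

theorem fin_of (hBASE : S_BASE.{u}) (hCSA : S_CSA.{u}) (hLVS : S_LVS.{u}) (hNC1 : S_NC1.{u})
    (hNC2 : S_NC2.{u}) (hNC3 : S_NC3.{u}) (hCHI : S_CHU.{u}) (hFG1 : S_FG1.{u})
    (hFG2 : S_FG2.{u}) (hFG3 : S_FG3.{u}) (hTSQ : S_TSQ.{u}) (hCau : Cau3.{u})
    (H : Type u) [Group H] [TopologicalSpace H] [IsTopologicalGroup H] [T2Space H]
    [SecondCountableTopology H] (hrc : RC H) (hmin : Pool.Agent.N709.UM.Min H) : Star' H := by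
  refine ⟨inferInstance, ?_⟩
  intro ρ hρ p0 hp0
  by_contra hno
  obtain ⟨e, he, heF⟩ := hCau H hrc ρ hρ p0 hp0 hno
  obtain ⟨F, hF, hFc, hFp⟩ := hBASE H ρ hρ
  have h1 : ¬ Ivs ρ F 0 1 (e / 4) := not_ivs hρ.pn hp0 (hFp p0 hp0) he heF
  have hA := hCSA H hmin ρ hρ F hF
  obtain ⟨κ, l, hκ, hκ0, hvis, hIv⟩ := hLVS H ρ hρ F hF hA (e / 4) (by linarith) h1
  obtain ⟨N, hN, hNcl, hNc⟩ := hNC1 H ρ hρ F hF κ
  have hNK : IsCompact (N : Set H) := hNC2 H hrc ρ hρ F hF κ hIv N hN hNcl hNc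
  have hAp := hNC3 H hrc ρ hρ F hF hFc κ (fun m => ⟨(hκ m).1, (hκ m).2.1⟩) hIv
  let _ : CommGroup N :=
    { (inferInstance : Group N) with
      mul_comm := fun a b => Subtype.ext (hNc a a.2 b) }
  have : CompactSpace N := isCompact_iff_compactSpace.mp hNK
  have : SecondCountableTopology N :=
    TopologicalSpace.Subtype.secondCountableTopology (N : Set H)
  have hch : ∀ z : {z : N // z ≠ 1}, ∃ χ : N →* ℂ, Continuous χ ∧ (∀ x, ‖χ x‖ = 1) ∧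
      1 ≤ ‖χ z - 1‖ := fun z => hCHI N z.1 z.2
  choose χ hχc hχn hχz using hch
  have hs : ∀ z : {z : N // z ≠ 1}, ∃ s : ℝ, 0 < s ∧
      ∀ w : N, ρ (w : H) < 4 * s → ‖χ z w - 1‖ ≤ 1 / 20 := by
    intro z
    have h2 : {w : N | ‖χ z w - 1‖ < 1 / 20} ∈ 𝓝 (1 : N) := by
      have h3 : Continuous fun w : N => ‖χ z w - 1‖ := ((hχc z).sub continuous_const).norm
      apply (isOpen_lt h3 continuous_const).mem_nhds
      simp
    rw [nhds_induced] at h2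
    obtain ⟨U, hU, hUs⟩ := h2
    obtain ⟨r, hr, hrU⟩ := hρ.gen U hU
    refine ⟨r / 4, by positivity, fun w hw => ?_⟩
    have h4 : w ∈ {w : N | ‖χ z w - 1‖ < 1 / 20} := by
      apply hUs
      exact hrU _ (by linarith)
    exact le_of_lt h4
  choose s hs0 hsχ using hs
  have hm : ∀ z : {z : N // z ≠ 1}, ∃ m, ∀ᶠ b in F, ∃ w : N, ρ ((w : H)⁻¹ * b ^ κ m) < s z := by
    intro z
    obtain ⟨m, hm⟩ := hAp (s z) (hs0 z)
    refine ⟨m, ?_⟩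
    filter_upwards [hm] with b hb
    obtain ⟨w, hw, hwb⟩ := hb
    rw [← hN] at hw
    exact ⟨⟨w, hw⟩, hwb⟩
  choose m hm using hm
  have hCh : ∀ z : {z : N // z ≠ 1}, Ch ρ F N (χ z) (κ (m z)) (s z) := fun z =>
    { pos := hs0 z
      nrm := hχn z
      sml := hsχ z
      apx := hm z }
  have hD := hFG1 H ρ hρ F hF N hNc {z : N // z ≠ 1} χ (fun z => κ (m z)) s hCh
  refine hTSQ H hmin ρ hρ (FG ρ F N χ (fun z => κ (m z)) s) hD κ (fun m => l m / 2)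
    (fun m => half_pos (hκ m).2.2) ?_ ?_ hκ0
  · intro n
    obtain ⟨p, hp, hpv⟩ := hvis n
    obtain ⟨q, hq, hqv⟩ := hFG2 H ρ hρ F hF N hNc {z : N // z ≠ 1} χ (fun z => κ (m z)) s hCh p hp
    refine ⟨q, hq, fun c hc => ?_⟩
    have h5 := hqv (κ n) c (l n) (l n / 2) (half_pos (hκ n).2.2) (hpv c hc)
    have h6 : l n - l n / 2 = l n / 2 := by ring
    rw [h6] at h5
    exact h5
  · intro z hz
    by_cases hzN : z ∈ N
    · have hz' : (⟨z, hzN⟩ : N) ≠ 1 := by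
        intro h7
        exact hz (congrArg Subtype.val h7)
      refine ⟨m ⟨⟨z, hzN⟩, hz'⟩, s ⟨⟨z, hzN⟩, hz'⟩, hs0 _, ?_⟩
      exact hFG3 H ρ hρ.pn F N {z : N // z ≠ 1} χ (fun z => κ (m z)) s hCh ⟨⟨z, hzN⟩, hz'⟩
        ⟨z, hzN⟩ (hχz ⟨⟨z, hzN⟩, hz'⟩)
    · have h8 : z ∉ Ns ρ F κ := by
        rw [← hN]
        exact hzN
      simp only [Ns, Set.mem_ofPred_eq, not_forall] at h8
      obtain ⟨n, r, hr, hnr⟩ := h8
      refine ⟨n, r, hr, ?_⟩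
      have h9 : ∀ᶠ b in F, r ≤ ρ (z⁻¹ * b ^ κ n) := by
        rw [Filter.not_frequently] at hnr
        filter_upwards [hnr] with b hb
        exact not_lt.mp hb
      exact h9.filter_mono inf_le_left

end Pool.Agent.H19M
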