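import Pool.Agent.H19M.Stm

set_option autoImplicit false

/-!
Project H19M (helper19), MP_c4a55f_al, piece MLT: multiples of invisible exponents.
-/

open Filter Topology Pool.Agent.N709.UM

universe u

namespace Pool.Agent.H19M

theorem mlt : S_MLT.{u} := by
  intro H _ ρ F hF κ c m l h
  classical
  obtain ⟨E, hE⟩ := h
  refine ⟨E.image fun e => (e.1, m * e.2), ?_⟩
  filter_upwards [hF.pow m _ hE] with x hx
  obtain ⟨e, he, hb⟩ := hx
  refine ⟨(e.1, m * e.2), Finset.mem_image_of_mem _ he, ?_⟩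
  have h1 : x ^ (m * c + κ * (m * e.2)) = (x ^ m) ^ (c + κ * e.2) := by
    rw [← zpow_mul]
    congr 1
    ring
  refine hb.mono fun b hb' => ?_
  show ρ (e.1 * x ^ (m * c + κ * (m * e.2)) * b ^ κ) < l
  rw [h1]
  exact hb'

end Pool.Agent.H19M
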