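import Pool.Agent.H19M.Stm

set_option autoImplicit false

open Filter Topology Pool.Agent.N709.UM

universe u

namespace Pool.Agent.H19M

theorem LV1_mono {H : Type u} [Group H] {ρ : H → ℝ} {F : Filter H} {κ c : ℤ} {l l' : ℝ}
    (hl : l ≤ l') (h : Ivs ρ F κ c l) : Ivs ρ F κ c l' := by
  obtain ⟨E, hE⟩ := h
  refine ⟨E, hE.mono fun x hx => ?_⟩
  obtain ⟨e, he, hb⟩ := hx
  exact ⟨e, he, hb.mono fun b hb' => lt_of_lt_of_le hb' hl⟩

theorem lv1 (hADD : S_ADD.{u}) (hMLT : S_MLT.{u}) (hPER : S_PER.{u}) : S_LV1.{u} := by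
  intro H _ _ _ ρ hρ F hF κ hκ
  let D : AddSubgroup ℤ :=
    { carrier := {c | ∀ l : ℝ, 0 < l → Ivs ρ F κ c l}
      add_mem' := by
        intro a b ha hb l hl
        have h := hADD H ρ hρ F hF κ a b (l / 3) (l / 3) (l / 3) (by linarith)
          (ha (l / 3) (by linarith)) (hb (l / 3) (by linarith))
        have h3 : l / 3 + l / 3 + l / 3 = l := by ring
        rw [h3] at h
        exact h
      zero_mem' := by
        intro l hl
        have h := (hPER H ρ hρ.pn F hF κ l).2 κ (-1) ((hPER H ρ hρ.pn F hF κ l).1 hl)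
        have h0 : κ + κ * (-1) = 0 := by ring
        rw [h0] at h
        exact h
      neg_mem' := by
        intro a ha l hl
        have h := hMLT H ρ F hF κ a (-1) l (ha l hl)
        have h0 : (-1) * a = -a := by ring
        rw [h0] at h
        exact h }
  have hD : ∀ c, c ∈ D ↔ ∀ l : ℝ, 0 < l → Ivs ρ F κ c l := fun c => Iff.rfl
  obtain ⟨a, ha⟩ := Int.subgroup_cyclic D
  have hmem : ∀ c, c ∈ D ↔ a ∣ c := by
    intro c
    rw [ha, AddSubgroup.mem_closure_singleton]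
    constructor
    · rintro ⟨n, rfl⟩
      exact ⟨n, by rw [smul_eq_mul, mul_comm]⟩
    · rintro ⟨n, rfl⟩
      exact ⟨n, by rw [smul_eq_mul, mul_comm]⟩
  have hκD : κ ∈ D := (hD κ).2 fun l hl => (hPER H ρ hρ.pn F hF κ l).1 hl
  have haκ : a ∣ κ := (hmem κ).1 hκD
  have ha0 : a ≠ 0 := by
    rintro rfl
    rw [zero_dvd_iff] at haκ
    omega
  have habs : |a| ∣ κ := (abs_dvd a κ).2 haκ
  refine ⟨|a|, Int.one_le_abs ha0, habs, ?_, ?_, ?_⟩
  · exact (hD _).1 ((hmem _).2 ((dvd_abs a a).2 dvd_rfl))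
  · intro c hc
    exact (abs_dvd a c).2 ((hmem c).1 ((hD c).2 hc))
  · have hch : ∀ c : ℤ, ∃ l : ℝ, 0 < l ∧ (¬ |a| ∣ c → ¬ Ivs ρ F κ c l) := by
      intro c
      by_cases h : |a| ∣ c
      · exact ⟨1, one_pos, fun h' => absurd h h'⟩
      · have h2 : ¬ ∀ l : ℝ, 0 < l → Ivs ρ F κ c l := by
          intro h3
          exact h ((abs_dvd a c).2 ((hmem c).1 ((hD c).2 h3)))
        push Not at h2
        obtain ⟨l, hl, hl2⟩ := h2
        exact ⟨l, hl, fun _ => hl2⟩
    choose l hl hl2 using hch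
    have hne : (Finset.Ico (0 : ℤ) κ).Nonempty := ⟨0, Finset.mem_Ico.2 ⟨le_refl _, by omega⟩⟩
    refine ⟨(Finset.Ico (0 : ℤ) κ).inf' hne l, ?_, ?_⟩
    · rw [Finset.lt_inf'_iff]
      intro c _
      exact hl c
    · intro c hc hI
      have hr : c % κ ∈ Finset.Ico (0 : ℤ) κ :=
        Finset.mem_Ico.2 ⟨Int.emod_nonneg _ (by omega), Int.emod_lt_of_pos _ (by omega)⟩
      have h1 := (hPER H ρ hρ.pn F hF κ _).2 c (-(c / κ)) hI
      have h2 : c + κ * (-(c / κ)) = c % κ := by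
        have := Int.emod_add_mul_ediv c κ
        linarith
      rw [h2] at h1
      have h3 := LV1_mono (Finset.inf'_le l hr) h1
      refine hl2 (c % κ) ?_ h3
      intro h4
      apply hc
      have h5 : c = c % κ + κ * (c / κ) := (Int.emod_add_mul_ediv c κ).symm
      rw [h5]
      exact dvd_add h4 (dvd_mul_of_dvd_left habs _)

end Pool.Agent.H19M
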