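import Pool.Agent.H19M.Stm

/-!
# Project H19M, piece LV3
-/

set_option autoImplicit false

open Filter Topology Pool.Agent.N709.UM

universe u

namespace Pool.Agent.H19M

namespace LV3

/-- conjugation by a fixed element is continuous at `1` for `ρ` -/
theorem conj_small {H : Type u} [Group H] [TopologicalSpace H] [IsTopologicalGroup H]
    {ρ : H → ℝ} (hρ : Gen ρ) (g : H) {t : ℝ} (ht : 0 < t) :
    ∃ δ : ℝ, 0 < δ ∧ ∀ w, ρ w < δ → ρ (g * w * g⁻¹) < t := by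
  have hc : Continuous fun w : H => ρ (g * w * g⁻¹) :=
    hρ.cont.comp ((continuous_const.mul continuous_id).mul continuous_const)
  have h1 : {w : H | ρ (g * w * g⁻¹) < t} ∈ 𝓝 (1 : H) := by
    refine hc.continuousAt.preimage_mem_nhds (Iio_mem_nhds ?_)
    have : ρ (g * 1 * g⁻¹) = 0 := by rw [mul_one, mul_inv_cancel, hρ.pn.one]
    rw [this]
    exact ht
  obtain ⟨r, hr, h2⟩ := hρ.gen _ h1
  exact ⟨r, hr, fun w hw => h2 w hw⟩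

theorem vc_mono {H : Type u} [Group H] {ρ : H → ℝ} {F : Filter H} {p : Ultrafilter H}
    {κ c : ℤ} {l l' : ℝ} (h : l' ≤ l) (hv : Vc ρ F p κ c l) : Vc ρ F p κ c l' :=
  fun a => (hv a).mono fun _ hx => hx.mono fun _ hb => h.trans hb

/-- if `c` is seen then `-c` is seen -/
theorem vc_neg {H : Type u} [Group H] {ρ : H → ℝ} {F : Filter H} (hρ : PN ρ) (hF : Deep ρ F)
    {p : Ultrafilter H} (hp : (p : Filter H) ≤ F) {κ c : ℤ} {l ε : ℝ} (hε : 0 < ε)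
    (h : Vc ρ F p κ c l) : Vc ρ F p κ (-c) (l - ε) := by
  intro g
  have h1 := h g⁻¹
  have h2 : ∀ᶠ x in F, ρ (x ^ c * g⁻¹ * (x ^ c)⁻¹ * (g⁻¹)⁻¹) < ε / 2 :=
    (hF.pow c _ (hF.com (ε / 2) (by linarith) g⁻¹)).mono fun x hx => hx.1
  filter_upwards [h1, h2.filter_mono hp] with x hx1 hx2
  have h3 : ∀ᶠ b in F, l ≤ ρ (g⁻¹ * x ^ c * (b ^ (-1 : ℤ)) ^ κ) := hF.pow (-1) _ hx1
  have h4 : ∀ᶠ b in F,
      ρ (b ^ (-κ) * (x ^ c * g⁻¹) * (b ^ (-κ))⁻¹ * (x ^ c * g⁻¹)⁻¹) < ε / 2 :=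
    (hF.pow (-κ) _ (hF.com (ε / 2) (by linarith) (x ^ c * g⁻¹))).mono fun b hb => hb.1
  filter_upwards [h3, h4] with b hb3 hb4
  have e1 : ρ (g * x ^ (-c) * b ^ κ) = ρ (b ^ (-κ) * (x ^ c * g⁻¹)) := by
    rw [← hρ.inv (g * x ^ (-c) * b ^ κ)]
    congr 1
    simp only [zpow_neg]
    group
  have e2 : (b ^ (-1 : ℤ)) ^ κ = b ^ (-κ) := by
    rw [← zpow_mul, neg_one_mul]
  rw [e2] at hb3
  have h5 : ρ (g⁻¹ * x ^ c * b ^ (-κ)) ≤ ρ (x ^ c * g⁻¹ * (x ^ c)⁻¹ * (g⁻¹)⁻¹) +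
      ρ (x ^ c * g⁻¹ * b ^ (-κ)) := by
    rw [← hρ.inv (x ^ c * g⁻¹ * (x ^ c)⁻¹ * (g⁻¹)⁻¹)]
    refine le_trans (le_of_eq ?_) (hρ.mul _ _)
    congr 1
    group
  have h6 : ρ (x ^ c * g⁻¹ * b ^ (-κ)) ≤
      ρ (b ^ (-κ) * (x ^ c * g⁻¹) * (b ^ (-κ))⁻¹ * (x ^ c * g⁻¹)⁻¹) +
      ρ (b ^ (-κ) * (x ^ c * g⁻¹)) := by
    rw [← hρ.inv (b ^ (-κ) * (x ^ c * g⁻¹) * (b ^ (-κ))⁻¹ * (x ^ c * g⁻¹)⁻¹)]
    refine le_trans (le_of_eq ?_) (hρ.mul _ _)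
    congr 1
    group
  rw [e1]
  linarith

end LV3

open LV3 in
theorem lv3 (hP : S_PWZ.{u}) (hU : S_ULT.{u}) (hC : S_CMB.{u}) : S_LV3.{u} := by
  intro H _ _ _ ρ hρ F hF κ κ' l hκ hd hl hI hN
  have hpn := hρ.pn
  have h1 : ∀ i : ℕ, ∃ p : Ultrafilter H, (p : Filter H) ≤ F ∧
      (¬ κ' ∣ (i : ℤ) → ∀ u : ℤ, Vc ρ F p κ (i + κ * u) l) := by
    intro i
    by_cases hi : κ' ∣ (i : ℤ)
    · refine ⟨pure 1, ?_, fun h => absurd hi h⟩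
      intro A hA
      exact hF.one A hA
    · obtain ⟨p, hp, hv⟩ := hU H ρ F hF κ i l (hN i hi)
      exact ⟨p, hp, fun _ => hv⟩
  choose p hpF hpv using h1
  obtain ⟨q, hq, hqv⟩ := hC H ρ hρ F hF κ.toNat p (fun _ => κ) (fun _ => 3 * l / 4)
    (fun i => {c | ¬ κ' ∣ (i : ℤ) ∧ (κ ∣ c - i ∨ κ ∣ c + i)}) (by
      intro i _
      refine ⟨hpF i, by linarith, ?_, ?_⟩
      · rintro c ⟨hc1, hc2⟩
        refine ⟨hc1, ?_⟩
        rcases hc2 with h | h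
        · right
          have : -c + (i : ℤ) = -(c - i) := by ring
          rw [this]
          exact (dvd_neg).2 h
        · left
          have : -c - (i : ℤ) = -(c + i) := by ring
          rw [this]
          exact (dvd_neg).2 h
      · rintro c ⟨hc1, hc2⟩
        rcases hc2 with ⟨u, hu⟩ | ⟨u, hu⟩
        · have h2 := hpv i hc1 u
          have h3 : (i : ℤ) + κ * u = c := by rw [← hu]; ring
          rw [h3] at h2
          exact vc_mono (by linarith) h2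
        · have h2 := hpv i hc1 (-u)
          have h3 : (i : ℤ) + κ * -u = -c := by rw [mul_neg, ← hu]; ring
          rw [h3] at h2
          have h4 := vc_neg hpn hF (hpF i) (by linarith : 0 < l / 4) h2
          rw [neg_neg] at h4
          exact vc_mono (by linarith) h4)
  have hv : ∀ c : ℤ, ¬ κ' ∣ c → Vc ρ F q κ c (l / 4) := by
    intro c hc
    have h2 : 0 ≤ c % κ := Int.emod_nonneg _ (by omega)
    have h3 : c % κ < κ := Int.emod_lt_of_pos _ (by omega)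
    have h4 : c % κ + κ * (c / κ) = c := Int.emod_add_mul_ediv c κ
    have h5 : (((c % κ).toNat : ℕ) : ℤ) = c % κ := Int.toNat_of_nonneg h2
    have h6 := hqv (c % κ).toNat (by omega) c ⟨by
      rw [h5]
      intro h7
      apply hc
      rw [← h4]
      exact dvd_add h7 (hd.mul_right _), Or.inl ⟨c / κ, by rw [h5]; linarith⟩⟩
    exact vc_mono (by linarith) h6
  refine ⟨q, hq, fun c hc h => ?_⟩
  obtain ⟨E, hE⟩ := hI (l / 16) (by linarith)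
  -- the conditions on `x`
  have hx1 : ∀ᶠ x in (q : Filter H), ∀ e ∈ E, ∀ᶠ b in F,
      l / 4 ≤ ρ (h * e.1⁻¹ * x ^ c * b ^ κ) := by
    exact (Filter.eventually_all_finset E).2 fun e _ => hv c hc (h * e.1⁻¹)
  obtain ⟨δ, hδ, hδ'⟩ := conj_small hρ h (by linarith : 0 < l / 32)
  have hx2 : ∀ᶠ x in (q : Filter H), ∀ e ∈ E,
      ρ (x ^ c * e.1⁻¹ * (x ^ c)⁻¹ * (e.1⁻¹)⁻¹) < δ := by
    refine (Filter.eventually_all_finset E).2 fun e _ => ?_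
    exact ((hF.pow c _ (hF.com δ hδ e.1⁻¹)).mono fun x hx => hx.1).filter_mono hq
  filter_upwards [hx1, hx2] with x hx1 hx2
  by_contra hcon
  rw [Filter.not_eventually] at hcon
  -- the conditions on `b`
  have hb1 : ∀ᶠ b in F, ∀ e ∈ E, ∀ᶠ b₁ in F,
      l / 4 ≤ ρ (h * e.1⁻¹ * x ^ c * ((b ^ e.2 * b₁) ^ (-1 : ℤ)) ^ κ) := by
    refine (Filter.eventually_all_finset E).2 fun e he => ?_
    exact hF.pow e.2 _ (hF.mul _ (hF.pow (-1) _ (hx1 e he)))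
  have hb2 : ∀ᶠ b in F, ∀ e ∈ E, ∀ᶠ b₁ in F, ∀ w,
      ρ ((b ^ (κ * e.2) * b₁ ^ κ) * w * (b ^ (κ * e.2) * b₁ ^ κ)⁻¹) ≤ ρ w + l / 64 := by
    refine (Filter.eventually_all_finset E).2 fun e _ => ?_
    have h2 := hF.pow (κ * e.2) _ (hF.mul _ (hF.inv (l / 64) (by linarith)))
    refine h2.mono fun b hb => ?_
    exact (hF.pow κ _ hb).mono fun b₁ hb₁ w => (hb₁ w).1
  obtain ⟨b, hbc, ⟨e, he, hb3⟩, hb1, hb2⟩ :=
    (hcon.and_eventually (hE.and (hb1.and hb2))).exists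
  rw [not_le] at hbc
  obtain ⟨η, hη, hη'⟩ := conj_small hρ (h * x ^ c * e.1⁻¹) (by linarith : 0 < l / 64)
  have hb4 := hP H ρ hρ F hF (b ^ e.2) (-κ) (η / 2) (by linarith)
  have hb5 : ∀ᶠ b₁ in F,
      ρ (b₁ ^ (-κ) * b ^ (-(κ * e.2)) * (b₁ ^ (-κ))⁻¹ * (b ^ (-(κ * e.2)))⁻¹) < η / 2 :=
    (hF.pow (-κ) _ (hF.com (η / 2) (by linarith) (b ^ (-(κ * e.2))))).mono fun b hb => hb.1
  obtain ⟨b₁, hc3, hc1, hc2, hc4, hc5⟩ :=
    (hb3.and_eventually ((hb1 e he).and ((hb2 e he).and (hb4.and hb5)))).exists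
  -- the names of the elements
  set A := e.1 * b ^ (κ' + κ * e.2) * b₁ ^ κ with hA
  set G := h * x ^ c * e.1⁻¹ with hG
  set D := b₁ ^ (-κ) * b ^ (-(κ * e.2)) with hD
  set y := (b ^ e.2 * b₁) ^ (-1 : ℤ) with hy
  have hDi : D⁻¹ = b ^ (κ * e.2) * b₁ ^ κ := by
    rw [hD]; simp [zpow_neg]
  have k1 : ρ (D⁻¹ * A * D) ≤ ρ A + l / 64 := by
    have := hc2 A
    rwa [← hDi, inv_inv] at this
  have k2 : h * x ^ c * b ^ κ' = G * D * (D⁻¹ * A * D) := by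
    rw [hG, hD, hA]
    simp only [zpow_add, zpow_neg]
    group
  have k3 : ρ (G * D) ≤ ρ (h * x ^ c * b ^ κ') + ρ (D⁻¹ * A * D) := by
    rw [← hpn.inv (D⁻¹ * A * D)]
    refine le_trans (le_of_eq ?_) (hpn.mul _ _)
    congr 1
    rw [k2]
    group
  have k4 : ρ (b₁ ^ (-κ) * b ^ (-(κ * e.2)) * (b₁ ^ (-κ))⁻¹ * (b ^ (-(κ * e.2)))⁻¹ *
      (y ^ κ * ((b ^ e.2) ^ (-κ) * b₁ ^ (-κ))⁻¹)⁻¹) < η := by
    have h2 : (b ^ e.2 * b₁) ^ (-κ) = y ^ κ := by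
      rw [hy, ← zpow_mul, neg_one_mul]
    have h3 := hc4.1
    rw [h2] at h3
    refine (hpn.mul _ _).trans_lt ?_
    rw [hpn.inv (y ^ κ * ((b ^ e.2) ^ (-κ) * b₁ ^ (-κ))⁻¹)]
    linarith
  have k5 := hη' _ k4
  have k6 : ρ (G * y ^ κ) ≤ ρ (G * (b₁ ^ (-κ) * b ^ (-(κ * e.2)) * (b₁ ^ (-κ))⁻¹ *
      (b ^ (-(κ * e.2)))⁻¹ * (y ^ κ * ((b ^ e.2) ^ (-κ) * b₁ ^ (-κ))⁻¹)⁻¹) * G⁻¹) +
      ρ (G * D) := by
    rw [← hpn.inv (G * _ * G⁻¹)]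
    refine le_trans (le_of_eq ?_) (hpn.mul _ _)
    congr 1
    have h2 : (b ^ e.2) ^ (-κ) = b ^ (-(κ * e.2)) := by
      rw [← zpow_mul]
      congr 1
      ring
    rw [h2, hD]
    group
  have k7 : ρ (h * e.1⁻¹ * x ^ c * y ^ κ) ≤
      ρ (h * (x ^ c * e.1⁻¹ * (x ^ c)⁻¹ * (e.1⁻¹)⁻¹) * h⁻¹) + ρ (G * y ^ κ) := by
    rw [← hpn.inv (h * _ * h⁻¹)]
    refine le_trans (le_of_eq ?_) (hpn.mul _ _)
    congr 1
    rw [hG]
    group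
  have k8 := hδ' _ (hx2 e he)
  linarith

end Pool.Agent.H19M
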