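import Pool.Agent.H19M.Stm2

set_option autoImplicit false

/-!
Project H19M (helper19), piece LVS (helper3).
-/

open Filter Topology Pool.Agent.N709.UM

universe u

namespace Pool.Agent.H19M

theorem Ivs.mono {H : Type u} [Group H] {ρ : H → ℝ} {F : Filter H} {κ c : ℤ} {l l' : ℝ}
    (h : Ivs ρ F κ c l) (hl : l ≤ l') : Ivs ρ F κ c l' := by
  obtain ⟨E, hE⟩ := h
  refine ⟨E, hE.mono fun x hx => ?_⟩
  obtain ⟨e, he, hb⟩ := hx
  exact ⟨e, he, hb.mono fun b hb => hb.trans_le hl⟩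

theorem lvs (hMLT : S_MLT.{u}) (hLV1 : S_LV1.{u}) (hLV2 : S_LV2.{u}) (hLV3 : S_LV3.{u})
    (hDIV : S_DIV.{u}) : S_LVS.{u} := by
  intro H _ _ _ ρ hρ F hF hk e he hne
  -- the radii
  obtain ⟨r, hr⟩ : ∃ r : ℕ → ℝ, ∀ m, r m = e / (4 * ((m : ℝ) + 1)) := ⟨_, fun _ => rfl⟩
  have hr0 : ∀ m, 0 < r m := fun m => by rw [hr]; positivity
  choose kk hkk1 hkk2 using fun m => hk (r m) (hr0 m)
  obtain ⟨k, hkd⟩ : ∃ k : ℕ → ℤ, ∀ m, k m = (∏ i ∈ Finset.range m, kk i) * kk m :=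
    ⟨_, fun _ => rfl⟩
  have hk1 : ∀ m, 1 ≤ k m := by
    intro m
    have h1 : 0 < ∏ i ∈ Finset.range m, kk i :=
      Finset.prod_pos fun i _ => by have := hkk1 i; omega
    have h2 : 0 < kk m := by have := hkk1 m; omega
    have h3 : 0 < k m := by rw [hkd]; exact mul_pos h1 h2
    omega
  have hks : ∀ m, k (m + 1) = k m * kk (m + 1) := by
    intro m
    rw [hkd, hkd m, Finset.prod_range_succ]
  have hkI : ∀ m, Ivs ρ F 0 (k m) (r m) := by
    intro m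
    rw [hkd]
    exact hMLT H ρ F hF 0 (kk m) _ (r m) (hkk2 m)
  choose κ hκ1 hκd hκI hκm l hl0 hl using fun m => hLV1 H ρ hρ F hF (k m) (hk1 m)
  have hI0 : ∀ m, Ivs ρ F 0 (κ m) (r m + r m) := fun m =>
    hLV2 H ρ hρ F hF (k m) (κ m) (r m) (r m) (hr0 m) (hκI m) (hkI m)
  refine ⟨κ, fun m => l m / 16, fun m => ⟨hκ1 m, ?_, by have := hl0 m; positivity⟩, ?_, ?_, ?_⟩
  · refine hκm m (κ (m + 1)) fun l' hl' => ?_
    have h1 := hκI (m + 1) l' hl'
    rw [hks] at h1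
    exact hDIV H ρ F hF (k m) (kk (m + 1)) (κ (m + 1)) l' h1
  · intro hd
    have h1 : κ 0 = 1 := by
      have h2 := Int.le_of_dvd one_pos hd
      have h3 := hκ1 0
      omega
    apply hne
    have h2 := hI0 0
    rw [h1] at h2
    refine h2.mono ?_
    rw [hr]
    push_cast
    linarith
  · intro m
    exact hLV3 H ρ hρ F hF (k m) (κ m) (l m) (hk1 m) (hκd m) (hl0 m) (hκI m) (hl m)
  · intro t ht
    obtain ⟨m, hm⟩ := exists_nat_gt (e / t)
    refine ⟨m, (hI0 m).mono ?_⟩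
    rw [hr]
    have h1 : e < t * m := by
      rw [div_lt_iff₀ ht] at hm
      linarith
    have h2 : (0 : ℝ) < 4 * ((m : ℝ) + 1) := by positivity
    have h3 : e / (4 * ((m : ℝ) + 1)) ≤ t / 4 := by
      rw [div_le_iff₀ h2]
      nlinarith
    linarith

end Pool.Agent.H19M
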