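import Pool.Agent.H19M.Stm2
import Pool.Agent.H19M.PWZ

set_option autoImplicit false

/-!
# Project H19M, piece NC1 (helper46): the limits of the powers form a closed central subgroup
-/

open Filter Topology Pool.Agent.N709.UM

universe u

namespace Pool.Agent.H19M.NC1

variable {H : Type u} [Group H] [TopologicalSpace H] [IsTopologicalGroup H] {ρ : H → ℝ}
  {F : Filter H}

theorem eq_one_of [T2Space H] (hρ : Gen ρ) (x : H) (h : ∀ e : ℝ, 0 < e → ρ x < e) : x = 1 := by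
  by_contra hx
  have h1 : ({x}ᶜ : Set H) ∈ 𝓝 (1 : H) := isOpen_compl_singleton.mem_nhds (fun h => hx h.symm)
  obtain ⟨r, hr, hrU⟩ := hρ.gen _ h1
  exact hrU x (h r hr) rfl

/-- conjugation by a fixed element is continuous at `1` -/
theorem conj_small (hρ : Gen ρ) (a : H) (e : ℝ) (he : 0 < e) :
    ∃ d : ℝ, 0 < d ∧ ∀ u, ρ u < d → ρ (a * u * a⁻¹) < e := by
  have h1 : {u : H | ρ (a * u * a⁻¹) < e} ∈ 𝓝 (1 : H) := by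
    have hc : Continuous (fun u : H => ρ (a * u * a⁻¹)) :=
      hρ.cont.comp ((continuous_const.mul continuous_id).mul continuous_const)
    have h2 : ρ (a * 1 * a⁻¹) < e := by
      rw [mul_one, mul_inv_cancel, hρ.pn.one]
      exact he
    exact (hc.tendsto 1).eventually_lt_const h2
  obtain ⟨r, hr, hrU⟩ := hρ.gen _ h1
  exact ⟨r, hr, fun u hu => hrU u hu⟩

theorem inv_pow (hF : Deep ρ F) (k : ℤ) (t : ℝ) (ht : 0 < t) :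
    ∀ᶠ b in F, ∀ c, ρ (b ^ k * c * (b ^ k)⁻¹) ≤ ρ c + t ∧ ρ ((b ^ k)⁻¹ * c * b ^ k) ≤ ρ c + t :=
  hF.pow k {x | ∀ c, ρ (x * c * x⁻¹) ≤ ρ c + t ∧ ρ (x⁻¹ * c * x) ≤ ρ c + t} (hF.inv t ht)

theorem com_pow' (hF : Deep ρ F) (k : ℤ) (t : ℝ) (ht : 0 < t) (c : H) :
    ∀ᶠ b in F, ρ (b ^ k * c * (b ^ k)⁻¹ * c⁻¹) < t ∧ ρ ((b ^ k)⁻¹ * c * b ^ k * c⁻¹) < t :=
  hF.pow k {x | ρ (x * c * x⁻¹ * c⁻¹) < t ∧ ρ (x⁻¹ * c * x * c⁻¹) < t} (hF.com t ht c)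

theorem one_mem (hρ : Gen ρ) (hF : Deep ρ F) (κ : ℕ → ℤ) : (1 : H) ∈ Ns ρ F κ := by
  intro m s hs h
  have h1 := hF.one _ h
  apply h1
  show ρ ((1 : H)⁻¹ * (1 : H) ^ κ m) < s
  rw [one_zpow, inv_one, mul_one, hρ.pn.one]
  exact hs

theorem inv_mem (hρ : Gen ρ) (hF : Deep ρ F) (κ : ℕ → ℤ) (z : H) (hz : z ∈ Ns ρ F κ) :
    z⁻¹ ∈ Ns ρ F κ := by
  intro m s hs h
  obtain ⟨d, hd, hd'⟩ := conj_small hρ z s hs
  have h1 := hF.pow (-1) _ h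
  obtain ⟨b, hb, hb'⟩ := ((hz m d hd).and_eventually h1).exists
  apply hb'
  show ρ (z⁻¹⁻¹ * (b ^ (-1 : ℤ)) ^ κ m) < s
  have e : z⁻¹⁻¹ * (b ^ (-1 : ℤ)) ^ κ m = (z * (z⁻¹ * b ^ κ m) * z⁻¹)⁻¹ := by
    rw [zpow_neg_one, inv_zpow]
    group
  rw [e, hρ.pn.inv]
  exact hd' _ hb

theorem mul_mem (hρ : Gen ρ) (hF : Deep ρ F) (κ : ℕ → ℤ) (z z' : H) (hz : z ∈ Ns ρ F κ)
    (hz' : z' ∈ Ns ρ F κ) : z * z' ∈ Ns ρ F κ := by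
  intro m s hs h
  have hs4 : 0 < s / 4 := by linarith
  obtain ⟨b, hb, hb'⟩ := ((hz m (s / 4) hs4).and_eventually (hF.mul _ h)).exists
  have h1 : ∀ᶠ b' in F, ρ ((z * z')⁻¹ * ((b * b') ^ κ m * (b ^ κ m * b' ^ κ m)⁻¹) * (z * z')⁻¹⁻¹) < s / 4 :=
    (PWZ.tendsto_one_iff hρ _).1 (PWZ.conj_fix (z * z')⁻¹ (PWZ.pow_int hρ hF b (κ m))) _ hs4
  obtain ⟨b', ⟨⟨hc1, hc2⟩, hc3⟩, hc4⟩ := ((((hz' m (s / 4) hs4).and_eventually hb').and_eventually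
    h1).and_eventually (inv_pow hF (κ m) (s / 4) hs4)).exists
  apply hc2
  show ρ ((z * z')⁻¹ * (b * b') ^ κ m) < s
  have e : (z * z')⁻¹ * (b * b') ^ κ m =
      ((z * z')⁻¹ * ((b * b') ^ κ m * (b ^ κ m * b' ^ κ m)⁻¹) * (z * z')⁻¹⁻¹) *
        ((z'⁻¹ * b' ^ κ m) * ((b' ^ κ m)⁻¹ * (z⁻¹ * b ^ κ m) * b' ^ κ m)) := by
    group
  rw [e]
  have h2 := (hc4 (z⁻¹ * b ^ κ m)).2
  have h3 := hρ.pn.mul ((z * z')⁻¹ * ((b * b') ^ κ m * (b ^ κ m * b' ^ κ m)⁻¹) * (z * z')⁻¹⁻¹)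
    ((z'⁻¹ * b' ^ κ m) * ((b' ^ κ m)⁻¹ * (z⁻¹ * b ^ κ m) * b' ^ κ m))
  have h4 := hρ.pn.mul (z'⁻¹ * b' ^ κ m) ((b' ^ κ m)⁻¹ * (z⁻¹ * b ^ κ m) * b' ^ κ m)
  linarith

theorem central [T2Space H] (hρ : Gen ρ) (hF : Deep ρ F) (κ : ℕ → ℤ) (z : H)
    (hz : z ∈ Ns ρ F κ) (g : H) : z * g = g * z := by
  have h1 : z * g * z⁻¹ * g⁻¹ = 1 := by
    refine eq_one_of hρ _ fun e he => ?_
    have he4 : 0 < e / 4 := by linarith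
    obtain ⟨d, hd, hd'⟩ := conj_small hρ g (e / 4) he4
    obtain ⟨b, ⟨⟨hb1, hb2⟩, hb3⟩⟩ := (((hz 0 (min d (e / 4)) (lt_min hd he4)).and_eventually
      (com_pow' hF (κ 0) (e / 4) he4 g)).and_eventually (inv_pow hF (κ 0) (e / 4) he4)).exists
    obtain ⟨x, hx⟩ : ∃ x, x = b ^ κ 0 := ⟨_, rfl⟩
    rw [← hx] at hb1 hb2 hb3
    have h2 := (lt_min_iff.1 hb1).1
    have h3 := (lt_min_iff.1 hb1).2
    have h4 := hd' _ h2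
    have e1 : z * g * z⁻¹ * g⁻¹ =
        (x * ((z⁻¹ * x)⁻¹ * (g * (z⁻¹ * x) * g⁻¹)) * x⁻¹) * (x * g * x⁻¹ * g⁻¹) := by
      group
    rw [e1]
    have h5 := hρ.pn.mul (x * ((z⁻¹ * x)⁻¹ * (g * (z⁻¹ * x) * g⁻¹)) * x⁻¹) (x * g * x⁻¹ * g⁻¹)
    have h6 := (hb3 ((z⁻¹ * x)⁻¹ * (g * (z⁻¹ * x) * g⁻¹))).1
    have h7 := hρ.pn.mul (z⁻¹ * x)⁻¹ (g * (z⁻¹ * x) * g⁻¹)
    have h8 := hρ.pn.inv (z⁻¹ * x)
    have h9 := hb2.1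
    linarith
  calc z * g = z * g * z⁻¹ * g⁻¹ * (g * z) := by group
    _ = g * z := by rw [h1, one_mul]

theorem closed (hρ : Gen ρ) (κ : ℕ → ℤ) : IsClosed (Ns ρ F κ) := by
  refine isClosed_of_closure_subset fun z hz m s hs => ?_
  rw [mem_closure_iff_nhds] at hz
  have h1 : {y : H | ρ (z⁻¹ * y) < s / 2} ∈ 𝓝 z := by
    have hc : Continuous (fun y : H => ρ (z⁻¹ * y)) :=
      hρ.cont.comp (continuous_const.mul continuous_id)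
    have h2 : ρ (z⁻¹ * z) < s / 2 := by
      rw [inv_mul_cancel, hρ.pn.one]
      exact half_pos hs
    exact (hc.tendsto z).eventually_lt_const h2
  obtain ⟨y, hy1, hy2⟩ := hz _ h1
  refine (hy2 m (s / 2) (half_pos hs)).mono fun b hb => ?_
  have e : z⁻¹ * b ^ κ m = (z⁻¹ * y) * (y⁻¹ * b ^ κ m) := by group
  rw [e]
  have h3 := hρ.pn.mul (z⁻¹ * y) (y⁻¹ * b ^ κ m)
  have h4 : ρ (z⁻¹ * y) < s / 2 := hy1
  linarith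

end Pool.Agent.H19M.NC1

namespace Pool.Agent.H19M

theorem t_NC1 : S_NC1.{u} := by
  intro H _ _ _ _ ρ hρ F hF κ
  exact ⟨{ carrier := Ns ρ F κ
           one_mem' := NC1.one_mem hρ hF κ
           mul_mem' := fun {a b} ha hb => NC1.mul_mem hρ hF κ a b ha hb
           inv_mem' := fun {a} ha => NC1.inv_mem hρ hF κ a ha },
    rfl, NC1.closed hρ κ, fun z hz g => NC1.central hρ hF κ z hz g⟩

end Pool.Agent.H19M
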