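import Pool.Agent.H19M.Stm2

set_option autoImplicit false

/-!
# Project H19M, piece NC3 (helper46): the powers approach the limits
-/

open Filter Topology Pool.Agent.N709.UM

universe u

namespace Pool.Agent.H19M

theorem t_NC3 : S_NC3.{u} := by
  intro H _ _ _ _ hRC ρ hρ F hF hFc κ hκ hI t ht
  by_contra hcon
  have hcon' : ∀ m, ∃ᶠ b in F, ∀ z ∈ Ns ρ F κ, t ≤ ρ (z⁻¹ * b ^ κ m) := by
    intro m h
    apply hcon
    refine ⟨m, h.mono fun b hb => ?_⟩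
    by_contra hb'
    apply hb
    intro z hz
    by_contra hlt
    exact hb' ⟨z, hz, not_le.1 hlt⟩
  have hdvd : ∀ m j, m ≤ j → κ m ∣ κ j := by
    intro m j hmj
    induction j, hmj using Nat.le_induction with
    | base => exact dvd_rfl
    | succ j _ ih => exact ih.trans (hκ j).2
  obtain ⟨A, hA⟩ := F.exists_antitone_basis
  have hb : ∀ j, ∃ b : H, (∀ z ∈ Ns ρ F κ, t ≤ ρ (z⁻¹ * b ^ κ j)) ∧
      ∀ m ≤ j, b ^ (κ j / κ m) ∈ A j := by
    intro j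
    have h1 : ∀ᶠ b in F, ∀ m ∈ Finset.range (j + 1), b ^ (κ j / κ m) ∈ A j := by
      rw [Filter.eventually_all_finset]
      intro m _
      exact hF.pow _ _ (hA.1.mem_of_mem trivial)
    obtain ⟨b, h2, h3⟩ := ((hcon' j).and_eventually h1).exists
    exact ⟨b, h2, fun m hm => h3 m (Finset.mem_range.2 (Nat.lt_succ_of_le hm))⟩
  choose b hb1 hb2 using hb
  have hx : ∀ m j, m ≤ j → (b j ^ (κ j / κ m)) ^ κ m = b j ^ κ j := by
    intro m j hmj
    rw [← zpow_mul, Int.ediv_mul_cancel (hdvd m j hmj)]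
  have htr : ∀ (m : ℕ) (P : H → Prop), (∀ᶠ y in F, P (y ^ κ m)) →
      ∀ᶠ j in atTop, P (b j ^ κ j) := by
    intro m P hP
    obtain ⟨j0, -, hj0⟩ := hA.1.mem_iff.1 hP
    filter_upwards [eventually_ge_atTop j0, eventually_ge_atTop m] with j h1 h2
    have h3 := hj0 (hA.2 h1 (hb2 j m h2))
    rw [← hx m j h2]
    exact h3
  have hU : ((Filter.hyperfilter ℕ : Ultrafilter ℕ) : Filter ℕ) ≤ atTop :=
    Nat.hyperfilter_le_atTop
  obtain ⟨z, hz⟩ := hRC (Filter.map (fun j => b j ^ κ j) (Filter.hyperfilter ℕ)) inferInstance (by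
    intro V hV
    obtain ⟨r, hr, hrV⟩ := hρ.gen V hV
    have hr4 : 0 < r / 4 := by linarith
    obtain ⟨m, E, hE⟩ := hI (r / 4) hr4
    have h1 : ∀ᶠ y in F, ∃ e ∈ E, ρ (e.1 * y ^ κ m) < r / 4 := by
      refine hE.mono ?_
      rintro y ⟨e, he, h⟩
      obtain ⟨c, hc⟩ := h.exists
      exact ⟨e, he, by simpa using hc⟩
    have h2 := (htr m (fun w => ∃ e ∈ E, ρ (e.1 * w) < r / 4) h1).filter_mono hU
    have h3 : ∃ e ∈ E, ∀ᶠ j in (Filter.hyperfilter ℕ : Filter ℕ), ρ (e.1 * b j ^ κ j) < r / 4 := by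
      by_contra hne
      have h4 : ∀ e ∈ E, ∀ᶠ j in (Filter.hyperfilter ℕ : Filter ℕ),
          ¬ ρ (e.1 * b j ^ κ j) < r / 4 := by
        intro e he
        rw [Ultrafilter.eventually_not]
        exact fun h => hne ⟨e, he, h⟩
      have h5 := (Filter.eventually_all_finset E).2 h4
      obtain ⟨j, ⟨e, he, hj1⟩, hj2⟩ := (h2.and h5).exists
      exact hj2 e he hj1
    obtain ⟨e, _, h6⟩ := h3
    have h7 : ∀ᶠ y in F, ∀ c, ρ (y ^ κ 0 * c * (y ^ κ 0)⁻¹) ≤ ρ c + r / 4 :=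
      (hF.pow (κ 0) _ (hF.inv (r / 4) hr4)).mono fun y hy c => (hy c).1
    have h8 := (htr 0 (fun w => ∀ c, ρ (w * c * w⁻¹) ≤ ρ c + r / 4) h7).filter_mono hU
    refine ⟨{w | ρ (e.1 * w) < r / 4 ∧ ∀ c, ρ (w * c * w⁻¹) ≤ ρ c + r / 4}, h6.and h8, ?_⟩
    rintro x ⟨hx1, hx2⟩ y ⟨hy1, _⟩
    have h9 : ρ (x⁻¹ * y) < r / 2 := by
      have e1 : x⁻¹ * y = (e.1 * x)⁻¹ * (e.1 * y) := by group
      rw [e1]
      have h10 := hρ.pn.mul (e.1 * x)⁻¹ (e.1 * y)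
      have h11 := hρ.pn.inv (e.1 * x)
      linarith
    refine ⟨hrV _ (by linarith), hrV _ ?_⟩
    have e2 : y * x⁻¹ = x * (x⁻¹ * y) * x⁻¹ := by group
    rw [e2]
    have h12 := hx2 (x⁻¹ * y)
    linarith)
  have hz' : ∀ s : ℝ, 0 < s → ∀ᶠ j in (Filter.hyperfilter ℕ : Filter ℕ),
      ρ (z⁻¹ * b j ^ κ j) < s := by
    intro s hs
    have h1 : {y : H | ρ (z⁻¹ * y) < s} ∈ 𝓝 z := by
      have hc : Continuous (fun y : H => ρ (z⁻¹ * y)) :=
        hρ.cont.comp (continuous_const.mul continuous_id)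
      have h2 : ρ (z⁻¹ * z) < s := by
        rw [inv_mul_cancel, hρ.pn.one]
        exact hs
      exact (hc.tendsto z).eventually_lt_const h2
    exact hz h1
  have hzN : z ∈ Ns ρ F κ := by
    intro m s hs h
    have h1 := (htr m (fun w => ¬ ρ (z⁻¹ * w) < s) h).filter_mono hU
    obtain ⟨j, hj1, hj2⟩ := (h1.and (hz' s hs)).exists
    exact hj1 hj2
  obtain ⟨j, hj⟩ := (hz' t ht).exists
  exact absurd (hb1 j z hzN) (not_le.2 hj)

end Pool.Agent.H19M
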