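import Pool.Agent.H19M.Stm2
import Pool.Agent.N709.UM.Rm3
import Pool.Agent.N564.UM3LW3

set_option autoImplicit false

/-!
# Project H19M (helper19), piece RED (helper95): reduction of words to ordered products

A variant of `Pool/Agent/N564/UM3LW3.lean` (helper564).
-/

universe u

namespace Pool.Agent.H19M.RED

open Pool.Agent.N709.UM Pool.Agent.N564.UM3LW3

theorem tp_succ {H : Type u} [Group H] (v : ℕ → H) (n l : ℕ) (c : ℕ → ℤ) :
    tp v n (l + 1) c = tp v n l c * v (n + l) ^ c (n + l) := by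
  unfold tp
  rw [List.range_succ, List.map_append, List.prod_append]
  simp

theorem tp_congr {H : Type u} [Group H] (v : ℕ → H) (n l : ℕ) (c c' : ℕ → ℤ)
    (h : ∀ i, i < l → c (n + i) = c' (n + i)) : tp v n l c = tp v n l c' := by
  unfold tp
  congr 1
  refine List.map_congr_left fun i hi => ?_
  rw [h i (List.mem_range.1 hi)]

theorem t_RED : S_RED.{u} := by
  intro G _ ρ hρ y t K hK ht htk hcj hcom w hw1 hw2
  obtain ⟨S, hS⟩ : ∃ S : ℕ → ℝ, S = fun k => ∑ j ∈ Finset.Ico K k,
      (j : ℝ) * ((2 * (j : ℝ) + 1) * t j) := ⟨_, rfl⟩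
  have hS1 : ∀ k, K ≤ k → S (k + 1) = S k + (k : ℝ) * ((2 * (k : ℝ) + 1) * t k) := by
    intro k hk
    rw [hS]
    exact Finset.sum_Ico_succ_top hk _
  have hSK : S K = 0 := by
    rw [hS]
    simp
  have hS2 : ∀ k, K ≤ k → S k ≤ (4 / 3) * ((1 / 4 : ℝ) ^ K - (1 / 4) ^ k) := by
    intro k hk
    induction k, hk using Nat.le_induction with
    | base => rw [hSK, sub_self, mul_zero]
    | succ k hk ih =>
      rw [hS1 k hk]
      have h1 := htk k
      have h2 : (1 / 4 : ℝ) ^ (k + 1) = (1 / 4) ^ k * (1 / 4) := pow_succ _ _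
      rw [h2]
      linarith
  have hS3 : ∀ k, K ≤ k → S k ≤ 2 * (1 / 4 : ℝ) ^ K := by
    intro k hk
    have h1 := hS2 k hk
    have h2 : (0 : ℝ) < (1 / 4) ^ k := by positivity
    have h3 : (0 : ℝ) < (1 / 4) ^ K := by positivity
    linarith
  have claim : ∀ l : ℕ, ∀ w : List (G ⊕ (ℕ × Bool)), Bel (K + l) w →
      (∀ j, j < K → cnt j w = 0) → (∀ j, K ≤ j → cnt j w ≤ j - 1) →
      ∃ (v : G) (c : ℕ → ℤ), Bd c ∧ ρ v ≤ wt ρ (fun _ => 0) w + S (K + l) ∧
        ev y w = v * tp y K l c := by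
    intro l
    induction l with
    | zero =>
      intro w hb hc _
      refine ⟨ev y w, fun _ => 0, fun i => by simp, ?_, ?_⟩
      · rw [Nat.add_zero, hSK, add_zero]
        refine noletter hρ y w (fun j s hj => ?_)
        have h1 := hb j s hj
        have h2 := cnt_mem hj
        rw [hc j (by omega)] at h2
        omega
      · simp [tp]
    | succ l ih =>
      intro w hb hc1 hc2
      have hk : K ≤ K + l := Nat.le_add_right _ _
      have hck := hc2 (K + l) hk
      have hckr : ((cnt (K + l) w : ℕ) : ℝ) ≤ ((K + l : ℕ) : ℝ) := by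
        exact_mod_cast (by omega : cnt (K + l) w ≤ K + l)
      have hkt : ((cnt (K + l) w : ℕ) : ℝ) * ((2 * ((K + l : ℕ) : ℝ) + 1) * t (K + l)) ≤
          ((K + l : ℕ) : ℝ) * ((2 * ((K + l : ℕ) : ℝ) + 1) * t (K + l)) :=
        mul_le_mul_of_nonneg_right hckr (mul_nonneg (by positivity) (ht _))
      obtain ⟨w', M, g1, g2, g3, g4, g5⟩ := RM3.rm3 G ρ hρ (t (K + l)) (ht _) y (K + l)
        (hcj _ hk) (hcom _ hk) w hb (by omega)
      have g4' : wt ρ (fun _ => 0) w' ≤ wt ρ (fun _ => 0) w +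
          ((cnt (K + l) w : ℕ) : ℝ) * ((2 * ((K + l : ℕ) : ℝ) + 1) * t (K + l)) := g4
      have hc1' : ∀ j, j < K → cnt j w' = 0 := by
        intro j hj
        have h6 := g2 j
        rw [hc1 j hj] at h6
        omega
      have hc2' : ∀ j, K ≤ j → cnt j w' ≤ j - 1 := fun j hj => (g2 j).trans (hc2 j hj)
      obtain ⟨v, c, hBd, hv, hev⟩ := ih w' g1 hc1' hc2'
      have hMk : M.natAbs ≤ K + l := by omega
      refine ⟨v, Function.update c (K + l) M, ?_, ?_, ?_⟩
      · intro i
        by_cases hi : i = K + l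
        · rw [hi, Function.update_self]
          exact hMk
        · rw [Function.update_of_ne hi]
          exact hBd i
      · have h1 := hS1 (K + l) hk
        rw [Nat.add_assoc] at h1
        rw [h1]
        linarith
      · rw [tp_succ, Function.update_self, g5, hev,
          tp_congr y K l c (Function.update c (K + l) M) (fun i hi => by
            rw [Function.update_of_ne (by omega)]), mul_assoc]
  obtain ⟨k, hk, hb⟩ := ex_bel K w
  obtain ⟨l, rfl⟩ := Nat.exists_eq_add_of_le hk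
  obtain ⟨v, c, hBd, hv, hev⟩ := claim l w hb hw1 hw2
  refine ⟨v, l, c, hBd, ?_, hev⟩
  have h3 := hS3 (K + l) hk
  have h5 : ρ v ≤ rw ρ w + S (K + l) := hv
  linarith

end Pool.Agent.H19M.RED

theorem Pool.Agent.H19M.t_RED : Pool.Agent.H19M.S_RED.{u} := Pool.Agent.H19M.RED.t_RED
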