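import Pool.Agent.H19M.Stm2

set_option autoImplicit false

/-!
Project H19M, piece SQA (helper75): the choice of the sequence.
-/

open Filter Topology Pool.Agent.N709.UM

universe u

namespace Pool.Agent.H19M

theorem sqa_pp_congr {G : Type u} [Group G] {y y' : ℕ → G} :
    ∀ k : ℕ, (∀ j, j < k → y j = y' j) → pp y k = pp y' k := by
  intro k
  induction k with
  | zero => intro _; rfl
  | succ k ih =>
    intro h
    have h1 := ih fun j hj => h j (Nat.lt_succ_of_lt hj)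
    simp only [pp, h1, h k (Nat.lt_succ_self k)]

theorem sqa_int_finite (k : ℕ) : ({M : ℤ | M.natAbs ≤ k} : Set ℤ).Finite := by
  refine (Set.finite_Icc (-(k : ℤ)) k).subset ?_
  intro M hM
  have hM' : M.natAbs ≤ k := hM
  simp only [Set.mem_Icc]
  omega

theorem sqa_pp_finite {G : Type u} [Group G] (y : ℕ → G) : ∀ k : ℕ, (pp y k).Finite := by
  intro k
  induction k with
  | zero => exact Set.finite_singleton _
  | succ k ih =>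
    refine ((ih.prod (sqa_int_finite k)).image fun p => p.1 * y k ^ p.2).subset ?_
    rintro g ⟨h, hh, M, hM, rfl⟩
    exact ⟨(h, M), ⟨hh, hM⟩, rfl⟩

theorem sqa_ev_le {α : Type*} {F : Filter α} {n : ℕ} {p : ℕ → α → Prop}
    (h : ∀ m, m ≤ n → ∀ᶠ x in F, p m x) : ∀ᶠ x in F, ∀ m, m ≤ n → p m x := by
  have h1 := (Filter.eventually_all_finite (Set.finite_Iic n) (l := F) (p := fun m x => p m x)).2
    (fun m hm => h m hm)
  exact h1.mono fun x hx m hm => hx m hm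

theorem sqa_ev_int {α : Type*} {F : Filter α} {n : ℕ} {p : ℤ → α → Prop}
    (h : ∀ c : ℤ, c.natAbs ≤ n → ∀ᶠ x in F, p c x) :
    ∀ᶠ x in F, ∀ c : ℤ, c.natAbs ≤ n → p c x := by
  have h1 := (Filter.eventually_all_finite (sqa_int_finite n) (l := F)
    (p := fun m x => p m x)).2 (fun m hm => h m hm)
  exact h1.mono fun x hx m hm => hx m hm

/-- the property required of the next element -/
def sqaP {H : Type u} [Group H] (ρ : H → ℝ) (F : Filter H) (κ : ℕ → ℤ) (l : ℕ → ℝ)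
    (q : ℕ → H) (t : ℕ → ℝ) (n : ℕ) (s : ℕ → H) (x : H) : Prop :=
  (∀ g, ρ (x * g * x⁻¹) ≤ ρ g + t n ∧ ρ (x⁻¹ * g * x) ≤ ρ g + t n) ∧
  (∀ j, j ≤ n → ∀ c, (c = s j ∨ c = (s j)⁻¹) →
    ρ (x * c * x⁻¹ * c⁻¹) < t n ∧ ρ (x⁻¹ * c * x * c⁻¹) < t n) ∧
  (∀ i, i ≤ n → ρ (x * q i * x⁻¹ * (q i)⁻¹) < t n) ∧
  (∀ m, m ≤ n → ∀ c : ℤ, c.natAbs ≤ n → ¬ κ m ∣ c → ∀ a ∈ pp s n,
    (∀ᶠ b in F, l m / 3 ≤ ρ (a * x ^ c * b ^ κ m)) ∧
    ∀ i, i ≤ n → ∀ᶠ b in F, l m / 3 ≤ ρ (q i * a * x ^ c * b ^ κ m))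

/-- the set of the later products -/
def sqaR {H : Type u} [Group H] (ρ : H → ℝ) (F : Filter H) (κ : ℕ → ℤ) (l : ℕ → ℝ)
    (q : ℕ → H) (t : ℕ → ℝ) (n : ℕ) (s : ℕ → H) (x : H) : Set H :=
  {b | (∀ g, ρ (b * g * b⁻¹) ≤ ρ g + t n ∧ ρ (b⁻¹ * g * b) ≤ ρ g + t n) ∧
    (∀ m, m ≤ n → ∀ c : ℤ, c.natAbs ≤ n →
      ρ ((x ^ c * b) ^ κ m * (x ^ (c * κ m) * b ^ κ m)⁻¹) < t n) ∧
    (∀ m, m ≤ n → ∀ c : ℤ, c.natAbs ≤ n → ¬ κ m ∣ c → ∀ a ∈ pp s n,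
      l m / 3 ≤ ρ (a * x ^ c * b ^ κ m) ∧
      ∀ i, i ≤ n → l m / 3 ≤ ρ (q i * a * x ^ c * b ^ κ m)) ∧
    (∀ r, r ≤ n → ∀ m, m ≤ n → ∀ i, i ≤ n →
      (∀ᶠ b' in F, 1 / ((i : ℝ) + 1) ≤ ρ (q r * b' ^ κ m)) →
      1 / ((i : ℝ) + 1) ≤ ρ (q r * b ^ κ m))}

theorem sqa (hsel : S_SEL.{u}) (hcmb : S_CMB.{u}) (hpwz : S_PWZ.{u}) : S_SQA.{u} := by
  intro H _ _ _ ρ hρ F hF κ l hl hp q t ht
  -- the combined ultrafilters
  choose p hpF hpV using hp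
  have hQ : ∀ n : ℕ, ∃ Q : Ultrafilter H, (Q : Filter H) ≤ F ∧ ∀ m, m ≤ n → ∀ c : ℤ,
      ¬ κ m ∣ c → Vc ρ F Q (κ m) c (l m / 3) := by
    intro n
    obtain ⟨Q, hQ1, hQ2⟩ := hcmb H ρ hρ F hF (n + 1) p κ l (fun i => {c | ¬ κ i ∣ c})
      (fun i _ => ⟨hpF i, hl i, fun c (hc : ¬ κ i ∣ c) => by
        change ¬ κ i ∣ -c
        rwa [dvd_neg], fun c hc => hpV i c hc⟩)
    exact ⟨Q, hQ1, fun m hm c hc => hQ2 m (by omega) c hc⟩
  have hP : ∀ n s, ∀ A ∈ F, ∃ x ∈ A, sqaP ρ F κ l q t n s x := by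
    intro n s A hA
    obtain ⟨Q, hQF, hQV⟩ := hQ n
    have e1 : ∀ᶠ x in (Q : Filter H), x ∈ A := hQF hA
    have e2 := (hF.inv (t n) (ht n)).filter_mono hQF
    have e3 : ∀ᶠ x in (Q : Filter H), ∀ j, j ≤ n → ∀ c, (c = s j ∨ c = (s j)⁻¹) →
        ρ (x * c * x⁻¹ * c⁻¹) < t n ∧ ρ (x⁻¹ * c * x * c⁻¹) < t n := by
      refine Filter.Eventually.filter_mono hQF (sqa_ev_le fun j _ => ?_)
      filter_upwards [hF.com (t n) (ht n) (s j), hF.com (t n) (ht n) (s j)⁻¹] with x h1 h2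
      rintro c (rfl | rfl)
      · exact h1
      · exact h2
    have e4 : ∀ᶠ x in (Q : Filter H), ∀ i, i ≤ n → ρ (x * q i * x⁻¹ * (q i)⁻¹) < t n := by
      refine Filter.Eventually.filter_mono hQF (sqa_ev_le fun i _ => ?_)
      exact (hF.com (t n) (ht n) (q i)).mono fun x hx => hx.1
    have e5 : ∀ᶠ x in (Q : Filter H), ∀ m, m ≤ n → ∀ c : ℤ, c.natAbs ≤ n → (¬ κ m ∣ c →
        ∀ a ∈ pp s n, (∀ᶠ b in F, l m / 3 ≤ ρ (a * x ^ c * b ^ κ m)) ∧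
        ∀ i, i ≤ n → ∀ᶠ b in F, l m / 3 ≤ ρ (q i * a * x ^ c * b ^ κ m)) := by
      refine sqa_ev_le fun m hm => sqa_ev_int fun c _ => ?_
      by_cases hc : κ m ∣ c
      · exact Filter.Eventually.of_forall fun x h => absurd hc h
      · have h1 := (Filter.eventually_all_finite (sqa_pp_finite s n) (l := (Q : Filter H))
          (p := fun a x => (∀ᶠ b in F, l m / 3 ≤ ρ (a * x ^ c * b ^ κ m)) ∧
            ∀ i, i ≤ n → ∀ᶠ b in F, l m / 3 ≤ ρ (q i * a * x ^ c * b ^ κ m))).2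
          (fun a _ => (hQV m hm c hc a).and
            (sqa_ev_le fun i _ => hQV m hm c hc (q i * a)))
        exact h1.mono fun x hx _ a ha => hx a ha
    obtain ⟨x, h1, h2, h3, h4, h5⟩ := (e1.and (e2.and (e3.and (e4.and e5)))).exists
    exact ⟨x, h1, h2, h3, h4, h5⟩
  have hR : ∀ n s x, sqaP ρ F κ l q t n s x → sqaR ρ F κ l q t n s x ∈ F := by
    intro n s x hx
    have e2 := hF.inv (t n) (ht n)
    have e3 : ∀ᶠ b in F, ∀ m, m ≤ n → ∀ c : ℤ, c.natAbs ≤ n →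
        ρ ((x ^ c * b) ^ κ m * (x ^ (c * κ m) * b ^ κ m)⁻¹) < t n := by
      refine sqa_ev_le fun m _ => sqa_ev_int fun c _ => ?_
      refine (hpwz H ρ hρ F hF (x ^ c) (κ m) (t n) (ht n)).mono fun b hb => ?_
      rw [zpow_mul]
      exact hb.1
    have e4 : ∀ᶠ b in F, ∀ m, m ≤ n → ∀ c : ℤ, c.natAbs ≤ n → (¬ κ m ∣ c → ∀ a ∈ pp s n,
        l m / 3 ≤ ρ (a * x ^ c * b ^ κ m) ∧
        ∀ i, i ≤ n → l m / 3 ≤ ρ (q i * a * x ^ c * b ^ κ m)) := by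
      refine sqa_ev_le fun m hm => sqa_ev_int fun c hc => ?_
      by_cases hd : κ m ∣ c
      · exact Filter.Eventually.of_forall fun x h => absurd hd h
      · have h1 := (Filter.eventually_all_finite (sqa_pp_finite s n) (l := F)
          (p := fun a b => l m / 3 ≤ ρ (a * x ^ c * b ^ κ m) ∧
            ∀ i, i ≤ n → l m / 3 ≤ ρ (q i * a * x ^ c * b ^ κ m))).2
          (fun a ha => ((hx.2.2.2 m hm c hc hd a ha).1).and
            (sqa_ev_le fun i hi => (hx.2.2.2 m hm c hc hd a ha).2 i hi))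
        exact h1.mono fun x hx _ a ha => hx a ha
    have e5 : ∀ᶠ b in F, ∀ r, r ≤ n → ∀ m, m ≤ n → ∀ i, i ≤ n →
        ((∀ᶠ b' in F, 1 / ((i : ℝ) + 1) ≤ ρ (q r * b' ^ κ m)) →
        1 / ((i : ℝ) + 1) ≤ ρ (q r * b ^ κ m)) := by
      refine sqa_ev_le fun r _ => sqa_ev_le fun m _ => sqa_ev_le fun i _ => ?_
      by_cases h : ∀ᶠ b' in F, 1 / ((i : ℝ) + 1) ≤ ρ (q r * b' ^ κ m)
      · exact h.mono fun b hb _ => hb
      · exact Filter.Eventually.of_forall fun b h' => absurd h' h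
    filter_upwards [e2, e3, e4, e5] with b h2 h3 h4 h5
    exact ⟨h2, h3, h4, h5⟩
  obtain ⟨v, s, hs, hv⟩ := hsel H ρ F hF (sqaP ρ F κ l q t) (sqaR ρ F κ l q t) hP hR
  have hpp : ∀ n, pp (s n) n = pp v n := fun n => sqa_pp_congr n (hs n)
  refine ⟨v, fun k c => (hv k).1.1 c, fun k j hj c hc => ?_, fun i k hi => (hv k).1.2.2.1 i hi,
    fun n j d hd g => ((hv n).2 j d hd).1 g,
    fun n m c j d hm hc hd => ((hv n).2 j d hd).2.1 m hm c hc,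
    fun n m c j d hm hc hκ hd a ha => ((hv n).2 j d hd).2.2.1 m hm c hc hκ a (by rw [hpp]; exact ha),
    fun n r m i hr hm hi h j d hd => ((hv n).2 j d hd).2.2.2 r hr m hm i hi h⟩
  refine (hv k).1.2.1 j hj.le c ?_
  rw [hs k j hj]
  exact hc

end Pool.Agent.H19M
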