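import Pool.Agent.H19M.Stm2
import Pool.Agent.N499.UMNWD
import Pool.Agent.N187.UMTOP
import Pool.Agent.N618.UM2CJ
import Pool.Agent.N709.UM.Star

/-!
Project H19M (helper19), piece SQB (helper14): the sequence tends to one, a contradiction.
-/

set_option autoImplicit false

open Filter Topology Pool.Agent.N709.UM

universe u

namespace Pool.Agent.H19M

namespace SQB

theorem one_mem_pp {G : Type u} [Group G] (y : ℕ → G) (k : ℕ) : (1 : G) ∈ pp y k := by
  induction k with
  | zero => exact rfl
  | succ k ih => exact ⟨1, ih, 0, by simp, by simp⟩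

theorem pow_small (x : ℝ) (hx : 0 < x) : ∀ᶠ k : ℕ in atTop, 2 * (1 / 4 : ℝ) ^ k < x := by
  have h5 : Tendsto (fun k : ℕ => 2 * (1 / 4 : ℝ) ^ k) atTop (𝓝 (2 * 0)) :=
    (tendsto_pow_atTop_nhds_zero_of_lt_one (by norm_num) (by norm_num)).const_mul 2
  rw [mul_zero] at h5
  exact h5.eventually (gt_mem_nhds hx)

end SQB

theorem sqb (hR : S_RED.{u}) (hL : S_LOW.{u}) : S_SQB.{u} := by
  intro G _ _ _ _ hmin ρ hρ F κ l q t y hSq hl hq htp htm hz0 hκ
  classical
  have hρ0 : ∀ g, 0 ≤ ρ g := hρ.pn.nonneg
  have htm' : ∀ k : ℕ, (k : ℝ) * ((2 * (k : ℝ) + 1) * t k) ≤ (1 / 4 : ℝ) ^ k := by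
    intro k
    have h1 := htm k
    have h2 := htp k
    have h3 : (0 : ℝ) ≤ k := Nat.cast_nonneg k
    have h4 : 0 ≤ (2 * (k : ℝ) + 1) * t k := by positivity
    nlinarith
  have htm2 : ∀ k : ℕ, ((k : ℝ) + 1) * t k ≤ (1 / 4 : ℝ) ^ k := by
    intro k
    have h1 := htm k
    have h2 := htp k
    have h3 : (0 : ℝ) ≤ k := Nat.cast_nonneg k
    have h4 : 0 ≤ (k : ℝ) * (((k : ℝ) + 1) * t k) := by positivity
    nlinarith
  have htle : ∀ k, t k ≤ (1 / 4 : ℝ) ^ k := by
    intro k
    have h1 := htm2 k
    have h2 := htp k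
    have h3 : (0 : ℝ) ≤ k := Nat.cast_nonneg k
    have h4 : 0 ≤ (k : ℝ) * t k := by positivity
    nlinarith
  have htlim : Tendsto t atTop (𝓝 0) :=
    squeeze_zero (fun k => (htp k).le) htle
      (tendsto_pow_atTop_nhds_zero_of_lt_one (by norm_num) (by norm_num))
  have hy1 : Tendsto y atTop (𝓝 1) := by
    apply Pool.Agent.N187.UMTOP.top G hmin y
    · exact Pool.Agent.N618.UM2.cj G ρ hρ y t htlim (fun k c => (hSq.inv k c).1) q hq hSq.comq
    · intro z hz
      obtain ⟨m, s, hs, hev⟩ := hz0 z hz
      obtain ⟨K₀, δ₀, hδ₀, hlow0⟩ := hL G ρ hρ F κ l q t y hSq hl hq (fun k => (htp k).le) htm2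
        z m s hs hev
      obtain ⟨K, hK1, hK2, hK3⟩ := ((SQB.pow_small (δ₀ / 2) (by linarith)).and
        ((eventually_ge_atTop K₀).and (eventually_ge_atTop 1))).exists
      obtain ⟨δ, hδd⟩ : ∃ δ : ℝ, δ = δ₀ / 2 := ⟨_, rfl⟩
      have hδ : 0 < δ := by linarith
      let ε : ℕ → ℝ := fun j => if j < K then δ else δ / j
      have hεp : ∀ k, 0 < ε k := by
        intro k
        simp only [ε]
        split_ifs with h
        · exact hδ
        · have : (0 : ℝ) < k := by
            have : 0 < k := by omega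
            exact_mod_cast this
          positivity
      have hε1 : ∀ j, j < K → ∀ i, i ≤ j → δ ≤ ε i := by
        intro j hj i hi
        simp only [ε]
        rw [if_pos (lt_of_le_of_lt hi hj)]
      have hε2 : ∀ j, K ≤ j → ∀ i, i ≤ j → δ / j ≤ ε i := by
        intro j hj i hi
        have hj1 : (1 : ℝ) ≤ j := by
          have : 1 ≤ j := by omega
          exact_mod_cast this
        simp only [ε]
        split_ifs with h
        · exact div_le_self hδ.le hj1
        · have hi1 : (0 : ℝ) < i := by
            have : 0 < i := by omega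
            exact_mod_cast this
          apply div_le_div_of_nonneg_left hδ.le hi1
          exact_mod_cast hi
      have hlow : ∀ w : List (G ⊕ (ℕ × Bool)), ev y w = z → δ ≤ wt ρ ε w := by
        intro w hw
        by_contra hlt
        rw [not_le] at hlt
        obtain ⟨g, l', c, hc, hg, hgw⟩ := hR G ρ hρ.pn y t K hK3 (fun k => (htp k).le) htm'
          (fun k _ => hSq.inv k) (fun k _ j hj c hc => by
            have h6 := hSq.comj k j hj c hc
            exact ⟨h6.1.le, h6.2.le⟩) w (by
            intro j hj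
            have h1 := cnt_mul_le_wt hρ0 (fun j => (hεp j).le) (hε1 j hj) w
            by_contra hne
            have h2 : (1 : ℝ) ≤ cnt j w := by
              have : 1 ≤ cnt j w := Nat.one_le_iff_ne_zero.mpr hne
              exact_mod_cast this
            nlinarith) (by
            intro j hj
            have h1 := cnt_mul_le_wt hρ0 (fun j => (hεp j).le) (hε2 j hj) w
            have hj0 : (0 : ℝ) < j := by
              have : 0 < j := by omega
              exact_mod_cast this
            have h2 : (cnt j w : ℝ) * (δ / j) < δ := lt_of_le_of_lt h1 hlt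
            have h3 : (cnt j w : ℝ) < j := by
              have h5 : (cnt j w : ℝ) * (δ / j) = ((cnt j w : ℝ) / j) * δ := by ring
              rw [h5] at h2
              have h6 : (cnt j w : ℝ) / j < 1 := by
                by_contra hcon
                rw [not_lt] at hcon
                nlinarith
              rwa [div_lt_one hj0] at h6
            have h4 : cnt j w < j := by exact_mod_cast h3
            omega)
        have h6 := rw_le_wt (ρ := ρ) (fun j => (hεp j).le) w
        have h7 : rw ρ w < δ := lt_of_le_of_lt h6 hlt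
        exact hlow0 K hK2 g l' c hc (by linarith) (hgw.symm.trans hw)
      obtain ⟨N, hNP, hNρ, hNy, hNz⟩ := Pool.Agent.N499.UM.nwd G ρ hρ.pn ε hεp y z δ hlow
      refine ⟨N, hNP, hNP.continuous_of_le hρ.pn hρ.cont hNρ, ?_, lt_of_lt_of_le hδ hNz⟩
      have h7 : Tendsto (fun k : ℕ => δ / (k : ℝ)) atTop (𝓝 0) :=
        tendsto_const_div_atTop_nhds_zero_nat δ
      refine tendsto_of_tendsto_of_tendsto_of_le_of_le' tendsto_const_nhds h7
        (Eventually.of_forall fun k => hNP.nonneg _) ?_
      filter_upwards [eventually_ge_atTop K] with k hk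
      have h8 := hNy k
      simp only [ε] at h8
      rwa [if_neg (not_lt.mpr hk)] at h8
  have hlim : Tendsto (fun k => ρ (y k)) atTop (𝓝 (ρ 1)) := (hρ.cont.tendsto 1).comp hy1
  rw [hρ.pn.one] at hlim
  have hl0 : 0 < l 0 / 3 := by
    have := hl 0
    linarith
  obtain ⟨k, hk, hk1⟩ := ((hlim.eventually (gt_mem_nhds hl0)).and (eventually_ge_atTop 1)).exists
  have h1 := (hSq.vis k 0 1 0 (fun _ => 0) (Nat.zero_le _) (by simpa using hk1) hκ
    (fun i => by simp) 1 (SQB.one_mem_pp y k)).1
  have h2 : tp y (k + 1) 0 (fun _ => 0) = 1 := by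
    unfold tp
    simp
  rw [h2, one_zpow, mul_one, one_mul, zpow_one] at h1
  linarith

end Pool.Agent.H19M
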