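import Pool.Agent.H19M.Stm2
import Pool.Agent.H19M.PWZ

set_option autoImplicit false

/-!
# Project H19M, pieces SYM and CSA (helper84)
-/

open Filter Topology Pool.Agent.N709.UM

universe u

namespace Pool.Agent.H19M

open Pool.Agent.H19M.PWZ

theorem t_SYM : S_SYM.{u} := by
  intro H _ _ _ ρ hρ F hF p hp κ c l ε hε hV h
  have h1 : ∀ᶠ x in (p : Filter H), ρ (x ^ c * h⁻¹ * (x ^ c)⁻¹ * h⁻¹⁻¹) < ε / 2 :=
    hp ((tendsto_one_iff hρ _).1 (com_pow hρ hF c h⁻¹) (ε / 2) (half_pos hε))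
  filter_upwards [hV h⁻¹, h1] with x hx hx1
  have h2 : ∀ᶠ b in F, l ≤ ρ (h⁻¹ * x ^ c * (b ^ (-1 : ℤ)) ^ κ) :=
    hF.pow (-1) {b | l ≤ ρ (h⁻¹ * x ^ c * b ^ κ)} hx
  have h3 : ∀ᶠ b in F, ρ (b ^ (-κ) * (x ^ c * h⁻¹) * (b ^ (-κ))⁻¹ * (x ^ c * h⁻¹)⁻¹) < ε / 2 :=
    (tendsto_one_iff hρ _).1 (com_pow hρ hF (-κ) (x ^ c * h⁻¹)) (ε / 2) (half_pos hε)
  filter_upwards [h2, h3] with b hb hb3
  set E := b ^ (-κ) * (x ^ c * h⁻¹) * (b ^ (-κ))⁻¹ * (x ^ c * h⁻¹)⁻¹ with hE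
  set E' := x ^ c * h⁻¹ * (x ^ c)⁻¹ * h⁻¹⁻¹ with hE'
  have e1 : (h * x ^ (-c) * b ^ κ)⁻¹ = E * E' * (h⁻¹ * x ^ c * (b ^ (-1 : ℤ)) ^ κ) := by
    rw [hE, hE', ← zpow_mul]
    group
  have e2 : ρ (h * x ^ (-c) * b ^ κ) = ρ (E * E' * (h⁻¹ * x ^ c * (b ^ (-1 : ℤ)) ^ κ)) := by
    rw [← e1, hρ.pn.inv]
  rw [e2]
  have e3 : h⁻¹ * x ^ c * (b ^ (-1 : ℤ)) ^ κ =
      (E * E')⁻¹ * (E * E' * (h⁻¹ * x ^ c * (b ^ (-1 : ℤ)) ^ κ)) := by group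
  have e4 := hρ.pn.mul (E * E')⁻¹ (E * E' * (h⁻¹ * x ^ c * (b ^ (-1 : ℤ)) ^ κ))
  rw [← e3, hρ.pn.inv] at e4
  have e5 := hρ.pn.mul E E'
  linarith

theorem Vc.mono {H : Type u} [Group H] {ρ : H → ℝ} {F : Filter H} {p : Ultrafilter H} {κ c : ℤ}
    {l l' : ℝ} (h : Vc ρ F p κ c l) (hl : l' ≤ l) : Vc ρ F p κ c l' := fun a =>
  (h a).mono fun _ hx => hx.mono fun _ hb => hl.trans hb

theorem t_CSA (hTSQ : S_TSQ.{u}) (hULT : S_ULT.{u}) (hCMB : S_CMB.{u}) (hCPT : S_CPT.{u}) :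
    S_CSA.{u} := by
  intro H _ _ _ _ _ hmin ρ hρ F hF r hr
  by_contra hcon
  push Not at hcon
  have hP : ∀ i : ℕ, ∃ p : Ultrafilter H, (p : Filter H) ≤ F ∧ Vc ρ F p 0 ((i : ℤ) + 1) (r / 2) ∧
      Vc ρ F p 0 (-((i : ℤ) + 1)) (r / 2) := by
    intro i
    obtain ⟨p, hp, hV⟩ := hULT H ρ F hF 0 ((i : ℤ) + 1) r (hcon _ (by omega))
    have h1 : Vc ρ F p 0 ((i : ℤ) + 1) r := by
      have h2 := hV 0
      rwa [mul_zero, add_zero] at h2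
    refine ⟨p, hp, h1.mono (by linarith), ?_⟩
    have h3 := t_SYM H ρ hρ F hF p hp 0 ((i : ℤ) + 1) r (r / 2) (half_pos hr) h1
    exact h3.mono (by linarith)
  choose P hPF hP1 hP2 using hP
  have hfin : ∀ N : ℕ, ∃ q : Ultrafilter H, (q : Filter H) ≤ F ∧ ∀ c : ℤ, c ≠ 0 → c.natAbs ≤ N →
      Vc ρ F q 0 c (r / 6) := by
    intro N
    obtain ⟨q, hq, hqV⟩ := hCMB H ρ hρ F hF N P (fun _ => 0) (fun _ => r / 2)
      (fun i => {(i : ℤ) + 1, -((i : ℤ) + 1)}) (by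
        intro i _
        refine ⟨hPF i, half_pos hr, ?_, ?_⟩
        · rintro c (rfl | rfl)
          · right; rfl
          · left; rw [neg_neg]
        · rintro c (rfl | rfl)
          · exact hP1 i
          · exact hP2 i)
    refine ⟨q, hq, fun c hc hcN => ?_⟩
    have h0 : 0 < c.natAbs := Int.natAbs_pos.2 hc
    have h1 := hqV (c.natAbs - 1) (by omega) c (by
      have h2 : ((c.natAbs - 1 : ℕ) : ℤ) + 1 = (c.natAbs : ℤ) := by omega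
      simp only [h2, Set.mem_insert_iff, Set.mem_singleton_iff]
      omega)
    exact Vc.mono h1 (by show r / 6 ≤ r / 2 / 3; linarith)
  obtain ⟨p, hp, hpV⟩ := hCPT H ρ F hF 0 (r / 6) {c | c ≠ 0} (by
    intro S hS
    obtain ⟨q, hq, hqV⟩ := hfin (S.sup Int.natAbs)
    exact ⟨q, hq, fun c hc => hqV c (hS c hc) (Finset.le_sup (f := Int.natAbs) hc)⟩)
  refine hTSQ H hmin ρ hρ F hF (fun _ => 0) (fun _ => r / 6) (fun _ => by positivity) ?_ ?_ ?_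
  · intro _
    refine ⟨p, hp, fun c hc => hpV c ?_⟩
    rintro rfl
    exact hc (dvd_refl 0)
  · intro z hz
    obtain ⟨s, hs, hs2⟩ := hρ.gen {z}ᶜ (isOpen_compl_singleton.mem_nhds (by simpa using hz.symm))
    refine ⟨0, s, hs, Eventually.of_forall fun b => ?_⟩
    rw [zpow_zero, mul_one, hρ.pn.inv]
    by_contra hlt
    push Not at hlt
    exact hs2 z hlt rfl
  · simp

end Pool.Agent.H19M
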