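import Pool.Agent.H19M.Fin
import Pool.Agent.NNN.H19Madd
import Pool.Agent.H19M.BASE
import Pool.Agent.H19M.CHI
import Pool.Agent.H72M.H19MCMB
import Pool.Agent.H19M.CPT
import Pool.Agent.H19M.SYM
import Pool.Agent.H19M.DIV
import Pool.Agent.H19M.ERR
import Pool.Agent.H33P.H19MFG
import Pool.Agent.H19M.FG2
import Pool.Agent.H19M.FG3
import Pool.Agent.N79.H19MLOW
import Pool.Agent.H19M.LV1
import Pool.Agent.H59M.H19MLV2
import Pool.Agent.H19M.LV3
import Pool.Agent.H19M.LVS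
import Pool.Agent.H19M.H19MMLT
import Pool.Agent.H19M.NC1
import Pool.Agent.H19M.NC3
import Pool.Agent.Helper87H.H19MPER
import Pool.Agent.H19M.PWZ
import Pool.Agent.H19M.RED
import Pool.Agent.H59M.H19MSEL
import Pool.Agent.H19M.SQA
import Pool.Agent.H19M.SQB
import Pool.Agent.N86.H19MULT
import Pool.Agent.N521.UM3CAU3

set_option autoImplicit false

/-!
Project H19M (helper19): `Star'` for all second countable Raikov complete minimal groups.
-/

open Filter Topology Pool.Agent.N709.UM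

universe u v

namespace Pool.Agent.H19M

theorem t_MLT : S_MLT.{u} := mlt
theorem t_ADD : S_ADD.{u} := add t_PWZ
theorem t_CMB : S_CMB.{u} := Pool.Agent.H72M.t_CMB t_PWZ
theorem t_LV1 : S_LV1.{u} := lv1 t_ADD t_MLT per
theorem t_LV2 : S_LV2.{u} := lv2 t_PWZ
theorem t_LV3 : S_LV3.{u} := lv3 t_PWZ ult t_CMB
theorem t_LVS : S_LVS.{u} := lvs t_MLT t_LV1 t_LV2 t_LV3 t_DIV
theorem t_SQA : S_SQA.{u} := sqa sel t_CMB t_PWZ
theorem t_SQB : S_SQB.{u} := sqb t_RED (low t_ERR)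
theorem t_TSQ : S_TSQ.{u} := tsq_of t_SQA t_SQB
theorem t_CSA' : S_CSA.{u} := t_CSA t_TSQ ult t_CMB t_CPT
theorem t_FG1 : S_FG1.{u} := Pool.Agent.H33P.H19MFG.t_FG1 t_PWZ Pool.Agent.H33P.H19MFG.t_FG0

theorem star4_of (hNC2 : S_NC2.{u}) (H : Type u) [Group H] [TopologicalSpace H] [IsTopologicalGroup H] [T2Space H]
    [SecondCountableTopology H] (hrc : RC H) (hmin : Pool.Agent.N709.UM.Min H) : Star' H :=
  fin_of t_BASE t_CSA' t_LVS t_NC1 hNC2 t_NC3 (chu t_CHI) t_FG1 Pool.Agent.H19M.FG2.fg2 t_FG3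
    t_TSQ Pool.Agent.N521.UM3CAU3.cau3 H hrc hmin

end Pool.Agent.H19M
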