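import Pool.Agent.N709.UM.Stm3

set_option autoImplicit false

/-!
Project H19M (helper19), MP_c4a55f_al: the product of an ARBITRARY family of second countable,
Raikov complete minimal groups is minimal.  The starting files (Pool.Agent.N709.UM) reduce this to
`Star'` for each factor and have it for locally compact and for non-archimedean factors.
Here: `Star'` for every second countable, Raikov complete minimal group.
-/

open Filter Topology Pool.Agent.N709.UM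

universe u

namespace Pool.Agent.H19M

/-- a deep filter: it is a filter at `1`, asymptotically central, asymptotically preserves `ρ`, and
is closed under products of successively chosen elements and under powers -/
structure Deep {H : Type u} [Group H] (ρ : H → ℝ) (F : Filter H) : Prop where
  one : ∀ A ∈ F, (1 : H) ∈ A
  inv : ∀ t : ℝ, 0 < t → ∀ᶠ x in F, ∀ c, ρ (x * c * x⁻¹) ≤ ρ c + t ∧ ρ (x⁻¹ * c * x) ≤ ρ c + t
  com : ∀ t : ℝ, 0 < t → ∀ c, ∀ᶠ x in F,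
    ρ (x * c * x⁻¹ * c⁻¹) < t ∧ ρ (x⁻¹ * c * x * c⁻¹) < t
  mul : ∀ A ∈ F, ∀ᶠ x in F, ∀ᶠ y in F, x * y ∈ A
  pow : ∀ c : ℤ, ∀ A ∈ F, ∀ᶠ x in F, x ^ c ∈ A

/-- the exponent `c` is invisible modulo `κ` at the scale `l` -/
def Ivs {H : Type u} [Group H] (ρ : H → ℝ) (F : Filter H) (κ c : ℤ) (l : ℝ) : Prop :=
  ∃ E : Finset (H × ℤ), ∀ᶠ x in F, ∃ e ∈ E, ∃ᶠ b in F, ρ (e.1 * x ^ (c + κ * e.2) * b ^ κ) < l

/-- the ultrafilter `p` sees the exponent `c` modulo later `κ`-th powers at the scale `l` -/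
def Vc {H : Type u} [Group H] (ρ : H → ℝ) (F : Filter H) (p : Ultrafilter H) (κ c : ℤ) (l : ℝ) :
    Prop := ∀ h : H, ∀ᶠ x in (p : Filter H), ∀ᶠ b in F, l ≤ ρ (h * x ^ c * b ^ κ)

/-- `v_n ^ (c n) * v_(n+1) ^ (c (n+1)) * ... ` (`l` factors) -/
def tp {H : Type u} [Group H] (v : ℕ → H) (n l : ℕ) (c : ℕ → ℤ) : H :=
  ((List.range l).map (fun i => v (n + i) ^ c (n + i))).prod

/-- the exponents are bounded by the index -/
def Bd (c : ℕ → ℤ) : Prop := ∀ i, (c i).natAbs ≤ i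

/-- PWZ (60 lines). `(a b)^k` is close to `a^k b^k` for deep `b`.
Proof: for `k ≥ 0` by induction: `(ab)^(k+1) = (ab)^k a b = w a^k b^k a b`, `b^k a = e a b^k` with
`e = b^k a b^(-k) a^(-1)`, `ρ e` small because `b^k` is deep (`Deep.pow` and `Deep.com`), so
`(ab)^(k+1) = w (a^k e a^(-k)) a^(k+1) b^(k+1)`; conjugation by the fixed element `a^k` is continuous
(`Gen ρ`: small `ρ` = close to `1`).  Negative exponents: `(ab)^(-k) = (a^k b^k)^(-1) w^(-1)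
= b^(-k) a^(-k) w^(-1)`, commute `b^(-k)` with `a^(-k)`, conjugate `w^(-1)` by `a^(-k) b^(-k)` (the
conjugation by deep elements almost preserves `ρ`, the one by fixed elements is continuous).
Second part: `b a = (b a b^(-1) a^(-1)) a b`; same induction. Library: Pwc of UM (natural exponents). -/
def S_PWZ : Prop := ∀ (H : Type u) [Group H] [TopologicalSpace H] [IsTopologicalGroup H]
  (ρ : H → ℝ), Gen ρ → ∀ F : Filter H, Deep ρ F → ∀ (a : H) (k : ℤ) (t : ℝ), 0 < t →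
  ∀ᶠ b in F, ρ ((a * b) ^ k * (a ^ k * b ^ k)⁻¹) < t ∧ ρ ((b * a) ^ k * (a ^ k * b ^ k)⁻¹) < t

/-- BASE (100 lines). The filter generated by the sets `{x | inv_t}` and `{x | com_(t,c)}` is deep,
every ultrafilter with `AI ρ` is finer, and it has a countable base because `H` is separable.
Proof: `F = ⨅ t>0, 𝓟 (Inv t) ⊓ ⨅ t>0, ⨅ c, 𝓟 (Com t c)`, or better directly with the antitone base
`B n = {x | inv with t = 1/(n+1)} ∩ {x | ∀ j ≤ n, com with t = 1/(n+1), c = q j}`, `q` dense: for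
`c = w * q j` with `ρ w` small, `x c x⁻¹ c⁻¹ = (x w x⁻¹) (x (q j) x⁻¹ (q j)⁻¹) w⁻¹`.  `Inv s · Inv t ⊆
Inv (s+t)`, `x y c y⁻¹ x⁻¹ c⁻¹ = x (y c y⁻¹ c⁻¹) x⁻¹ (x c x⁻¹ c⁻¹)`; inverses: the conditions are
symmetric up to conjugation; powers by induction. `ρ 1 = 0`. -/
def S_BASE : Prop := ∀ (H : Type u) [Group H] [TopologicalSpace H] [IsTopologicalGroup H]
  [SecondCountableTopology H] (ρ : H → ℝ), Gen ρ →
  ∃ F : Filter H, Deep ρ F ∧ F.IsCountablyGenerated ∧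
    ∀ p : Ultrafilter H, AI ρ p → (p : Filter H) ≤ F

/-- ADD (80 lines, given PWZ). Proof: for deep `x` let `(h,u)`, `b` (frequent) with
`ρ (h x^(c+κu) b^κ) < l` and `(h',u')`, `b'` (frequent) with `ρ (h' x^(c'+κu') b'^κ) < l'`; choose `b`
deep relative to `x`, then `b'` deep relative to `x`, `b`.  With `w = h x^(c+κu) b^κ` and
`g = x^(c'+κu') b'^κ` (deep) `ρ (h' w g) = ρ (h' g (g⁻¹ w g)) ≤ l' + l + small`, and
`h' w g = h' h x^(c+κu) b^κ x^(c'+κu') b'^κ` is close to `h' h x^(c+c'+κ(u+u')) (b b')^κ` (commute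
`b^κ` with the power of `x`; PWZ for `(b b')^κ`; all corrections are near the right end or are moved
there by deep elements).  `b b'` is frequent by `Deep.mul`.  Finite set: products of pairs. -/
def S_ADD : Prop := ∀ (H : Type u) [Group H] [TopologicalSpace H] [IsTopologicalGroup H]
  (ρ : H → ℝ), Gen ρ → ∀ F : Filter H, Deep ρ F → ∀ (κ c c' : ℤ) (l l' ε : ℝ), 0 < ε →
  Ivs ρ F κ c l → Ivs ρ F κ c' l' → Ivs ρ F κ (c + c') (l + l' + ε)

/-- MLT (25 lines). Multiples: apply the hypothesis to `x ^ m` (`Deep.pow`), `(h,u) ↦ (h, m u)`. -/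
def S_MLT : Prop := ∀ (H : Type u) [Group H] (ρ : H → ℝ) (F : Filter H), Deep ρ F →
  ∀ (κ c m : ℤ) (l : ℝ), Ivs ρ F κ c l → Ivs ρ F κ (m * c) l

/-- PER (25 lines). `κ` itself is invisible modulo `κ` (`u = -1`, `h = 1`, `b` near `1`: `1` is in all
sets of `F`), and invisibility depends only on `c` modulo `κ` (shift `u`). -/
def S_PER : Prop := ∀ (H : Type u) [Group H] (ρ : H → ℝ), PN ρ → ∀ (F : Filter H), Deep ρ F →
  ∀ (κ : ℤ) (l : ℝ), (0 < l → Ivs ρ F κ κ l) ∧ ∀ c s : ℤ, Ivs ρ F κ c l → Ivs ρ F κ (c + κ * s) l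

/-- LV1 (60 lines, given ADD, MLT, PER). Proof: `D = {c | ∀ l > 0, Ivs ρ F κ c l}` is a subgroup of
`ℤ` (ADD with `l/3`, MLT) and contains `κ`: `D = κ' ℤ`, `κ' ∣ κ`, `κ' ≥ 1`.  For each of the finitely
many residues `c` modulo `κ` not in `D` there is `l_c > 0` with `¬ Ivs κ c l_c`; `l` = the minimum
(`Ivs` is monotone in `l`); other `c` by PER. -/
def S_LV1 : Prop := ∀ (H : Type u) [Group H] [TopologicalSpace H] [IsTopologicalGroup H]
  (ρ : H → ℝ), Gen ρ → ∀ F : Filter H, Deep ρ F → ∀ κ : ℤ, 1 ≤ κ →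
  ∃ κ' : ℤ, 1 ≤ κ' ∧ κ' ∣ κ ∧ (∀ l : ℝ, 0 < l → Ivs ρ F κ κ' l) ∧
    (∀ c : ℤ, (∀ l : ℝ, 0 < l → Ivs ρ F κ c l) → κ' ∣ c) ∧
    ∃ l : ℝ, 0 < l ∧ ∀ c : ℤ, ¬ κ' ∣ c → ¬ Ivs ρ F κ c l

/-- LV2 (60 lines, given PWZ). If `κ'` is invisible modulo `κ` at all scales and `κ`-th powers are in
finitely many balls of radius `r` (`Ivs ρ F 0 κ r`: here `b ^ 0 = 1`) then `κ'`-th powers are in
finitely many balls of radius `r + ε`.  Proof: `x` deep, `ρ (h x^(κ'+κu) b^κ) < ε/4`, `b` deep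
relative to `x`; `y = b⁻¹ x^(-u)` is deep, so `ρ (e y^κ) < r` for some `e` of the finite set, and
`y^κ` is close to `b^(-κ) x^(-κu)`; `h x^κ' = h x^(κ'+κu) b^κ b^(-κ) x^(-κu) = w b^(-κ) x^(-κu)` is
close to `y^κ w'`, so `ρ (e h x^κ') < r + ε`. -/
def S_LV2 : Prop := ∀ (H : Type u) [Group H] [TopologicalSpace H] [IsTopologicalGroup H]
  (ρ : H → ℝ), Gen ρ → ∀ F : Filter H, Deep ρ F → ∀ (κ κ' : ℤ) (r ε : ℝ), 0 < ε →
  (∀ l : ℝ, 0 < l → Ivs ρ F κ κ' l) → Ivs ρ F 0 κ r → Ivs ρ F 0 κ' (r + ε)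

/-- ULT (50 lines). Compactness.  Proof: if not `Ivs`, the sets `{x ∈ A | ∀ e ∈ E, ∀ᶠ b, l ≤ ρ (e.1
x^(c+κ e.2) b^κ)}` (`A ∈ F`, `E` finite) are nonempty and directed; take an ultrafilter. -/
def S_ULT : Prop := ∀ (H : Type u) [Group H] (ρ : H → ℝ) (F : Filter H), Deep ρ F →
  ∀ (κ c : ℤ) (l : ℝ), ¬ Ivs ρ F κ c l →
  ∃ p : Ultrafilter H, (p : Filter H) ≤ F ∧ ∀ u : ℤ, Vc ρ F p κ (c + κ * u) l

/-- CMB (120 lines, given PWZ): finitely many ultrafilters are combined into one.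
Proof: for ultrafilters `p, q ≤ F` let `p ⋆ q` be the ultrafilter with `A ∈ p ⋆ q` iff
`∀ᶠ x in p, ∀ᶠ y in q, x * y ∈ A` (`Ultrafilter.bind`), it is `≤ F` by `Deep.mul`.
(L) `Vc p κ c l → Vc (q ⋆ p) κ c (l - ε)`: for fixed `x` (from `q`) `(x y)^c` is close to `x^c y^c`
by PWZ (`y` deep relative to `x`), and `h x^c` is a fixed element.
(R) `Vc p κ c l ∧ Vc p κ (-c) l → Vc (p ⋆ q) κ c (l/2 - ε)`: if not, `∀ᶠ x in p, ∀ᶠ u in q,
∃ᶠ b in F, ρ (h x^c u^c b^κ) < l/2 - ε/2`.  Take such `x`, then `x'` from `p`, then a common `u`, then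
`b`, `b'` (deep relative to everything before): `(h x^c u^c b^κ) (h x'^c u^c b'^κ)⁻¹` has
`ρ < l - ε` and is close to `(h x^c h⁻¹) x'^(-c) (b b'⁻¹)^κ`; this contradicts `Vc p κ (-c) l` for the
element `h x^c h⁻¹`.
Now `R_n = pure 1`, `R_j = p_j ⋆ R_(j+1)`, `q = R_0`: for the index `i` use (R) once and (L) `i`
times, with `ε` small. -/
def S_CMB : Prop := ∀ (H : Type u) [Group H] [TopologicalSpace H] [IsTopologicalGroup H]
  (ρ : H → ℝ), Gen ρ → ∀ F : Filter H, Deep ρ F → ∀ (n : ℕ) (p : ℕ → Ultrafilter H)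
  (κ : ℕ → ℤ) (l : ℕ → ℝ) (C : ℕ → Set ℤ),
  (∀ i, i < n → (p i : Filter H) ≤ F ∧ 0 < l i ∧ (∀ c ∈ C i, -c ∈ C i) ∧
    ∀ c ∈ C i, Vc ρ F (p i) (κ i) c (l i)) →
  ∃ q : Ultrafilter H, (q : Filter H) ≤ F ∧ ∀ i, i < n → ∀ c ∈ C i, Vc ρ F q (κ i) c (l i / 3)

/-- LV3 (90 lines, given PWZ, ULT, CMB, PER). Proof: for each residue `c` modulo `κ` with `¬ κ' ∣ c`
take `p_c` from ULT: it sees all exponents congruent to `c` modulo `κ` (at the scale `l`, modulo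
later `κ`-th powers); CMB with `C_c` = integers congruent to `± c` modulo `κ` (use the class `c` and
the class `-c` separately: `C` must be symmetric and all its elements seen by the same ultrafilter, so
first combine the two classes by CMB-type product, or: apply ULT to `c`, note that seeing `c` at `l`
implies seeing `-c` at `l - ε`: `(h x^(-c) b^κ)⁻¹ = b^(-κ) x^c h⁻¹` is close to `h⁻¹ x^c (b⁻¹)^κ`).
This gives `q` with `Vc q κ c (l/4)` for all `c` with `¬ κ' ∣ c`.  Claim: `Vc q κ' c (l/16)`: if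
`∃ᶠ b, ρ (h x^c b^κ') < l/16`, take `(h₁,u₁)` in the finite set of `Ivs κ κ' (l/16)` and `b₁`
frequent with `ρ (h₁ b^(κ'+κu₁) b₁^κ) < l/16`; then `b^κ'` is close (up to `l/16`) to
`h₁⁻¹ b₁^(-κ) b^(-κu₁)`, which is close to `h₁⁻¹ y^κ` with `y = b₁⁻¹ b^(-u₁)` deep (frequent); `x` is
deep relative to the finite set of the `h₁`: `h x^c h₁⁻¹ y^κ` is close to `h h₁⁻¹ x^c y^κ`, and has
`ρ < l/8 + small`: contradiction to `Vc q κ c (l/4)` for the finitely many elements `h h₁⁻¹`. -/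
def S_LV3 : Prop := ∀ (H : Type u) [Group H] [TopologicalSpace H] [IsTopologicalGroup H]
  (ρ : H → ℝ), Gen ρ → ∀ F : Filter H, Deep ρ F → ∀ (κ κ' : ℤ) (l : ℝ), 1 ≤ κ → κ' ∣ κ → 0 < l →
  (∀ l' : ℝ, 0 < l' → Ivs ρ F κ κ' l') → (∀ c : ℤ, ¬ κ' ∣ c → ¬ Ivs ρ F κ c l) →
  ∃ q : Ultrafilter H, (q : Filter H) ≤ F ∧ ∀ c : ℤ, ¬ κ' ∣ c → Vc ρ F q κ' c (l / 16)

end Pool.Agent.H19M
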