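import Pool.Agent.H19M.Stm

set_option autoImplicit false

/-!
Project H19M (helper19), part 2 of the statements.
-/

open Filter Topology Pool.Agent.N709.UM

universe u v

namespace Pool.Agent.H19M

/-- SEL (70 lines). Choice of a sequence with control of all later products.
Proof: recursion with sets `T_n ∈ F` (`T_0 = univ`): given the prefix and `T_n`, the set
`A = {x | ∀ c, |c| ≤ n → ∀ᶠ y in F, x ^ c * y ∈ T_n}` is in `F` (`Deep.mul`, then `Deep.pow`, finitely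
many `c`); choose `v_n ∈ A` with `P n s v_n` and put
`T_(n+1) = {y | ∀ c, |c| ≤ n → v_n ^ c * y ∈ T_n} ∩ R n s v_n`.  Claim `tp v n l c ∈ T_n` for all `l`:
induction on `l` (all `n`), `1 ∈ T_n` by `Deep.one`, `tp v n (l+1) c = v_n ^ c_n * tp v (n+1) l c`. -/
def S_SEL : Prop := ∀ (H : Type u) [Group H] (ρ : H → ℝ) (F : Filter H), Deep ρ F →
  ∀ (P : ℕ → (ℕ → H) → H → Prop) (R : ℕ → (ℕ → H) → H → Set H),
  (∀ n s, ∀ A ∈ F, ∃ x ∈ A, P n s x) → (∀ n s x, P n s x → R n s x ∈ F) →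
  ∃ (v : ℕ → H) (s : ℕ → ℕ → H), (∀ n j, j < n → s n j = v j) ∧ ∀ n, P n (s n) (v n) ∧
    ∀ (l : ℕ) (c : ℕ → ℤ), Bd c → tp v (n + 1) l c ∈ R n (s n) (v n)

/-- RED (70 lines). Proof: apply `Pool.Agent.N709.UM.RM3.rm3` (Rm3) for `k = L, L-1, ..., K` where all
letters of `w` are below `L + 1` (every word is `Bel` for a large index); the exponents satisfy
`|M_k| ≤ cnt k w ≤ k - 1`; what remains has no letters (`cnt (K-1) = 0`), so its value has `ρ ≤ rw`;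
`Σ_(k ≥ K) (1/4)^k ≤ 2 (1/4)^K`.  (See Lw3 and its proof for a similar induction.) -/
def S_RED : Prop := ∀ (G : Type u) [Group G] (ρ : G → ℝ), PN ρ → ∀ (y : ℕ → G)
  (t : ℕ → ℝ) (K : ℕ), 1 ≤ K → (∀ k, 0 ≤ t k) →
  (∀ k : ℕ, (k : ℝ) * ((2 * (k : ℝ) + 1) * t k) ≤ (1 / 4 : ℝ) ^ k) →
  (∀ k, K ≤ k → ∀ c, ρ (y k * c * (y k)⁻¹) ≤ ρ c + t k ∧ ρ ((y k)⁻¹ * c * y k) ≤ ρ c + t k) →
  (∀ k, K ≤ k → ∀ j, j < k → ∀ c, (c = y j ∨ c = (y j)⁻¹) →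
    ρ (y k * c * (y k)⁻¹ * c⁻¹) ≤ t k ∧ ρ ((y k)⁻¹ * c * y k * c⁻¹) ≤ t k) →
  ∀ w : List (G ⊕ (ℕ × Bool)), (∀ j, j < K → cnt j w = 0) → (∀ j, K ≤ j → cnt j w ≤ j - 1) →
    ∃ (g : G) (l : ℕ) (c : ℕ → ℤ), Bd c ∧ ρ g ≤ rw ρ w + 2 * (1 / 4 : ℝ) ^ K ∧
      ev y w = g * tp y K l c

/-- the properties of the chosen sequence -/
structure Sq {H : Type u} [Group H] (ρ : H → ℝ) (F : Filter H) (κ : ℕ → ℤ) (l : ℕ → ℝ)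
    (q : ℕ → H) (t : ℕ → ℝ) (v : ℕ → H) : Prop where
  inv : ∀ k c, ρ (v k * c * (v k)⁻¹) ≤ ρ c + t k ∧ ρ ((v k)⁻¹ * c * v k) ≤ ρ c + t k
  comj : ∀ k j, j < k → ∀ c, (c = v j ∨ c = (v j)⁻¹) →
    ρ (v k * c * (v k)⁻¹ * c⁻¹) < t k ∧ ρ ((v k)⁻¹ * c * v k * c⁻¹) < t k
  comq : ∀ i k, i ≤ k → ρ (v k * q i * (v k)⁻¹ * (q i)⁻¹) < t k
  tin : ∀ (n j : ℕ) (d : ℕ → ℤ), Bd d → ∀ g,
    ρ (tp v (n + 1) j d * g * (tp v (n + 1) j d)⁻¹) ≤ ρ g + t n ∧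
    ρ ((tp v (n + 1) j d)⁻¹ * g * tp v (n + 1) j d) ≤ ρ g + t n
  pwr : ∀ (n m : ℕ) (c : ℤ) (j : ℕ) (d : ℕ → ℤ), m ≤ n → c.natAbs ≤ n → Bd d →
    ρ ((v n ^ c * tp v (n + 1) j d) ^ κ m * (v n ^ (c * κ m) * tp v (n + 1) j d ^ κ m)⁻¹) < t n
  vis : ∀ (n m : ℕ) (c : ℤ) (j : ℕ) (d : ℕ → ℤ), m ≤ n → c.natAbs ≤ n → ¬ κ m ∣ c → Bd d →
    ∀ a ∈ pp v n, l m / 3 ≤ ρ (a * v n ^ c * tp v (n + 1) j d ^ κ m) ∧
      ∀ i ≤ n, l m / 3 ≤ ρ (q i * a * v n ^ c * tp v (n + 1) j d ^ κ m)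
  fin : ∀ (n r m i : ℕ), r ≤ n → m ≤ n → i ≤ n →
    (∀ᶠ b in F, 1 / ((i : ℝ) + 1) ≤ ρ (q r * b ^ κ m)) → ∀ (j : ℕ) (d : ℕ → ℤ), Bd d →
    1 / ((i : ℝ) + 1) ≤ ρ (q r * tp v (n + 1) j d ^ κ m)

/-- SQA (150 lines, given PWZ, CMB, SEL). Proof: for every `n` combine the ultrafilters of the levels
`0..n` by CMB (`C_m = {c | ¬ κ m ∣ c}`) to `Q_n ≤ F` which sees, modulo `κ m`, at the scale `l m / 3`.
SEL with `P n s x` = inv, com with `s j ^ (± 1)` (`j < n`) and `q i` (`i ≤ n`) at `t n` (sets of `F`),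
and for `m ≤ n`, `|c| ≤ n`, `¬ κ m ∣ c`, and `h` in the finite set `pp s n ∪ {q i * a}`:
`∀ᶠ b in F, l m / 3 ≤ ρ (h * x ^ c * b ^ κ m)` (a set of `Q_n`; `Q_n ≤ F`, so it meets all sets of `F`).
`R n s x` = the set of `b` with `∀ g, inv` at `t n`, the power condition of `pwr` (PWZ; `a = x ^ c`),
the condition of `vis` for `b` instead of the tail, and the condition of `fin` for `b`; all are finitely
many sets in `F`.  `pp (s n) n = pp v n` by `pp_congr`; `exists_seq'`-style. -/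
def S_SQA : Prop := ∀ (H : Type u) [Group H] [TopologicalSpace H] [IsTopologicalGroup H]
  (ρ : H → ℝ), Gen ρ → ∀ F : Filter H, Deep ρ F → ∀ (κ : ℕ → ℤ) (l : ℕ → ℝ), (∀ m, 0 < l m) →
  (∀ m, ∃ p : Ultrafilter H, (p : Filter H) ≤ F ∧ ∀ c : ℤ, ¬ κ m ∣ c → Vc ρ F p (κ m) c (l m)) →
  ∀ (q : ℕ → H) (t : ℕ → ℝ), (∀ k, 0 < t k) → ∃ v : ℕ → H, Sq ρ F κ l q t v

/-- ERR (50 lines). Proof: induction on `j` (all `n`): with `T = tp v (n+1) j d`,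
`T' = tp v (n+1) j (d κ)`, `(v^d T)^κ (v^(dκ) T')⁻¹ = w v^(dκ) (T^κ T'⁻¹) v^(-dκ)`, `ρ w < t n`, and
conjugation by `v n ^ (d n * κ m)` adds at most `n * t n`. `(n+1) t n + 2 (1/4)^(n+1) ≤ 2 (1/4)^n`. -/
def S_ERR : Prop := ∀ (H : Type u) [Group H] (ρ : H → ℝ), PN ρ → ∀ (F : Filter H) (κ : ℕ → ℤ)
  (l : ℕ → ℝ) (q : ℕ → H) (t : ℕ → ℝ) (v : ℕ → H), Sq ρ F κ l q t v → (∀ k, 0 ≤ t k) →
  (∀ k : ℕ, ((k : ℝ) + 1) * t k ≤ (1 / 4 : ℝ) ^ k) →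
  ∀ (m n j : ℕ) (d : ℕ → ℤ), m ≤ n → Bd d → Bd (fun i => d i * κ m) →
    ρ (tp v n j d ^ κ m * (tp v n j (fun i => d i * κ m))⁻¹) ≤ 2 * (1 / 4 : ℝ) ^ n

/-- LOW (140 lines, given ERR). Proof: let `Y = tp v k j c`, `g Y = z`, `k ≥ K` large.
If all `c i` (`k ≤ i < k + j`) are multiples `d i * κ m` (put `d i = 0` outside and for `κ m = 0`):
by ERR `Y = E⁻¹ B ^ κ m`, `B = tp v k j d`, `ρ E` small, so
`q r * B ^ κ m = (q r * z) (z⁻¹ E g⁻¹ z)` (with `q r` close to `z⁻¹`) is small (conjugation by the fixed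
`z` is continuous at `1`), contradiction to `Sq.fin` with `n = k - 1`: `s ≤ ρ (z⁻¹ b ^ κ m)` eventually,
so `1/(i+1) ≤ ρ (q r b ^ κ m)` eventually if `1/(i+1) + ρ (q r z) ≤ s`.
Otherwise let `i` be the last index with `¬ κ m ∣ c i`: `Y = a * v i ^ c i * B'`, `a ∈ pp v i`,
`B' = E⁻¹ B ^ κ m` by ERR (`n = i + 1`), `B = tp v (i+1) _ d`.  `B'= B ^ κ m * E'`, `ρ E' ≤ ρ E +
|κ m| t i` (`Sq.tin`), so `z = g a v_i^(c_i) B^κ E'` and `q r a v_i^(c_i) B^κ = (q r z)(z⁻¹ g⁻¹ z) E'⁻¹`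
is small, contradiction to `Sq.vis` (`l m / 3`). -/
def S_LOW : Prop := ∀ (H : Type u) [Group H] [TopologicalSpace H] [IsTopologicalGroup H]
  (ρ : H → ℝ), Gen ρ → ∀ (F : Filter H) (κ : ℕ → ℤ)
  (l : ℕ → ℝ) (q : ℕ → H) (t : ℕ → ℝ) (v : ℕ → H), Sq ρ F κ l q t v → (∀ m, 0 < l m) →
  DenseRange q → (∀ k, 0 ≤ t k) → (∀ k : ℕ, ((k : ℝ) + 1) * t k ≤ (1 / 4 : ℝ) ^ k) →
  ∀ (z : H) (m : ℕ) (s : ℝ), 0 < s → (∀ᶠ b in F, s ≤ ρ (z⁻¹ * b ^ κ m)) →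
  ∃ (K : ℕ) (δ : ℝ), 0 < δ ∧ ∀ k, K ≤ k → ∀ (g : H) (j : ℕ) (c : ℕ → ℤ), Bd c → ρ g < δ →
    g * tp v k j c ≠ z

/-- SQB (120 lines, given RED, LOW; Nwd = `Pool.Agent.N499.UM.nwd`, Top = `Pool.Agent.N187.UMTOP.top`,
Cj = `Pool.Agent.N618.UM2.cj`; copy the second half of `star3_of` in Pool/Agent/N709/UM/Star3.lean,
from `hy1` on).  Proof: LOW and RED show that words with small weight do not represent `z ≠ 1`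
(with `δ' = δ/2` for the weights `ε j = δ'` (`j < K`), `δ'/j`), so Nwd and Top give `v → 1`; but
`Sq.vis` with `m = 0`, `c = 1`, `a = 1 ∈ pp v n`, `j = 0` gives `l 0 / 3 ≤ ρ (v n)` for `n ≥ 1`. -/
def S_SQB : Prop := ∀ (H : Type u) [Group H] [TopologicalSpace H] [IsTopologicalGroup H]
  [T2Space H], Pool.Agent.N709.UM.Min H → ∀ ρ : H → ℝ, Gen ρ → ∀ (F : Filter H) (κ : ℕ → ℤ)
  (l : ℕ → ℝ) (q : ℕ → H) (t : ℕ → ℝ) (v : ℕ → H), Sq ρ F κ l q t v → (∀ m, 0 < l m) →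
  DenseRange q → (∀ k, 0 < t k) →
  (∀ k : ℕ, ((2 * (k : ℝ) + 1) * ((k : ℝ) + 1)) * t k = (1 / 4 : ℝ) ^ k) →
  (∀ z : H, z ≠ 1 → ∃ (m : ℕ) (s : ℝ), 0 < s ∧ ∀ᶠ b in F, s ≤ ρ (z⁻¹ * b ^ κ m)) →
  ¬ κ 0 ∣ 1 → False

/-- TSQ (30 lines, given SQA, SQB): the choice of `q` and `t` -/
def S_TSQ : Prop := ∀ (H : Type u) [Group H] [TopologicalSpace H] [IsTopologicalGroup H]
  [T2Space H] [SecondCountableTopology H], Pool.Agent.N709.UM.Min H → ∀ ρ : H → ℝ, Gen ρ → ∀ F : Filter H, Deep ρ F →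
  ∀ (κ : ℕ → ℤ) (l : ℕ → ℝ), (∀ m, 0 < l m) →
  (∀ m, ∃ p : Ultrafilter H, (p : Filter H) ≤ F ∧ ∀ c : ℤ, ¬ κ m ∣ c → Vc ρ F p (κ m) c (l m)) →
  (∀ z : H, z ≠ 1 → ∃ (m : ℕ) (s : ℝ), 0 < s ∧ ∀ᶠ b in F, s ≤ ρ (z⁻¹ * b ^ κ m)) →
  ¬ κ 0 ∣ 1 → False

/-- SYM (50 lines). Proof: `∀ᶠ x in p, ∀ᶠ b in F, l ≤ ρ (h⁻¹ x^c b^(-κ))` (`Deep.pow` with `-1`), and
`ρ (h x^(-c) b^κ) = ρ (b^(-κ) x^c h⁻¹)`, where `b^(-κ)` almost commutes with the fixed `x^c h⁻¹` and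
`x^c h⁻¹` is close to `h⁻¹ x^c` (up to a small left factor), because `x^c` is deep relative to `h`. -/
def S_SYM : Prop := ∀ (H : Type u) [Group H] [TopologicalSpace H] [IsTopologicalGroup H]
  (ρ : H → ℝ), Gen ρ → ∀ F : Filter H, Deep ρ F → ∀ p : Ultrafilter H, (p : Filter H) ≤ F →
  ∀ (κ c : ℤ) (l ε : ℝ), 0 < ε → Vc ρ F p κ c l → Vc ρ F p κ (-c) (l - ε)

/-- CPT (50 lines). Proof: the sets `{x ∈ A | ∀ c ∈ S, ∀ h ∈ E, ∀ᶠ b in F, l ≤ ρ (h x^c b^κ)}` (`A ∈ F`,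
`S ⊆ C` and `E` finite) are nonempty and directed; take an ultrafilter containing all of them. -/
def S_CPT : Prop := ∀ (H : Type u) [Group H] (ρ : H → ℝ) (F : Filter H), Deep ρ F →
  ∀ (κ : ℤ) (l : ℝ) (C : Set ℤ),
  (∀ S : Finset ℤ, (∀ c ∈ S, c ∈ C) →
    ∃ p : Ultrafilter H, (p : Filter H) ≤ F ∧ ∀ c ∈ S, Vc ρ F p κ c l) →
  ∃ p : Ultrafilter H, (p : Filter H) ≤ F ∧ ∀ c ∈ C, Vc ρ F p κ c l

/-- CSA (60 lines, given TSQ, ULT, SYM, CMB, CPT). Proof: otherwise `¬ Ivs ρ F 0 k r` for all `k ≥ 1`;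
ULT gives `p_k` with `Vc p_k 0 k r`, SYM `Vc p_k 0 (-k) (r/2)`; CMB (`κ i = 0`, `l i = r/2`,
`C i = {c_i, - c_i}`, `p i = p_|c_i|`) for finite sets, CPT for all `c ≠ 0`; then TSQ with `κ = 0`,
`l = r/6`; `ρ (z⁻¹ b^0) = ρ z > 0` for `z ≠ 1` (`Gen` and `T2`), and `¬ 0 ∣ 1`. -/
def S_CSA : Prop := ∀ (H : Type u) [Group H] [TopologicalSpace H] [IsTopologicalGroup H]
  [T2Space H] [SecondCountableTopology H], Pool.Agent.N709.UM.Min H → ∀ ρ : H → ℝ, Gen ρ → ∀ F : Filter H, Deep ρ F →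
  ∀ r : ℝ, 0 < r → ∃ k : ℤ, 1 ≤ k ∧ Ivs ρ F 0 k r

/-- DIV (20 lines). Proof: `b^(κ s) = (b^s)^κ`, `b^s` is frequent in `F` by `Deep.pow`;
`(h,u) ↦ (h, s u)`. -/
def S_DIV : Prop := ∀ (H : Type u) [Group H] (ρ : H → ℝ) (F : Filter H), Deep ρ F →
  ∀ (κ s c : ℤ) (l : ℝ), Ivs ρ F (κ * s) c l → Ivs ρ F κ c l

/-- LVS (120 lines, given MLT, LV1, LV2, LV3, DIV). Proof: `r_m = e/(4 (m+1))`, `k_0` for `r_0`,
`k_(m+1) = k_m k'` with `k'` for `r_(m+1)` (MLT), LV1 for `k_m` gives `κ m`, LV2 (`ε = r_m`) gives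
`Ivs 0 (κ m) (2 r_m)`, LV3 gives the ultrafilter.  `κ m ∣ κ (m+1)` by DIV and the second property of
LV1.  If `κ 0 ∣ 1` then `κ 0 = 1`, `Ivs 0 1 (e/2)`, contradiction (`Ivs` is monotone in `l`). -/
def S_LVS : Prop := ∀ (H : Type u) [Group H] [TopologicalSpace H] [IsTopologicalGroup H]
  (ρ : H → ℝ), Gen ρ → ∀ F : Filter H, Deep ρ F →
  (∀ r : ℝ, 0 < r → ∃ k : ℤ, 1 ≤ k ∧ Ivs ρ F 0 k r) → ∀ e : ℝ, 0 < e → ¬ Ivs ρ F 0 1 e →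
  ∃ (κ : ℕ → ℤ) (l : ℕ → ℝ), (∀ m, 1 ≤ κ m ∧ κ m ∣ κ (m + 1) ∧ 0 < l m) ∧ ¬ κ 0 ∣ 1 ∧
    (∀ m, ∃ p : Ultrafilter H, (p : Filter H) ≤ F ∧
      ∀ c : ℤ, ¬ κ m ∣ c → Vc ρ F p (κ m) c (l m)) ∧
    ∀ r : ℝ, 0 < r → ∃ m, Ivs ρ F 0 (κ m) r

/-- the limits of the `κ m`-th powers for all `m` -/
def Ns {H : Type u} [Group H] (ρ : H → ℝ) (F : Filter H) (κ : ℕ → ℤ) : Set H :=
  {z | ∀ (m : ℕ) (s : ℝ), 0 < s → ∃ᶠ b in F, ρ (z⁻¹ * b ^ κ m) < s}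

/-- NC1 (100 lines, given PWZ). Proof: product: `b` frequent for `z`, then `b'` frequent for `z'`, deep
relative to `b`: `(b b')^κ = w b^κ b'^κ` and `(z z')⁻¹ b^κ b'^κ = (z'⁻¹ b'^κ) (b'^(-κ) (z⁻¹ b^κ) b'^κ)`,
`w` is moved by continuity of the conjugation by `z z'`; `b b'` is frequent by `Deep.mul`.  Inverse:
`b⁻¹`.  Centrality: `z` is close to the deep element `b^κ`, which almost commutes with `g`, so
`ρ (z g z⁻¹ g⁻¹) = 0`, `= 1` by `Gen` and `T2`.  Closedness: triangle inequality. -/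
def S_NC1 : Prop := ∀ (H : Type u) [Group H] [TopologicalSpace H] [IsTopologicalGroup H]
  [T2Space H] (ρ : H → ℝ), Gen ρ → ∀ F : Filter H, Deep ρ F → ∀ κ : ℕ → ℤ,
  ∃ N : Subgroup H, (N : Set H) = Ns ρ F κ ∧ IsClosed (N : Set H) ∧ ∀ z ∈ N, ∀ g, z * g = g * z

/-- NC2 (60 lines). Proof: let `p` be an ultrafilter on `N`.  For every `r` there are `m` and a finite
set of `h` with: all `x` in a set of `F` have `ρ (h x^κ) < r` for some `h` (`b^0 = 1`), so every `z ∈ N`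
has `ρ (h z) < 2 r` for some `h` (`z ≈ x^κ`); one of the balls is in `p`; for `x, y` in it (and in `N`)
`x⁻¹ y = (h x)⁻¹ (h y)` is small and `y x⁻¹ = x⁻¹ y`.  RC gives a limit, `N` is closed. -/
def S_NC2 : Prop := ∀ (H : Type u) [Group H] [TopologicalSpace H] [IsTopologicalGroup H]
  [T2Space H], RC H → ∀ ρ : H → ℝ, Gen ρ → ∀ F : Filter H, Deep ρ F → ∀ κ : ℕ → ℤ,
  (∀ r : ℝ, 0 < r → ∃ m, Ivs ρ F 0 (κ m) r) →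
  ∀ N : Subgroup H, (N : Set H) = Ns ρ F κ → IsClosed (N : Set H) →
  (∀ z ∈ N, ∀ g, z * g = g * z) → IsCompact (N : Set H)

/-- NC3 (120 lines). Proof: otherwise there is `t` such that for all `m` frequently `b^(κ m)` is at
distance `≥ t` from all `z ∈ Ns`.  Let `A_j` be an antitone base of `F`; choose `b_j` far with
`b_j ^ (κ j / κ m) ∈ A_j` for all `m ≤ j` (`Deep.pow`), `x_j = b_j ^ κ j`.  Let `U` be a nonprincipal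
ultrafilter on `ℕ` (`Filter.hyperfilter`), `p = U.map x`.  For every `m` with `Ivs 0 (κ m) r`: `x_j =
(b_j ^ (κ j / κ m)) ^ κ m` is in finitely many balls `ρ (h x) < r` for large `j`, so one is in `p`:
`x⁻¹ y` small for `x, y` in it; `y x⁻¹ = x (x⁻¹ y) x⁻¹` small, because `x_j = (b_j ^ (κ j / κ 0)) ^ κ 0`
is deep (`Deep.pow`, `Deep.inv`).  RC: `x_j → z` along `U`; `z ∈ Ns` because `b_j ^ (κ j / κ m) ∈ A_j`.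
Contradiction. -/
def S_NC3 : Prop := ∀ (H : Type u) [Group H] [TopologicalSpace H] [IsTopologicalGroup H]
  [T2Space H], RC H → ∀ ρ : H → ℝ, Gen ρ → ∀ F : Filter H, Deep ρ F → F.IsCountablyGenerated →
  ∀ κ : ℕ → ℤ, (∀ m, 1 ≤ κ m ∧ κ m ∣ κ (m + 1)) → (∀ r : ℝ, 0 < r → ∃ m, Ivs ρ F 0 (κ m) r) →
  ∀ t : ℝ, 0 < t → ∃ m, ∀ᶠ b in F, ∃ z ∈ Ns ρ F κ, ρ (z⁻¹ * b ^ κ m) < t

/-- CHI (100 lines). Characters separate the points of a compact abelian group.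
Proof: Peter-Weyl (`Pool.LatH472`, StPW in Pool/Agent/Helper472/Lat_PW.lean): a finite dimensional
unitary representation `π` with `π z ≠ 1`; `π z` is unitary, hence diagonalizable, so it has an
eigenvalue `μ ≠ 1`; the eigenspace is invariant under the commuting operators `π x`; a common
eigenvector in it (`Module.End` simultaneous eigenvectors, or induction on the dimension of an invariant
subspace) gives a continuous character `χ` with `χ z = μ ≠ 1`; a power of `χ` has `1 ≤ ‖χ z - 1‖`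
(otherwise all powers of `μ` are in `‖w - 1‖ < 1`: take `|arg μ|` and multiply until it is in
`[π/3, π]`; or: `‖μ^(2n) - 1‖ = ‖μ^n - 1‖ ‖μ^n + 1‖ ≥ (3/2) ‖μ^n - 1‖` if `‖μ^n - 1‖ ≤ 1/2`, so the
distances grow until one is `≥ 1/2 ..`, use `‖μ^n + 1‖ ≥ 1` and `= sqrt (4 - ‖μ^n - 1‖^2) ≥ sqrt 3`). -/
def S_CHI : Prop := ∀ (N : Type) [CommGroup N] [TopologicalSpace N] [IsTopologicalGroup N]
  [CompactSpace N] [T2Space N] (z : N), z ≠ 1 →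
  ∃ χ : N →* ℂ, Continuous χ ∧ (∀ x, ‖χ x‖ = 1) ∧ 1 ≤ ‖χ z - 1‖

/-- the elements whose `c κ`-th power is close to an element of `N` near the kernel of `χ` -/
def Wc {H : Type u} [Group H] (ρ : H → ℝ) (N : Subgroup H) (χ : N →* ℂ) (κ : ℤ) (s : ℝ)
    (c : ℤ) : Set H := {x | ∃ w : N, ρ ((w : H)⁻¹ * x ^ (c * κ)) < s ∧ ‖χ w - 1‖ ≤ 1 / 2}

/-- the data of a character -/
structure Ch {H : Type u} [Group H] (ρ : H → ℝ) (F : Filter H) (N : Subgroup H) (χ : N →* ℂ)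
    (κ : ℤ) (s : ℝ) : Prop where
  pos : 0 < s
  nrm : ∀ w, ‖χ w‖ = 1
  sml : ∀ w : N, ρ (w : H) < 4 * s → ‖χ w - 1‖ ≤ 1 / 20
  apx : ∀ᶠ b in F, ∃ w : N, ρ ((w : H)⁻¹ * b ^ κ) < s

/-- the filter of the deep elements whose powers are near the kernels of the characters -/
def FG {H : Type u} [Group H] (ρ : H → ℝ) (F : Filter H) (N : Subgroup H) {ι : Type v}
    (χ : ι → N →* ℂ) (κ : ι → ℤ) (s : ι → ℝ) : Filter H :=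
  F ⊓ ⨅ i, ⨅ c : ℤ, 𝓟 (Wc ρ N (χ i) (κ i) (s i) c)

/-- FG0 (40 lines, numerical bootstrapping). Proof: `w_j` with `ρ (w_j⁻¹ x^(2^j c κ)) < s`,
`‖χ w_j - 1‖ ≤ 1/2` for `j = 0..3`.  `w_j⁻² x^(2^(j+1) c κ) = (w_j⁻¹ x^(2^j c κ))²` (`w_j` central), so
`ρ (w_(j+1)⁻¹ w_j²) < 3 s` and `‖χ(w_(j+1)) - χ(w_j)²‖ ≤ 1/20`; `‖α² - 1‖ = ‖α - 1‖ ‖α + 1‖ ≥ (3/2)
‖α - 1‖`, so `‖χ w_j - 1‖ ≤ (‖χ w_(j+1) - 1‖ + 1/20) / (3/2)`: `1/2`, `0.3667`, `0.2778`, `0.2186`. For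
another `w` with `ρ (w⁻¹ x^(c κ)) < s`: the same argument starting with `w` at `j = 0`. -/
def S_FG0 : Prop := ∀ (H : Type u) [Group H] (ρ : H → ℝ), PN ρ → ∀ (F : Filter H)
  (N : Subgroup H), (∀ z ∈ N, ∀ g : H, z * g = g * z) → ∀ (χ : N →* ℂ) (κ : ℤ) (s : ℝ),
  Ch ρ F N χ κ s → ∀ (c : ℤ) (x : H), x ∈ Wc ρ N χ κ s (2 * c) → x ∈ Wc ρ N χ κ s (4 * c) →
  x ∈ Wc ρ N χ κ s (8 * c) → ∀ w : N, ρ ((w : H)⁻¹ * x ^ (c * κ)) < s → ‖χ w - 1‖ ≤ 1 / 2 →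
  ‖χ w - 1‖ ≤ 22 / 100

/-- FG1 (150 lines, given PWZ, FG0). Proof: `inv`, `com` from `F`; `1 ∈ Wc` (`w = 1`); `pow`: `x^d ∈ Wc c`
iff `x ∈ Wc (d c)`, and `Deep.pow` of `F`; `mul`: it suffices (finite intersections) to treat `Wc c`:
for `x` in `Wc c ∩ Wc 2c ∩ Wc 4c ∩ Wc 8c` and `y` in the same set and deep relative to `x`:
`(x y)^(cκ) = u x^(cκ) y^(cκ)`, `ρ u` small (PWZ); `(w w')⁻¹ x^(cκ) y^(cκ) = (w⁻¹ x^(cκ)) (w'⁻¹ y^(cκ))`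
(central); by `Deep.mul`, `Deep.pow` of `F` and `Ch.apx` there is `w''` with `ρ (w''⁻¹ (x y)^(cκ)) < s`, so
`ρ (w''⁻¹ w w') < 4 s` and `‖χ w'' - 1‖ ≤ 22/100 + 22/100 + 1/20 ≤ 1/2`. -/
def S_FG1 : Prop := ∀ (H : Type u) [Group H] [TopologicalSpace H] [IsTopologicalGroup H]
  (ρ : H → ℝ), Gen ρ → ∀ F : Filter H, Deep ρ F → ∀ N : Subgroup H,
  (∀ z ∈ N, ∀ g, z * g = g * z) → ∀ (ι : Type u) (χ : ι → N →* ℂ) (κ : ι → ℤ) (s : ι → ℝ),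
  (∀ i, Ch ρ F N (χ i) (κ i) (s i)) → Deep ρ (FG ρ F N χ κ s)

/-- FG2 (120 lines, given PWZ). Proof: `q` = the ultrafilter with `A ∈ q` iff `∀ᶠ x in p, ∀ᶠ y in p,
x⁻¹ * y ∈ A`; it is `≤ F` (`Deep.mul` applied to `x⁻¹`, `y`; `Deep.pow` with `-1`).  `Wc c ∈ q`: for
`x` in a set of `F` (so of `p`) choose `w_x` with `ρ (w_x⁻¹ x^(cκ)) < s`; the values `χ (w_x)` are in
the compact circle, so for some `μ` eventually in `p` `‖χ w_x - μ‖ < 1/40`; for `x`, `y` (deep relative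
to `x`) `(x⁻¹ y)^(cκ) = u x^(-cκ) y^(cκ)`, `ρ u` small, which is close (`2 s`) to `w_x⁻¹ w_y`, and
`x⁻¹ y` is deep, so there is `w''` with `ρ (w''⁻¹ (x⁻¹ y)^(cκ)) < s`, so `‖χ w'' - χ(w_x⁻¹ w_y)‖ ≤ 1/20`
and `‖χ w'' - 1‖ ≤ 1/20 + 1/20`.  Visibility: `(x⁻¹ y)^c` is close to `x^(-c) y^c` up to a small left
factor `u` (`h u h⁻¹` is small by continuity), `h x^(-c)` is fixed: `Vc` of `p`; `∀ᶠ b in F` implies
`∀ᶠ b in FG`. -/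
def S_FG2 : Prop := ∀ (H : Type u) [Group H] [TopologicalSpace H] [IsTopologicalGroup H]
  (ρ : H → ℝ), Gen ρ → ∀ F : Filter H, Deep ρ F → ∀ N : Subgroup H,
  (∀ z ∈ N, ∀ g, z * g = g * z) → ∀ (ι : Type u) (χ : ι → N →* ℂ) (κ : ι → ℤ) (s : ι → ℝ),
  (∀ i, Ch ρ F N (χ i) (κ i) (s i)) → ∀ p : Ultrafilter H, (p : Filter H) ≤ F →
  ∃ q : Ultrafilter H, (q : Filter H) ≤ FG ρ F N χ κ s ∧
    ∀ (κ' c : ℤ) (l ε : ℝ), 0 < ε → Vc ρ F p κ' c l → Vc ρ (FG ρ F N χ κ s) q κ' c (l - ε)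

/-- FG3 (30 lines). Proof: for `b ∈ Wc 1` with `w`: if `ρ (z⁻¹ b^κ) < s` then `ρ (z⁻¹ w) < 2 s`, so
`‖χ w - χ z‖ ≤ 1/20`, `‖χ z - 1‖ ≤ 1/2 + 1/20 < 1`. -/
def S_FG3 : Prop := ∀ (H : Type u) [Group H] (ρ : H → ℝ), PN ρ → ∀ (F : Filter H)
  (N : Subgroup H) (ι : Type u) (χ : ι → N →* ℂ) (κ : ι → ℤ) (s : ι → ℝ),
  (∀ i, Ch ρ F N (χ i) (κ i) (s i)) → ∀ (i : ι) (z : N), 1 ≤ ‖χ i z - 1‖ →
  ∀ᶠ b in FG ρ F N χ κ s, s i ≤ ρ ((z : H)⁻¹ * b ^ κ i)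

end Pool.Agent.H19M
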